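import Pool.Agent.H499R2.NDTao

/-! Natural density: invariant sets are equidistributed in the classes mod 3. -/

set_option autoImplicit false

namespace Pool.Agent.H499R2.ND

open Pool.Agent.H320R2.PD Finset

/-- number of odd integers of a window in a class, from below -/
theorem le_cls_univ (a b : ℝ) (m : ℕ) {u : ℤ} (hu : IsCoprime u 3) (v : ℤ) :
    (b - a) / (2 * 3 ^ m) - 1 ≤ ((cls Set.univ a b m u v).card : ℝ) := by
  obtain ⟨c, hc⟩ := odd_class m hu v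
  have heq : cls Set.univ a b m u v = ap a b (2 * 3 ^ m) c := by
    ext x
    rw [mem_cls, mem_ap, ← hc x]
    simp only [Set.mem_univ, true_and]
  rw [heq]
  have h2 := le_ap_card a b (q := 2 * 3 ^ m) (by positivity) c
  push_cast at h2
  linarith

theorem cls_compl (S : Set ℤ) (a b : ℝ) (m : ℕ) (u v : ℤ) :
    ((cls S a b m u v).card : ℝ) + (cls Sᶜ a b m u v).card = (cls Set.univ a b m u v).card := by
  classical
  have hdisj : Disjoint (cls S a b m u v) (cls Sᶜ a b m u v) := by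
    rw [Finset.disjoint_left]
    intro x hx hx'
    rw [mem_cls] at hx hx'
    exact hx'.2.2.1 hx.2.2.1
  have hun : cls S a b m u v ∪ cls Sᶜ a b m u v = cls Set.univ a b m u v := by
    ext x
    rw [mem_union, mem_cls, mem_cls, mem_cls]
    constructor
    · rintro (h | h)
      · exact ⟨h.1, h.2.1, Set.mem_univ _, h.2.2.2⟩
      · exact ⟨h.1, h.2.1, Set.mem_univ _, h.2.2.2⟩
    · rintro ⟨h1, h2, _, h4⟩
      by_cases hS : x ∈ S
      · exact Or.inl ⟨h1, h2, hS, h4⟩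
      · exact Or.inr ⟨h1, h2, hS, h4⟩
  rw [← hun, card_union_of_disjoint hdisj]
  push_cast; ring

/-- the common value predicted by the one-stage inequality -/
noncomputable def Mn (d : ℤ) (S : Set ℤ) (A : ℝ) (k m m' : ℕ) : ℝ :=
  (∑ w ∈ GW (3 * k) k ((39 * k + 19) / 20) (41 * k / 20),
    ((cls S (A * 3 ^ k / 2 ^ w.sum) (2 * (A * 3 ^ k / 2 ^ w.sum)) m' (2 ^ w.sum) (d * Wo w)).card : ℝ))
      / 3 ^ (k + m - m')

theorem star' {d : ℤ} (hd : Odd d) (hd3 : IsCoprime d 3) {S : Set ℤ} (hS : Fwd d S) {A : ℝ}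
    (hA : 0 < A) {k m m' : ℕ} (hk : 1 ≤ k) (hm' : m' ≤ k) (c : ℤ) :
    ((cls S A (2 * A) m 1 c).card : ℝ) ≤ Mn d S A k m m' + Err d A k m m' * (A / (2 * 3 ^ m)) := by
  have hTm : 41 * k / 20 ≤ k * (3 * k) := by nlinarith [Nat.div_mul_le_self (41 * k) 20]
  have h1 := star hd hd3 hS hA.le (3 * k) k m m' ((39 * k + 19) / 20) (41 * k / 20) hk hm' hTm c
  refine h1.trans (le_of_eq ?_)
  unfold Mn Err
  set G := GW (3 * k) k ((39 * k + 19) / 20) (41 * k / 20) with hG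
  set δ := ∑ T ∈ range (k * (3 * k) + 1), dev (FWT (3 * k) k T) wwt (fun w => (Wo w : ℤ)) (k + m) m'
  set X := (2 : ℝ) ^ (41 * k / 20)
  set Y := A / (2 * 3 ^ m) with hY
  set Z := 2 * 3 ^ m / A with hZ
  set μ := ∑ w ∈ G, wwt w
  have hfac : Y * Z = 1 := by rw [hY, hZ]; field_simp
  have : ((1 + X * Z) * δ + (1 - μ) + (1 + (|(d : ℝ)| + 2) * X) * Z) * Y
      = (Y + X * (Y * Z)) * δ + Y * (1 - μ) + (1 + (|(d : ℝ)| + 2) * X) * (Y * Z) := by ring
  rw [this, hfac]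
  ring

theorem Mn_add (d : ℤ) (S : Set ℤ) {A : ℝ} (hA : 0 < A) {k m m' : ℕ} (hm' : m' ≤ k) :
    Mn d S A k m m' + Mn d Sᶜ A k m m' ≤ A / (2 * 3 ^ m) + 2 ^ (41 * k / 20) := by
  unfold Mn
  rw [← add_div, ← sum_add_distrib]
  have h1 : ∀ w ∈ GW (3 * k) k ((39 * k + 19) / 20) (41 * k / 20),
      (((cls S (A * 3 ^ k / 2 ^ w.sum) (2 * (A * 3 ^ k / 2 ^ w.sum)) m' (2 ^ w.sum) (d * Wo w)).card : ℝ)
        + ((cls Sᶜ (A * 3 ^ k / 2 ^ w.sum) (2 * (A * 3 ^ k / 2 ^ w.sum)) m' (2 ^ w.sum) (d * Wo w)).card : ℝ))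
      ≤ A * 3 ^ k / (2 * 3 ^ m') * wwt w + 1 := by
    intro w _
    rw [cls_compl]
    have := cls_card_le Set.univ (a := A * 3 ^ k / 2 ^ w.sum) (b := 2 * (A * 3 ^ k / 2 ^ w.sum))
      (by have : 0 < A * 3 ^ k / 2 ^ w.sum := by positivity
          linarith) m' (cop_two_pow w.sum) (d * Wo w)
    refine this.trans (le_of_eq ?_)
    unfold wwt
    rw [one_div, inv_pow]
    field_simp
    ring
  rw [div_le_iff₀ (by positivity)]
  refine (sum_le_sum h1).trans ?_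
  rw [sum_add_distrib, ← mul_sum, sum_const, nsmul_eq_mul, mul_one]
  have hmass1 : ∑ w ∈ GW (3 * k) k ((39 * k + 19) / 20) (41 * k / 20), wwt w ≤ 1 := by
    refine le_trans ?_ (sum_wwt_le (3 * k) k)
    unfold GW
    apply sum_le_sum_of_subset_of_nonneg (filter_subset _ _)
    intro w _ _; unfold wwt; positivity
  have hcard := GW_card (3 * k) k ((39 * k + 19) / 20) (41 * k / 20)
  have h6 : (3 : ℝ) ^ (k + m - m') * 3 ^ m' = 3 ^ k * 3 ^ m := by
    rw [← pow_add, ← pow_add]; congr 1; omega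
  have h7 : A / (2 * 3 ^ m) * 3 ^ (k + m - m') = A * 3 ^ k / (2 * 3 ^ m') := by
    have h7 : (3 : ℝ) ^ k = 3 ^ (k + m - m') * 3 ^ m' / 3 ^ m := by
      rw [h6]; field_simp
    rw [h7]
    field_simp
  have h8 : (1 : ℝ) ≤ 3 ^ (k + m - m') := one_le_pow₀ (by norm_num)
  rw [add_mul, h7]
  have h9 : A * 3 ^ k / (2 * 3 ^ m') * ∑ w ∈ GW (3 * k) k ((39 * k + 19) / 20) (41 * k / 20), wwt w
      ≤ A * 3 ^ k / (2 * 3 ^ m') := by
    have : A * 3 ^ k / (2 * 3 ^ m') * ∑ w ∈ GW (3 * k) k ((39 * k + 19) / 20) (41 * k / 20), wwt w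
      ≤ A * 3 ^ k / (2 * 3 ^ m') * 1 := mul_le_mul_of_nonneg_left hmass1 (by positivity)
    linarith
  have h10 : (2 : ℝ) ^ (41 * k / 20) ≤ 2 ^ (41 * k / 20) * 3 ^ (k + m - m') := by
    have : (0 : ℝ) < 2 ^ (41 * k / 20) := by positivity
    nlinarith
  linarith

/-- EQUIDISTRIBUTION of an invariant set in the classes mod `3^m` of odd integers of a window -/
theorem equi_odd (B : ℕ) {d : ℤ} (hd : Odd d) (hd3 : IsCoprime d 3) : ∃ C : ℝ, 0 < C ∧
    ∀ S : Set ℤ, Fwd d S → Fwd d Sᶜ → ∀ A : ℝ, 0 < A → 1000 ≤ Real.log A → ∀ m : ℕ,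
      (m : ℝ) ^ 2 ≤ Real.log A → ∀ c c' : ℤ,
      ((cls S A (2 * A) m 1 c).card : ℝ)
        ≤ (cls S A (2 * A) m 1 c').card + C / (Real.log A) ^ B * (A / (2 * 3 ^ m)) := by
  obtain ⟨C, hC, herr⟩ := err_bound B d
  refine ⟨3 * C, by positivity, ?_⟩
  intro S hS hSc A hA ht m hm c c'
  set t := Real.log A with htdef
  obtain ⟨k, hk⟩ : ∃ k : ℕ, k = ⌊t / 2⌋₊ := ⟨_, rfl⟩
  obtain ⟨m', hm'⟩ : ∃ m' : ℕ, m' = ⌊Real.sqrt (0.8 * t)⌋₊ := ⟨_, rfl⟩
  have hk2 : t / 2 - 1 ≤ k := by rw [hk]; linarith [Nat.lt_floor_add_one (t / 2)]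
  have hk1N : 1 ≤ k := by
    have : (1 : ℝ) ≤ k := by linarith
    exact_mod_cast this
  have hm'sq : (m' : ℝ) ^ 2 ≤ 0.8 * t := by
    have h1 : (m' : ℝ) ≤ Real.sqrt (0.8 * t) := by
      rw [hm']; exact Nat.floor_le (Real.sqrt_nonneg _)
    calc (m' : ℝ) ^ 2 ≤ (Real.sqrt (0.8 * t)) ^ 2 :=
          pow_le_pow_left₀ (Nat.cast_nonneg _) h1 2
      _ = 0.8 * t := Real.sq_sqrt (by linarith)
  have hm'k : m' ≤ k := by
    have : (m' : ℝ) ≤ k := by
      have h0 : (0 : ℝ) ≤ m' := Nat.cast_nonneg _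
      by_contra hcon
      push Not at hcon
      nlinarith
    exact_mod_cast this
  have hE := herr A hA ht k m m' hm hk hm'
  rw [← htdef] at hE
  have hY : 0 < A / (2 * 3 ^ m) := by positivity
  have h1 := star' hd hd3 hS hA hk1N hm'k (m := m) c
  have h2 := star' hd hd3 hSc hA hk1N hm'k (m := m) c'
  have h3 := Mn_add d S hA (m := m) hm'k
  have h4 := cls_compl S A (2 * A) m 1 c'
  have h5 := le_cls_univ A (2 * A) m isCoprime_one_left c'
  rw [show 2 * A - A = A by ring] at h5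
  -- `1 + 2^Tm ≤ Err * Y`
  have h6 : 1 + 2 ^ (41 * k / 20) ≤ Err d A k m m' * (A / (2 * 3 ^ m)) := by
    unfold Err
    set G := GW (3 * k) k ((39 * k + 19) / 20) (41 * k / 20) with hG
    set δ := ∑ T ∈ range (k * (3 * k) + 1), dev (FWT (3 * k) k T) wwt (fun w => (Wo w : ℤ)) (k + m) m'
      with hδ
    set X := (2 : ℝ) ^ (41 * k / 20)
    set Y := A / (2 * 3 ^ m) with hYdef
    set Z := 2 * 3 ^ m / A with hZ
    set μ := ∑ w ∈ G, wwt w with hμ
    have hfac : Y * Z = 1 := by rw [hYdef, hZ]; field_simp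
    have : ((1 + X * Z) * δ + (1 - μ) + (1 + (|(d : ℝ)| + 2) * X) * Z) * Y
        = (Y + X * (Y * Z)) * δ + Y * (1 - μ) + (1 + (|(d : ℝ)| + 2) * X) * (Y * Z) := by ring
    rw [this, hfac]
    have hX : 0 < X := by positivity
    have hδnn : 0 ≤ δ := sum_nonneg fun _ _ => sum_nonneg fun _ _ => abs_nonneg _
    have hμ1 : μ ≤ 1 := by
      refine le_trans ?_ (sum_wwt_le (3 * k) k)
      rw [hμ, hG]; unfold GW
      apply sum_le_sum_of_subset_of_nonneg (filter_subset _ _)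
      intro w _ _; unfold wwt; positivity
    have e1 : 0 ≤ (Y + X * 1) * δ := by positivity
    have e2 : 0 ≤ Y * (1 - μ) := mul_nonneg hY.le (by linarith)
    have e3 : 0 ≤ |(d : ℝ)| * X := by positivity
    nlinarith
  have h7 : Err d A k m m' * (A / (2 * 3 ^ m)) ≤ C / t ^ B * (A / (2 * 3 ^ m)) :=
    mul_le_mul_of_nonneg_right hE hY.le
  have h8 : 3 * C / t ^ B * (A / (2 * 3 ^ m)) = 3 * (C / t ^ B * (A / (2 * 3 ^ m))) := by ring
  rw [h8]
  linarith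

end Pool.Agent.H499R2.ND
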