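import Pool.Agent.H499R2.NDEqui

/-! Natural density: approximate harmonicity of the window densities of an invariant set. -/

set_option autoImplicit false

namespace Pool.Agent.H499R2.ND

open Pool.Agent.H320R2.PD Finset

/-- invariant sets of integers -/
def Inv (d : ℤ) (S : Set ℤ) : Prop := ∀ x : ℤ, x ∈ S ↔ Td d x ∈ S

theorem Inv.compl {d : ℤ} {S : Set ℤ} (h : Inv d S) : Inv d Sᶜ := fun x => not_congr (h x)

theorem Inv.two {d : ℤ} {S : Set ℤ} (h : Inv d S) (x : ℤ) : 2 * x ∈ S ↔ x ∈ S := by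
  rw [h (2 * x)]
  have : Td d (2 * x) = x := by unfold Td; rw [if_pos (by omega)]; omega
  rw [this]

theorem Inv.two_pow {d : ℤ} {S : Set ℤ} (h : Inv d S) (e : ℕ) (x : ℤ) : 2 ^ e * x ∈ S ↔ x ∈ S := by
  induction e with
  | zero => simp
  | succ e ih => rw [pow_succ, mul_comm (2 ^ e) 2, mul_assoc, h.two, ih]

theorem Inv.odd {d : ℤ} {S : Set ℤ} (h : Inv d S) {n n' : ℤ} (hn : Odd n)
    (hnn : 2 * n' = 3 * n + d) : n ∈ S ↔ n' ∈ S := by
  rw [h n]
  have : Td d n = n' := by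
    unfold Td
    rw [if_neg (by obtain ⟨t, ht⟩ := hn; omega), ← hnn]
    omega
  rw [this]

theorem Inv.fwd {d : ℤ} {S : Set ℤ} (h : Inv d S) : Fwd d S := by
  intro M x e he hM _ hMS heq
  obtain ⟨e', rfl⟩ : ∃ e', e = e' + 1 := ⟨e - 1, by omega⟩
  have h1 : M ∈ S ↔ 2 ^ e' * x ∈ S := h.odd hM (by rw [heq, pow_succ]; ring)
  rw [h.two_pow] at h1
  exact h1.1 hMS

open scoped Classical in
/-- elements of `S` in `[a,b)` congruent to `c` mod `q` -/
noncomputable def wc (S : Set ℤ) (a b : ℝ) (q c : ℤ) : Finset ℤ :=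
  (Ico ⌈a⌉ ⌈b⌉).filter fun x => x ∈ S ∧ q ∣ x - c

theorem mem_wc {S : Set ℤ} {a b : ℝ} {q c x : ℤ} :
    x ∈ wc S a b q c ↔ (a ≤ x ∧ (x : ℝ) < b) ∧ x ∈ S ∧ q ∣ x - c := by
  classical
  unfold wc; rw [mem_filter, mem_win]

theorem wc_card_le (S : Set ℤ) {a b : ℝ} (hab : a ≤ b) {q : ℤ} (hq : 0 < q) (c : ℤ) :
    ((wc S a b q c).card : ℝ) ≤ (b - a) / q + 1 := by
  have hsub : wc S a b q c ⊆ ap a b q c := by
    intro x hx
    rw [mem_wc] at hx
    rw [mem_ap]
    exact ⟨hx.1, hx.2.2⟩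
  have h1 : ((wc S a b q c).card : ℝ) ≤ (ap a b q c).card := by exact_mod_cast card_le_card hsub
  exact h1.trans (ap_card_le hab hq c)

theorem wc_one_card_le (S : Set ℤ) {a b : ℝ} (hab : a ≤ b) (c : ℤ) :
    ((wc S a b 1 c).card : ℝ) ≤ (b - a) + 1 := by
  have := wc_card_le S hab (q := 1) one_pos c
  simpa using this

theorem wc_q_le_one (S : Set ℤ) (a b : ℝ) (q c : ℤ) : (wc S a b q c).card ≤ (wc S a b 1 0).card := by
  apply card_le_card
  intro x hx
  rw [mem_wc] at hx ⊢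
  exact ⟨hx.1, hx.2.1, one_dvd _⟩

/-- parity decomposition -/
theorem wc_parity {d : ℤ} {S : Set ℤ} (h : Inv d S) (A : ℝ) (c : ℤ) :
    (wc S A (2 * A) 3 c).card = (cls S A (2 * A) 1 1 c).card + (wc S (A / 2) (2 * (A / 2)) 3 (2 * c)).card := by
  classical
  have hev : (wc S (A / 2) (2 * (A / 2)) 3 (2 * c)).card
      = ((wc S (A / 2) (2 * (A / 2)) 3 (2 * c)).image fun x => 2 * x).card := by
    rw [card_image_of_injective]
    intro x y hxy
    simp only at hxy
    omega
  rw [hev, ← card_union_of_disjoint]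
  · congr 1
    ext x
    rw [mem_wc, mem_union, mem_cls, mem_image]
    constructor
    · rintro ⟨h1, h2, h3⟩
      rcases Int.even_or_odd x with he | ho
      · right
        obtain ⟨y, hy⟩ := he
        refine ⟨y, ?_, by omega⟩
        rw [mem_wc]
        have hxy : (x : ℝ) = 2 * y := by rw [hy]; push_cast; ring
        refine ⟨⟨by linarith [h1.1], by linarith [h1.2]⟩, ?_, by omega⟩
        rw [← h.two, show 2 * y = x by omega]; exact h2
      · left
        exact ⟨h1, ho, h2, by rw [pow_one, one_mul]; exact h3⟩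
    · rintro (⟨h1, h2, h3, h4⟩ | ⟨y, hy, rfl⟩)
      · rw [pow_one, one_mul] at h4; exact ⟨h1, h3, h4⟩
      · rw [mem_wc] at hy
        obtain ⟨h1, h2, h3⟩ := hy
        push_cast
        refine ⟨⟨by linarith [h1.1], by linarith [h1.2]⟩, (h.two y).2 h2, by omega⟩
  · rw [Finset.disjoint_left]
    intro x hx hx'
    rw [mem_cls] at hx
    rw [mem_image] at hx'
    obtain ⟨y, _, rfl⟩ := hx'
    have := hx.2.1
    rw [Int.odd_iff] at this
    omega

/-- parity decomposition, all classes -/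
theorem wc_parity_one {d : ℤ} {S : Set ℤ} (h : Inv d S) (A : ℝ) :
    (wc S A (2 * A) 1 0).card = (cls S A (2 * A) 0 1 0).card + (wc S (A / 2) (2 * (A / 2)) 1 0).card := by
  classical
  have hev : (wc S (A / 2) (2 * (A / 2)) 1 0).card
      = ((wc S (A / 2) (2 * (A / 2)) 1 0).image fun x => 2 * x).card := by
    rw [card_image_of_injective]
    intro x y hxy
    simp only at hxy
    omega
  rw [hev, ← card_union_of_disjoint]
  · congr 1
    ext x
    rw [mem_wc, mem_union, mem_cls, mem_image]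
    constructor
    · rintro ⟨h1, h2, h3⟩
      rcases Int.even_or_odd x with he | ho
      · right
        obtain ⟨y, hy⟩ := he
        refine ⟨y, ?_, by omega⟩
        rw [mem_wc]
        have hxy : (x : ℝ) = 2 * y := by rw [hy]; push_cast; ring
        refine ⟨⟨by linarith [h1.1], by linarith [h1.2]⟩, ?_, one_dvd _⟩
        rw [← h.two, show 2 * y = x by omega]; exact h2
      · left
        exact ⟨h1, ho, h2, by simp⟩
    · rintro (⟨h1, h2, h3, h4⟩ | ⟨y, hy, rfl⟩)
      · exact ⟨h1, h3, one_dvd _⟩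
      · rw [mem_wc] at hy
        obtain ⟨h1, h2, h3⟩ := hy
        push_cast
        refine ⟨⟨by linarith [h1.1], by linarith [h1.2]⟩, (h.two y).2 h2, one_dvd _⟩
  · rw [Finset.disjoint_left]
    intro x hx hx'
    rw [mem_cls] at hx
    rw [mem_image] at hx'
    obtain ⟨y, _, rfl⟩ := hx'
    have := hx.2.1
    rw [Int.odd_iff] at this
    omega

theorem wc_three (S : Set ℤ) (a b : ℝ) :
    (wc S a b 1 0).card = (wc S a b 3 0).card + (wc S a b 3 1).card + (wc S a b 3 2).card := by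
  classical
  have h01 : Disjoint (wc S a b 3 0) (wc S a b 3 1) := by
    rw [Finset.disjoint_left]; intro x hx hx'
    rw [mem_wc] at hx hx'; omega
  have h012 : Disjoint (wc S a b 3 0 ∪ wc S a b 3 1) (wc S a b 3 2) := by
    rw [Finset.disjoint_left]; intro x hx hx'
    rw [mem_union, mem_wc, mem_wc] at hx; rw [mem_wc] at hx'
    rcases hx with hx | hx
    · omega
    · omega
  rw [← card_union_of_disjoint h01, ← card_union_of_disjoint h012]
  congr 1
  ext x
  rw [mem_union, mem_union, mem_wc, mem_wc, mem_wc, mem_wc]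
  constructor
  · rintro ⟨h1, h2, _⟩
    rcases (by omega : x % 3 = 0 ∨ x % 3 = 1 ∨ x % 3 = 2) with h | h | h
    · exact Or.inl (Or.inl ⟨h1, h2, by omega⟩)
    · exact Or.inl (Or.inr ⟨h1, h2, by omega⟩)
    · exact Or.inr ⟨h1, h2, by omega⟩
  · rintro ((⟨h1, h2, _⟩ | ⟨h1, h2, _⟩) | ⟨h1, h2, _⟩) <;> exact ⟨h1, h2, one_dvd _⟩

theorem wc_shift_le (S : Set ℤ) (L s : ℝ) (q c : ℤ) :
    ((wc S (L + s) (2 * L + s) q c).card : ℝ) ≤ (wc S L (2 * L) q c).card + (|s| + 1) := by
  classical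
  rcases le_or_gt 0 s with h | h
  · have hsub : wc S (L + s) (2 * L + s) q c
        ⊆ wc S L (2 * L) q c ∪ wc S (2 * L) (2 * L + s) 1 0 := by
      intro x hx
      rw [mem_wc] at hx
      rw [mem_union, mem_wc, mem_wc]
      rcases lt_or_ge (x : ℝ) (2 * L) with h1 | h1
      · exact Or.inl ⟨⟨by linarith [hx.1.1], h1⟩, hx.2⟩
      · exact Or.inr ⟨⟨h1, hx.1.2⟩, hx.2.1, one_dvd _⟩
    have h1 : ((wc S (L + s) (2 * L + s) q c).card : ℝ)
        ≤ (wc S L (2 * L) q c).card + (wc S (2 * L) (2 * L + s) 1 0).card := by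
      exact_mod_cast (card_le_card hsub).trans (card_union_le _ _)
    have h2 := wc_one_card_le S (by linarith : 2 * L ≤ 2 * L + s) 0
    have := le_abs_self s
    linarith
  · have hsub : wc S (L + s) (2 * L + s) q c
        ⊆ wc S L (2 * L) q c ∪ wc S (L + s) L 1 0 := by
      intro x hx
      rw [mem_wc] at hx
      rw [mem_union, mem_wc, mem_wc]
      rcases lt_or_ge (x : ℝ) L with h1 | h1
      · exact Or.inr ⟨⟨hx.1.1, h1⟩, hx.2.1, one_dvd _⟩
      · exact Or.inl ⟨⟨h1, by linarith [hx.1.2]⟩, hx.2⟩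
    have h1 : ((wc S (L + s) (2 * L + s) q c).card : ℝ)
        ≤ (wc S L (2 * L) q c).card + (wc S (L + s) L 1 0).card := by
      exact_mod_cast (card_le_card hsub).trans (card_union_le _ _)
    have h2 := wc_one_card_le S (by linarith : L + s ≤ L) 0
    have := neg_le_abs s
    linarith

theorem wc_shift_ge (S : Set ℤ) (L s : ℝ) (q c : ℤ) :
    ((wc S L (2 * L) q c).card : ℝ) ≤ (wc S (L + s) (2 * L + s) q c).card + (|s| + 1) := by
  classical
  rcases le_or_gt 0 s with h | h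
  · have hsub : wc S L (2 * L) q c
        ⊆ wc S (L + s) (2 * L + s) q c ∪ wc S L (L + s) 1 0 := by
      intro x hx
      rw [mem_wc] at hx
      rw [mem_union, mem_wc, mem_wc]
      rcases lt_or_ge (x : ℝ) (L + s) with h1 | h1
      · exact Or.inr ⟨⟨hx.1.1, h1⟩, hx.2.1, one_dvd _⟩
      · exact Or.inl ⟨⟨h1, by linarith [hx.1.2]⟩, hx.2⟩
    have h1 : ((wc S L (2 * L) q c).card : ℝ)
        ≤ (wc S (L + s) (2 * L + s) q c).card + (wc S L (L + s) 1 0).card := by
      exact_mod_cast (card_le_card hsub).trans (card_union_le _ _)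
    have h2 := wc_one_card_le S (by linarith : L ≤ L + s) 0
    have := le_abs_self s
    linarith
  · have hsub : wc S L (2 * L) q c
        ⊆ wc S (L + s) (2 * L + s) q c ∪ wc S (2 * L + s) (2 * L) 1 0 := by
      intro x hx
      rw [mem_wc] at hx
      rw [mem_union, mem_wc, mem_wc]
      rcases lt_or_ge (x : ℝ) (2 * L + s) with h1 | h1
      · exact Or.inl ⟨⟨by linarith [hx.1.1], h1⟩, hx.2⟩
      · exact Or.inr ⟨⟨h1, hx.1.2⟩, hx.2.1, one_dvd _⟩
    have h1 : ((wc S L (2 * L) q c).card : ℝ)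
        ≤ (wc S (L + s) (2 * L + s) q c).card + (wc S (2 * L + s) (2 * L) 1 0).card := by
      exact_mod_cast (card_le_card hsub).trans (card_union_le _ _)
    have h2 := wc_one_card_le S (by linarith : 2 * L + s ≤ 2 * L) 0
    have := neg_le_abs s
    linarith

/-- the odd elements of a window and their images -/
theorem cls_odd_image {d : ℤ} (hd : Odd d) {S : Set ℤ} (h : Inv d S) (A : ℝ) :
    (cls S A (2 * A) 0 1 0).card
      = (wc S (3 * A / 2 + d / 2) (2 * (3 * A / 2) + d / 2) 3 (2 * d)).card := by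
  classical
  apply card_bij (fun n _ => (3 * n + d) / 2)
  · intro n hn
    rw [mem_cls] at hn
    obtain ⟨h1, h2, h3, _⟩ := hn
    have hev : 2 * ((3 * n + d) / 2) = 3 * n + d := by
      obtain ⟨t, ht⟩ := h2; obtain ⟨s, hs⟩ := hd; omega
    have hR : (2 : ℝ) * (((3 * n + d) / 2 : ℤ) : ℝ) = 3 * n + d := by exact_mod_cast hev
    rw [mem_wc]
    refine ⟨⟨by linarith [h1.1], by linarith [h1.2]⟩, (h.odd h2 hev).1 h3, ?_⟩
    exact ⟨2 * n - ((3 * n + d) / 2), by omega⟩
  · intro n hn n' hn' heq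
    rw [mem_cls] at hn hn'
    have hev : 2 * ((3 * n + d) / 2) = 3 * n + d := by
      obtain ⟨t, ht⟩ := hn.2.1; obtain ⟨s, hs⟩ := hd; omega
    have hev' : 2 * ((3 * n' + d) / 2) = 3 * n' + d := by
      obtain ⟨t, ht⟩ := hn'.2.1; obtain ⟨s, hs⟩ := hd; omega
    omega
  · intro x hx
    rw [mem_wc] at hx
    obtain ⟨h1, h2, t, ht⟩ := hx
    have hn : 2 * x = 3 * (2 * t + d) + d := by omega
    have hodd : Odd (2 * t + d) := (even_two_mul t).add_odd hd
    have hR : (2 : ℝ) * x = 3 * ((2 * t + d : ℤ) : ℝ) + d := by exact_mod_cast hn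
    refine ⟨2 * t + d, ?_, ?_⟩
    · rw [mem_cls]
      refine ⟨⟨by linarith [h1.1], by linarith [h1.2]⟩, hodd, (h.odd hodd hn).2 h2, by simp⟩
    · omega

end Pool.Agent.H499R2.ND
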