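import Pool.Agent.H499R2.NDLimit

/-! Natural density: the densities of the classes sum to one. -/

set_option autoImplicit false

namespace Pool.Agent.H499R2.ND

open Pool.Agent.H320R2.PD Finset Filter Topology

theorem Td_neg (d : ℤ) (x : ℤ) (hd : Odd d) : Td (-d) x = -Td d (-x) := by
  unfold Td
  obtain ⟨t, ht⟩ := hd
  by_cases h : x % 2 = 0
  · rw [if_pos h, if_pos (by omega)]; omega
  · rw [if_neg h, if_neg (by omega)]; omega

theorem Inv.neg {d : ℤ} (hd : Odd d) {S : Set ℤ} (h : Inv d S) : Inv (-d) {x | -x ∈ S} := by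
  intro x
  change -x ∈ S ↔ -Td (-d) x ∈ S
  rw [h (-x), Td_neg d x hd, neg_neg]

theorem isCoprime_neg_three {d : ℤ} (h : IsCoprime d 3) : IsCoprime (-d) 3 := h.neg_left

/-- orbits staying outside `[-y,y]` -/
def Stay (d : ℤ) (y : ℝ) : Set ℤ := {x : ℤ | ∀ k : ℕ, y < |(((Td d)^[k] x : ℤ) : ℝ)|}

theorem Td_two (d x : ℤ) : Td d (2 * x) = x := by unfold Td; rw [if_pos (by omega)]; omega

theorem Td_two_pow (d : ℤ) (e : ℕ) (x : ℤ) : (Td d)^[e] (2 ^ e * x) = x := by
  induction e with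
  | zero => simp
  | succ e ih =>
    rw [Function.iterate_succ_apply, show (2 : ℤ) ^ (e + 1) * x = 2 * (2 ^ e * x) by ring, Td_two, ih]

theorem Td_odd {d : ℤ} {n n' : ℤ} (hn : Odd n) (hnn : 2 * n' = 3 * n + d) : Td d n = n' := by
  unfold Td
  rw [if_neg (by obtain ⟨t, ht⟩ := hn; omega), ← hnn]
  omega

theorem Stay_fwd (d : ℤ) (y : ℝ) : Fwd d (Stay d y) := by
  intro M x e he hM _ hMS heq k
  obtain ⟨e', rfl⟩ : ∃ e', e = e' + 1 := ⟨e - 1, by omega⟩
  have h1 : Td d M = 2 ^ e' * x := Td_odd hM (by rw [heq, pow_succ]; ring)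
  have h2 : (Td d)^[e' + 1] M = x := by rw [Function.iterate_succ_apply, h1, Td_two_pow]
  have := hMS (k + (e' + 1))
  rwa [Function.iterate_add_apply, h2] at this

theorem Stay_two (d : ℤ) (y : ℝ) (x : ℤ) (h : 2 * x ∈ Stay d y) : x ∈ Stay d y := by
  intro k
  have := h (k + 1)
  rwa [Function.iterate_succ_apply, Td_two] at this

theorem Stay_low (d : ℤ) (y : ℝ) (x : ℤ) (h : x ∈ Stay d y) (h0 : 0 < x) : y < (x : ℝ) := by
  have := h 0
  rw [Function.iterate_zero, id] at this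
  have hx : (0 : ℝ) < x := by exact_mod_cast h0
  rwa [abs_of_pos hx] at this

theorem Stay_neg (d : ℤ) (hd : Odd d) (y : ℝ) : {x : ℤ | -x ∈ Stay d y} = Stay (-d) y := by
  ext x
  have key : ∀ k : ℕ, ∀ z : ℤ, (Td (-d))^[k] z = -(Td d)^[k] (-z) := by
    intro k
    induction k with
    | zero => intro z; simp
    | succ k ih =>
      intro z
      rw [Function.iterate_succ_apply, Function.iterate_succ_apply, ih, Td_neg d z hd, neg_neg]
  constructor
  · intro h k
    rw [key, Int.cast_neg, abs_neg]; exact h k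
  · intro h k
    have := h k
    rwa [key, Int.cast_neg, abs_neg] at this

/-- (A) for `3x+d`, positive side -/
theorem stay_count (B : ℕ) {d : ℤ} (hd : Odd d) (hd3 : IsCoprime d 3) :
    ∃ K : ℝ, 0 < K ∧ ∀ y : ℝ, 2 ≤ y → ∀ X : ℝ, 0 ≤ X → G (Stay d y) X ≤ K * X / (Real.log y) ^ B := by
  obtain ⟨K, hK, h⟩ := main_pos B hd hd3
  exact ⟨K, hK, fun y hy X hX => h y hy (Stay d y) (Stay_fwd d y) (Stay_two d y)
    (fun x hx h0 => Stay_low d y x hx h0) X hX⟩

theorem G_sum_le {ι : Type*} (A : Finset ι) (K : ι → Set ℤ)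
    (hdisj : ∀ a ∈ A, ∀ b ∈ A, a ≠ b → Disjoint (K a) (K b)) {X : ℝ} (hX : 0 ≤ X) :
    ∑ a ∈ A, G (K a) X ≤ X := by
  classical
  unfold G
  have h1 : (A.biUnion fun a => pos (K a) X).card = ∑ a ∈ A, (pos (K a) X).card := by
    apply card_biUnion
    intro a ha b hb hab
    rw [Function.onFun, Finset.disjoint_left]
    intro x hx hx'
    rw [mem_pos] at hx hx'
    exact Set.disjoint_left.1 (hdisj a ha b hb hab) hx.2 hx'.2
  have h2 : (A.biUnion fun a => pos (K a) X) ⊆ pos Set.univ X := by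
    intro x hx
    rw [mem_biUnion] at hx
    obtain ⟨a, _, hx⟩ := hx
    rw [mem_pos] at hx ⊢
    exact ⟨hx.1, Set.mem_univ _⟩
  have h3 := card_le_card h2
  rw [h1] at h3
  have h4 := pos_card_le Set.univ hX
  have h5 : (∑ a ∈ A, ((pos (K a) X).card : ℝ)) ≤ (pos Set.univ X).card := by exact_mod_cast h3
  linarith

theorem G_univ_ge {X : ℝ} : X - 1 ≤ G Set.univ X := by
  unfold G
  have h : pos Set.univ X = Ico 1 ⌈X⌉ := by
    ext x; rw [mem_pos, mem_Ico, Int.lt_ceil]; simp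
  rw [h, Int.card_Ico]
  have h1 : ((⌈X⌉ - 1 : ℤ) : ℝ) ≤ (((⌈X⌉ - 1).toNat : ℕ) : ℝ) := by exact_mod_cast Int.self_le_toNat _
  push_cast at h1
  linarith [Int.le_ceil X]

theorem G_cover {ι : Type*} (A : Finset ι) (K : ι → Set ℤ) (U : Set ℤ)
    (hcov : ∀ n : ℤ, 0 < n → (∀ a ∈ A, n ∉ K a) → n ∈ U) (X : ℝ) :
    X - 1 ≤ ∑ a ∈ A, G (K a) X + G U X := by
  classical
  refine G_univ_ge.trans ?_
  unfold G
  have h1 : pos Set.univ X ⊆ (A.biUnion fun a => pos (K a) X) ∪ pos U X := by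
    intro x hx
    rw [mem_pos] at hx
    rw [mem_union, mem_biUnion]
    by_cases h : ∃ a ∈ A, x ∈ K a
    · obtain ⟨a, ha, hxa⟩ := h
      exact Or.inl ⟨a, ha, mem_pos.2 ⟨hx.1, hxa⟩⟩
    · push Not at h
      exact Or.inr (mem_pos.2 ⟨hx.1, hcov x (by omega) h⟩)
  have h2 := (card_le_card h1).trans (card_union_le _ _)
  have h3 : (A.biUnion fun a => pos (K a) X).card ≤ ∑ a ∈ A, (pos (K a) X).card := card_biUnion_le
  exact_mod_cast h2.trans (Nat.add_le_add_right h3 _)

/-- THE DENSITIES SUM TO ONE (abstract form) -/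
theorem sum_one {d : ℤ} (hd : Odd d) (hd3 : IsCoprime d 3) {ι : Type*} (K : ι → Set ℤ)
    (δ : ι → ℝ) (hδ : ∀ a, Tendsto (fun X : ℝ => G (K a) X / X) atTop (𝓝 (δ a)))
    (hdisj : ∀ a b, a ≠ b → Disjoint (K a) (K b))
    (hcov : ∀ y : ℝ, ∃ A : Finset ι, ∀ n : ℤ, 0 < n → (∀ a ∈ A, n ∉ K a) → n ∈ Stay d y) :
    HasSum δ 1 := by
  have hδ0 : ∀ a, 0 ≤ δ a := fun a => by
    apply ge_of_tendsto (hδ a)
    filter_upwards [eventually_gt_atTop (0 : ℝ)] with X hX
    exact div_nonneg (G_nonneg _ _) hX.le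
  have htend : ∀ A : Finset ι, Tendsto (fun X : ℝ => (∑ a ∈ A, G (K a) X) / X) atTop (𝓝 (∑ a ∈ A, δ a)) := by
    intro A
    have := tendsto_finsetSum A (fun a _ => hδ a)
    refine this.congr fun X => ?_
    rw [sum_div]
  apply hasSum_of_isLUB_of_nonneg
  · exact hδ0
  · constructor
    · rintro _ ⟨A, rfl⟩
      apply le_of_tendsto (htend A)
      filter_upwards [eventually_gt_atTop (0 : ℝ)] with X hX
      rw [div_le_one hX]
      exact G_sum_le A K (fun a _ b _ hab => hdisj a b hab) hX.le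
    · intro b hb
      apply le_of_forall_pos_le_add
      intro ε hε
      obtain ⟨C, hC, hst⟩ := stay_count 1 hd hd3
      -- choose y with C / log y ≤ ε
      obtain ⟨y, hy2, hyε⟩ : ∃ y : ℝ, 2 ≤ y ∧ C / Real.log y ≤ ε := by
        refine ⟨Real.exp (C / ε + 1), ?_, ?_⟩
        · have := Real.add_one_le_exp (C / ε + 1)
          have : 0 < C / ε := by positivity
          linarith
        · rw [Real.log_exp, div_le_iff₀ (by positivity)]
          have : ε * (C / ε + 1) = C + ε := by field_simp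
          rw [this]; linarith
      obtain ⟨A, hA⟩ := hcov y
      have h1 : ∀ X : ℝ, 1 ≤ X → 1 - 1 / X - ε ≤ (∑ a ∈ A, G (K a) X) / X := by
        intro X hX
        have hXpos : 0 < X := by linarith
        have h2 := G_cover A K (Stay d y) hA X
        have h3 := hst y hy2 X hXpos.le
        rw [pow_one] at h3
        have h4 : C * X / Real.log y ≤ ε * X := by
          rw [mul_div_right_comm]
          exact mul_le_mul_of_nonneg_right hyε hXpos.le
        rw [le_div_iff₀ hXpos]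
        have : (1 - 1 / X - ε) * X = X - 1 - ε * X := by field_simp
        rw [this]; linarith
      have h2 : 1 - 0 - ε ≤ ∑ a ∈ A, δ a := by
        have hl : Tendsto (fun X : ℝ => 1 - 1 / X - ε) atTop (𝓝 (1 - 0 - ε)) := by
          apply Tendsto.sub_const
          apply Tendsto.const_sub
          exact tendsto_const_nhds.div_atTop tendsto_id
        apply le_of_tendsto_of_tendsto hl (htend A)
        filter_upwards [eventually_ge_atTop (1 : ℝ)] with X hX
        exact h1 X hX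
      have h3 := hb ⟨A, rfl⟩
      simp only at h3
      linarith

end Pool.Agent.H499R2.ND
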