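import Pool.Agent.H499R2.NDG3
import Pool.Agent.H499R2.NDStruct

/-! Natural density: the timed theorem. -/

set_option autoImplicit false

namespace Pool.Agent.H499R2.ND

open Pool.Agent.H320R2.PD Finset Filter Topology

/-- orbits staying outside `[-y,y]` during `τ` steps -/
def TS (d : ℤ) (y : ℝ) (τ : ℕ) : Set ℤ := {x : ℤ | ∀ j ≤ τ, y < |(((Td d)^[j] x : ℤ) : ℝ)|}

/-- a word of size `T` takes `T` steps of the map -/
theorem iter_word {d : ℤ} (hd : Odd d) (w : List ℕ) : (∀ a ∈ w, 1 ≤ a) → ∀ M x : ℤ, Odd M → Odd x →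
    Vw d w M x → (Td d)^[w.sum] M = x := by
  induction w using List.reverseRecOn with
  | nil =>
    intro _ M x _ _ h
    unfold Vw at h; simp [Wo] at h; simpa using h
  | append_singleton u e ih =>
    intro hw M x hM hx h
    have hu : ∀ a ∈ u, 1 ≤ a := fun a ha => hw a (by simp [ha])
    obtain ⟨M₁, hM₁, h1, h2⟩ := Vw_snoc hd hu hx h
    have h3 := ih hu M₁ x hM₁ hx h2
    have he : 1 ≤ e := hw e (by simp)
    obtain ⟨e', rfl⟩ : ∃ e', e = e' + 1 := ⟨e - 1, by omega⟩
    have h4 : Td d M = 2 ^ e' * M₁ := Td_odd hM (by rw [h1, pow_succ]; ring)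
    have h5 : (Td d)^[e' + 1] M = M₁ := by rw [Function.iterate_succ_apply, h4, Td_two_pow]
    rw [List.sum_append, List.sum_singleton, Function.iterate_add_apply, h5, h3]

theorem TS_word {d : ℤ} (hd : Odd d) {y : ℝ} {τ : ℕ} {w : List ℕ} (hw : ∀ a ∈ w, 1 ≤ a) {M x : ℤ}
    (hM : Odd M) (hx : Odd x) (hMS : M ∈ TS d y τ) (h : Vw d w M x) (hT : w.sum ≤ τ) :
    x ∈ TS d y (τ - w.sum) := by
  intro j hj
  have := hMS (j + w.sum) (by omega)
  rwa [Function.iterate_add_apply, iter_word hd w hw M x hM hx h] at this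

/-- the time constant with spread `1/N` -/
noncomputable def kap (N : ℕ) : ℝ := (2 * N - 1) / ((2 * N - 1) * Real.log 2 - N * Real.log 3)

theorem kap_den {N : ℕ} (hN : 20 ≤ N) : 0 < (2 * (N : ℝ) - 1) * Real.log 2 - N * Real.log 3 := by
  have h1 := log3_le
  have h2 := Real.log_two_gt_d9
  have hNR : (20 : ℝ) ≤ N := by exact_mod_cast hN
  have h3 : (N : ℝ) * Real.log 3 ≤ N * (8 / 5 * Real.log 2) := mul_le_mul_of_nonneg_left h1 (by positivity)
  nlinarith

theorem kap_ge {N : ℕ} (hN : 20 ≤ N) : 2 ≤ kap N := by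
  have h0 := kap_den hN
  unfold kap
  rw [le_div_iff₀ h0]
  have h1 := log3_ge
  have h2 := Real.log_two_lt_d9
  have h4 := Real.log_two_gt_d9
  have hNR : (20 : ℝ) ≤ N := by exact_mod_cast hN
  have h3 : (N : ℝ) * (19 / 12 * Real.log 2) ≤ N * Real.log 3 := mul_le_mul_of_nonneg_left h1 (by positivity)
  nlinarith

/-- a typical word pays for its time -/
theorem kap_word {N k T : ℕ} (hN : 20 ≤ N) (h : (2 * N - 1) * k ≤ N * T) :
    (T : ℝ) ≤ kap N * (T * Real.log 2 - k * Real.log 3) := by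
  have h0 := kap_den hN
  unfold kap
  rw [div_mul_eq_mul_div, le_div_iff₀ h0]
  have h3 : (((2 * N - 1) * k : ℕ) : ℝ) ≤ ((N * T : ℕ) : ℝ) := by exact_mod_cast h
  rw [Nat.cast_mul, Nat.cast_mul, Nat.cast_sub (by omega)] at h3
  push_cast at h3
  have h4 : 0 < Real.log 3 := Real.log_pos (by norm_num)
  have h5 := mul_le_mul_of_nonneg_right h3 h4.le
  nlinarith

theorem log_next {A : ℝ} (hA : 0 < A) (k T : ℕ) :
    Real.log (A * 3 ^ k / 2 ^ T) = Real.log A - (T * Real.log 2 - k * Real.log 3) := by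
  rw [Real.log_div (by positivity) (by positivity), Real.log_mul (by positivity) (by positivity),
    Real.log_pow, Real.log_pow]
  ring

/-- ALL SCALES, timed -/
theorem all_scalesT {N : ℕ} (hN : 20 ≤ N) (B : ℕ) (hB : 1 ≤ B) {d : ℤ} (hd : Odd d)
    (hd3 : IsCoprime d 3) :
    ∃ K : ℝ, 0 < K ∧ ∀ y : ℝ, 0 < y → 1000 ≤ Real.log (y / 2) → ∀ τ : ℕ, ∀ A : ℝ, 0 < A →
      kap N * Real.log A ≤ τ → ∀ m : ℕ, (y / 2 < A → (m : ℝ) ^ 2 ≤ Real.log A) →
        PB (TS d y τ) A m (K / (Real.log (y / 2)) ^ B) := by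
  obtain ⟨K, hK, h⟩ := all_scalesG hN B hB hd hd3
  refine ⟨K, hK, fun y hy hy0 τ A hA hτ m hm => ?_⟩
  have hkap := kap_ge hN
  have key : ∀ (τ : ℕ) (A : ℝ), 0 < A → kap N * Real.log A ≤ τ → y / 2 < A → ∀ T : ℕ,
      (2 * N - 1) * ⌊Real.log A / 2⌋₊ ≤ N * T → N * T ≤ (2 * N + 1) * ⌊Real.log A / 2⌋₊ →
      T ≤ τ ∧ 0 < A * 3 ^ ⌊Real.log A / 2⌋₊ / 2 ^ T ∧
        kap N * Real.log (A * 3 ^ ⌊Real.log A / 2⌋₊ / 2 ^ T) ≤ ((τ - T : ℕ) : ℝ) := by
    intro τ A hA hτ hyA T h1 h2
    set k := ⌊Real.log A / 2⌋₊ with hk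
    have hsp := spread20 hN h1 h2
    have hlogA : Real.log (y / 2) < Real.log A := Real.log_lt_log (by positivity) hyA
    have hn := next_scale hA (by linarith) hk hsp.1 hsp.2
    have h3 := kap_word hN h1
    have h4 := log_next hA k T
    have h5 : kap N * Real.log (A * 3 ^ k / 2 ^ T) ≤ τ - T := by
      rw [h4]
      nlinarith
    have h6 : 0 ≤ kap N * Real.log (A * 3 ^ k / 2 ^ T) := by
      apply mul_nonneg (by linarith)
      linarith [hn.1]
    have h7 : T ≤ τ := by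
      have : (T : ℝ) ≤ τ := by linarith
      exact_mod_cast this
    refine ⟨h7, by positivity, ?_⟩
    rw [Nat.cast_sub h7]; exact h5
  refine h y hy hy0 ℕ (fun τ => TS d y τ) (fun τ A => 0 < A ∧ kap N * Real.log A ≤ τ) (fun τ T => τ - T)
    ?_ ?_ ?_ τ A hA ⟨hA, hτ⟩ m hm
  · intro τ x hx h0
    have := hx 0 (Nat.zero_le _)
    rw [Function.iterate_zero, id] at this
    have hx0 : (0 : ℝ) < x := by exact_mod_cast h0
    rwa [abs_of_pos hx0] at this
  · rintro τ A ⟨hA, hτ⟩ hyA T h1 h2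
    exact (key τ A hA hτ hyA T h1 h2).2
  · rintro τ A ⟨hA, hτ⟩ hyA w hw M x hM hx hM1 hM2 hMS hV
    rw [mem_GWN (by omega)] at hw
    exact TS_word hd (FW_props hw.1).2 hM hx hMS hV (key τ A hA hτ hyA w.sum hw.2.1 hw.2.2).1

theorem odd_countX {S : Set ℤ} {δ X0 : ℝ} (hδ : 0 ≤ δ) (h : ∀ A : ℝ, 0 < A → A ≤ X0 → PB S A 0 δ) :
    ∀ n : ℕ, ∀ X : ℝ, 0 ≤ X → X ≤ X0 → X ≤ 2 ^ n → ((cls S 0 X 0 1 0).card : ℝ) ≤ δ * X / 2 := by
  intro n
  induction n with
  | zero =>
    intro X hX _ hX1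
    have : cls S 0 X 0 1 0 = ∅ := by
      rw [Finset.eq_empty_iff_forall_notMem]
      intro x hx
      rw [mem_cls] at hx
      have h1 : (x : ℝ) < 1 := lt_of_lt_of_le hx.1.2 (by simpa using hX1)
      have h2 : (0 : ℝ) ≤ x := hx.1.1
      have h3 : x < 1 := by exact_mod_cast h1
      have h4 : 0 ≤ x := by exact_mod_cast h2
      have h5 : x = 0 := by omega
      rw [h5] at hx
      exact absurd hx.2.1 (by decide)
    rw [this, card_empty, Nat.cast_zero]
    positivity
  | succ n ih =>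
    intro X hX hX0 hXn
    classical
    rcases hX.eq_or_lt with h0 | hpos
    · exact ih X hX hX0 (by rw [← h0]; positivity)
    have hsub : cls S 0 X 0 1 0 ⊆ cls S 0 (X / 2) 0 1 0 ∪ cls S (X / 2) (2 * (X / 2)) 0 1 0 := by
      intro x hx
      rw [mem_cls] at hx
      rw [mem_union, mem_cls, mem_cls]
      rcases lt_or_ge (x : ℝ) (X / 2) with h1 | h1
      · exact Or.inl ⟨⟨hx.1.1, h1⟩, hx.2⟩
      · exact Or.inr ⟨⟨h1, by linarith [hx.1.2]⟩, hx.2⟩
    have h1 : ((cls S 0 X 0 1 0).card : ℝ)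
        ≤ (cls S 0 (X / 2) 0 1 0).card + (cls S (X / 2) (2 * (X / 2)) 0 1 0).card := by
      exact_mod_cast (card_le_card hsub).trans (card_union_le _ _)
    have h2 := ih (X / 2) (by linarith) (by linarith) (by rw [pow_succ] at hXn; linarith)
    have h3 := h (X / 2) (by linarith) (by linarith) 1 0 isCoprime_one_left
    rw [pow_zero, mul_one] at h3
    linarith

theorem all_countT {S : ℕ → Set ℤ} {δ κ : ℝ} (hδ : 0 ≤ δ) (hκ : 2 ≤ κ)
    (h : ∀ (τ : ℕ) (A : ℝ), 0 < A → κ * Real.log A ≤ τ → PB (S τ) A 0 δ)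
    (h2 : ∀ (τ : ℕ) (x : ℤ), 2 * x ∈ S (τ + 1) → x ∈ S τ) :
    ∀ n : ℕ, ∀ (τ : ℕ) (X : ℝ), 0 < X → X ≤ 2 ^ n → κ * Real.log X ≤ τ → ((pos (S τ) X).card : ℝ) ≤ δ * X := by
  intro n
  induction n with
  | zero =>
    intro τ X hX hX1 _
    have : pos (S τ) X = ∅ := by
      rw [Finset.eq_empty_iff_forall_notMem]
      intro x hx
      rw [mem_pos] at hx
      have h1 : (x : ℝ) < 1 := lt_of_lt_of_le hx.1.2 (by simpa using hX1)
      have h3 : x < 1 := by exact_mod_cast h1
      omega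
    rw [this, card_empty, Nat.cast_zero]
    positivity
  | succ n ih =>
    intro τ X hX hXn hτ
    classical
    rcases le_or_gt X 1 with hX1 | hX1
    · exact ih τ X hX (hX1.trans (one_le_pow₀ (by norm_num))) hτ
    have hlog : 0 < Real.log X := Real.log_pos hX1
    obtain ⟨τ', rfl⟩ : ∃ τ', τ = τ' + 1 := by
      refine ⟨τ - 1, ?_⟩
      have : (0 : ℝ) < τ := lt_of_lt_of_le (by positivity) hτ
      have : 0 < τ := by exact_mod_cast this
      omega
    have hsub : pos (S (τ' + 1)) X ⊆ cls (S (τ' + 1)) 0 X 0 1 0 ∪ (pos (S τ') (X / 2)).image (fun x => 2 * x) := by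
      intro x hx
      rw [mem_pos] at hx
      rw [mem_union, mem_cls, mem_image]
      rcases Int.even_or_odd x with he | ho
      · right
        obtain ⟨t, ht⟩ := he
        refine ⟨t, ?_, by omega⟩
        rw [mem_pos]
        have hxt : (x : ℝ) = 2 * t := by rw [ht]; push_cast; ring
        refine ⟨⟨by omega, by linarith [hx.1.2]⟩, h2 τ' t ?_⟩
        rw [show 2 * t = x by omega]; exact hx.2
      · left
        refine ⟨⟨?_, hx.1.2⟩, ho, hx.2, by simp⟩
        have : (1 : ℝ) ≤ x := by exact_mod_cast hx.1.1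
        linarith
    have h1 : ((pos (S (τ' + 1)) X).card : ℝ) ≤ (cls (S (τ' + 1)) 0 X 0 1 0).card + (pos (S τ') (X / 2)).card := by
      have e1 := (card_le_card hsub).trans (card_union_le _ _)
      have e2 : ((pos (S τ') (X / 2)).image (fun x => 2 * x)).card ≤ (pos (S τ') (X / 2)).card := card_image_le
      exact_mod_cast e1.trans (Nat.add_le_add_left e2 _)
    obtain ⟨n', hn'⟩ := pow_unbounded_of_one_lt X (by norm_num : (1 : ℝ) < 2)
    have h3 := odd_countX hδ (X0 := X) (fun A hA hAX => h (τ' + 1) A hA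
      ((mul_le_mul_of_nonneg_left (Real.log_le_log hA hAX) (by linarith)).trans hτ)) n' X hX.le le_rfl hn'.le
    have h4 := ih τ' (X / 2) (by linarith) (by rw [pow_succ] at hXn; linarith) (by
      rw [Real.log_div hX.ne' (by norm_num)]
      have hl := Real.log_two_gt_d9
      push_cast at hτ
      nlinarith)
    linarith

/-- THE TIMED THEOREM: after `kap N * log X` steps only few orbits have stayed outside `[-y,y]` -/
theorem timed_count {N : ℕ} (hN : 20 ≤ N) (B : ℕ) {d : ℤ} (hd : Odd d) (hd3 : IsCoprime d 3) :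
    ∃ K : ℝ, 0 < K ∧ ∀ y : ℝ, 2 ≤ y → ∀ X : ℝ, 0 < X → ∀ τ : ℕ, kap N * Real.log X ≤ τ →
      G (TS d y τ) X ≤ K * X / (Real.log y) ^ B := by
  obtain ⟨K, hK, hall⟩ := all_scalesT hN (B + 1) (by omega) hd hd3
  set Y : ℝ := 1002 with hY
  refine ⟨(2 * Y) ^ B + K * 2 ^ (B + 1), by positivity, ?_⟩
  intro y hy X hX τ hτ
  unfold G
  have hl2 := Real.log_two_gt_d9
  have hl2' := Real.log_two_lt_d9
  have hlogy : 0 < Real.log y := Real.log_pos (by linarith)
  rcases lt_or_ge (Real.log y) Y with hsm | hbig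
  · have h1 := pos_card_le (TS d y τ) hX.le
    refine h1.trans ?_
    rw [mul_div_right_comm]
    have h3 : 1 ≤ ((2 * Y) ^ B + K * 2 ^ (B + 1)) / Real.log y ^ B := by
      rw [le_div_iff₀ (by positivity), one_mul]
      calc Real.log y ^ B ≤ (2 * Y) ^ B := pow_le_pow_left₀ hlogy.le (by linarith) B
        _ ≤ _ := by
          have : 0 < K * 2 ^ (B + 1) := by positivity
          linarith
    nlinarith
  · have hlog2 : Real.log (y / 2) = Real.log y - Real.log 2 := Real.log_div (by linarith) (by norm_num)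
    have ht0 : 1000 ≤ Real.log (y / 2) := by rw [hlog2]; linarith
    have hδ : 0 ≤ K / (Real.log (y / 2)) ^ (B + 1) := by
      have : 0 < Real.log (y / 2) := by linarith
      positivity
    obtain ⟨n, hn⟩ := pow_unbounded_of_one_lt X (by norm_num : (1 : ℝ) < 2)
    have h3 := all_countT (S := fun τ => TS d y τ) hδ (kap_ge hN) (fun τ A hA hτA =>
      hall y (by linarith) ht0 τ A hA hτA 0 (fun hyA => by
        have : 0 ≤ Real.log A := by
          have := Real.log_lt_log (by linarith : 0 < y / 2) hyA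
          linarith
        simpa using this)) (fun τ x hx j hj => by
          have := hx (j + 1) (by omega)
          rwa [Function.iterate_succ_apply, Td_two] at this) n τ X hX hn.le hτ
    refine h3.trans ?_
    have h4 : K / (Real.log (y / 2)) ^ (B + 1) ≤ (K * 2 ^ (B + 1)) / Real.log y ^ B := by
      have e1 : Real.log y / 2 ≤ Real.log (y / 2) := by rw [hlog2]; linarith
      have e2 : (Real.log y / 2) ^ (B + 1) ≤ (Real.log (y / 2)) ^ (B + 1) :=
        pow_le_pow_left₀ (by linarith) e1 _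
      have e3 : (0 : ℝ) < (Real.log y / 2) ^ (B + 1) := by positivity
      calc K / (Real.log (y / 2)) ^ (B + 1) ≤ K / (Real.log y / 2) ^ (B + 1) :=
            div_le_div_of_nonneg_left hK.le e3 e2
        _ = K * 2 ^ (B + 1) / Real.log y ^ (B + 1) := by rw [div_pow]; field_simp
        _ ≤ K * 2 ^ (B + 1) / Real.log y ^ B := by
            apply div_le_div_of_nonneg_left (by positivity) (by positivity)
            exact pow_le_pow_right₀ (by linarith) (Nat.le_succ B)
    calc K / (Real.log (y / 2)) ^ (B + 1) * X ≤ (K * 2 ^ (B + 1)) / Real.log y ^ B * X :=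
          mul_le_mul_of_nonneg_right h4 hX.le
      _ ≤ ((2 * Y) ^ B + K * 2 ^ (B + 1)) / Real.log y ^ B * X := by
          apply mul_le_mul_of_nonneg_right _ hX.le
          apply div_le_div_of_nonneg_right _ (by positivity)
          have : 0 < (2 * Y) ^ B := by positivity
          linarith
      _ = _ := by ring

/-- the time constants tend to `2 / log (4/3)` -/
theorem kap_le (ε : ℝ) (hε : 0 < ε) : ∃ N : ℕ, 20 ≤ N ∧ kap N ≤ 2 / Real.log (4 / 3) + ε := by
  have hl : Real.log (4 / 3) = 2 * Real.log 2 - Real.log 3 := by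
    rw [Real.log_div (by norm_num) (by norm_num), show (4 : ℝ) = 2 ^ 2 by norm_num, Real.log_pow]
    push_cast; ring
  set L := Real.log (4 / 3) with hL
  have hLpos : 0 < L := Real.log_pos (by norm_num)
  have hl2 := Real.log_two_lt_d9
  have hl2' := Real.log_two_gt_d9
  obtain ⟨N, hN⟩ := exists_nat_ge (max 20 ((2 + ε * L) / (ε * L ^ 2) + 1))
  have hN20 : (20 : ℝ) ≤ N := (le_max_left _ _).trans hN
  have hN20' : 20 ≤ N := by exact_mod_cast hN20
  have hN2 : (2 + ε * L) / (ε * L ^ 2) + 1 ≤ N := (le_max_right _ _).trans hN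
  refine ⟨N, hN20', ?_⟩
  have h0 := kap_den hN20'
  unfold kap
  have hden : (2 * (N : ℝ) - 1) * Real.log 2 - N * Real.log 3 = N * L - Real.log 2 := by rw [hl]; ring
  rw [hden] at h0 ⊢
  rw [div_le_iff₀ h0]
  -- (2/L + ε)(N L - log 2) ≥ 2N - 1
  have h1 : (2 + ε * L) / (ε * L ^ 2) ≤ N := by linarith
  rw [div_le_iff₀ (by positivity)] at h1
  have h2 : (2 / L + ε) * (N * L - Real.log 2) = 2 * N - 2 * Real.log 2 / L + ε * N * L - ε * Real.log 2 := by
    field_simp
    ring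
  rw [h2]
  have h3 : 2 * Real.log 2 / L ≤ 2 / L := by
    apply div_le_div_of_nonneg_right _ hLpos.le
    linarith
  have h4 : 2 / L + ε ≤ ε * N * L := by
    have : (2 / L + ε) * L = 2 + ε * L := by field_simp
    have h5 : (2 / L + ε) * L ≤ (ε * N * L) * L := by rw [this]; nlinarith
    exact le_of_mul_le_mul_right h5 hLpos
  have h6 : ε * Real.log 2 ≤ ε := by nlinarith
  linarith

end Pool.Agent.H499R2.ND
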