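import Pool.Agent.H499R2.NDErr

/-! Natural density: iteration over the scales. -/

set_option autoImplicit false

namespace Pool.Agent.H499R2.ND

open Pool.Agent.H320R2.PD Finset

/-- a class `u x ≡ v` is a class `x ≡ c` -/
theorem cls_unit (S : Set ℤ) (a b : ℝ) (m : ℕ) {u : ℤ} (hu : IsCoprime u 3) (v : ℤ) :
    ∃ c : ℤ, cls S a b m u v = cls S a b m 1 c := by
  obtain ⟨p, q, hpq⟩ : IsCoprime u ((3 : ℤ) ^ m) := hu.pow_right
  refine ⟨p * v, ?_⟩
  ext x
  rw [mem_cls, mem_cls]
  have key : (3 : ℤ) ^ m ∣ u * x - v ↔ (3 : ℤ) ^ m ∣ 1 * x - p * v := by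
    have hcop : IsCoprime ((3 : ℤ) ^ m) u := ⟨q, p, by linarith⟩
    constructor
    · intro h
      apply hcop.dvd_of_dvd_mul_left
      have : u * (1 * x - p * v) = (u * x - v) + 3 ^ m * (q * v) := by
        have h1 : u * p = 1 - q * 3 ^ m := by linarith
        calc u * (1 * x - p * v) = u * x - (u * p) * v := by ring
          _ = _ := by rw [h1]; ring
      rw [this]
      exact dvd_add h (dvd_mul_right _ _)
    · intro h
      have : u * x - v = u * (1 * x - p * v) - 3 ^ m * (q * v) := by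
        have h1 : u * p = 1 - q * 3 ^ m := by linarith
        have h2 : u * (1 * x - p * v) = u * x - (u * p) * v := by ring
        rw [h2, h1]; ring
      rw [this]
      exact dvd_sub (h.mul_left u) (dvd_mul_right _ _)
  rw [key]

/-- `S` has relative density at most `ρ` in all classes mod `3^m` of odd integers of `[A,2A)` -/
def PB (S : Set ℤ) (A : ℝ) (m : ℕ) (ρ : ℝ) : Prop :=
  ∀ u v : ℤ, IsCoprime u 3 → ((cls S A (2 * A) m u v).card : ℝ) ≤ ρ * (A / (2 * 3 ^ m))

/-- one stage -/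
theorem stage {d : ℤ} (hd : Odd d) (hd3 : IsCoprime d 3) {S : Set ℤ} (hS : Fwd d S) {A : ℝ}
    (hA : 0 < A) {k m m' : ℕ} (hk : 1 ≤ k) (hm' : m' ≤ k) {ρ : ℝ} (hρ : 0 ≤ ρ)
    (h : ∀ T : ℕ, 39 * k ≤ 20 * T → 20 * T ≤ 41 * k → PB S (A * 3 ^ k / 2 ^ T) m' ρ) :
    PB S A m (ρ + Err d A k m m') := by
  intro u v hu
  obtain ⟨c, hc⟩ := cls_unit S A (2 * A) m hu v
  rw [hc]
  have hTm : 41 * k / 20 ≤ k * (3 * k) := by nlinarith [Nat.div_mul_le_self (41 * k) 20]
  have h1 := star hd hd3 hS hA.le (3 * k) k m m' ((39 * k + 19) / 20) (41 * k / 20) hk hm' hTm c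
  set G := GW (3 * k) k ((39 * k + 19) / 20) (41 * k / 20) with hG
  have h2 : ∑ w ∈ G, ((cls S (A * 3 ^ k / 2 ^ w.sum) (2 * (A * 3 ^ k / 2 ^ w.sum)) m'
            (2 ^ w.sum) (d * Wo w)).card : ℝ) ≤ ∑ w ∈ G, ρ * (A * 3 ^ k / (2 * 3 ^ m')) * wwt w := by
    apply sum_le_sum
    intro w hw
    rw [hG] at hw; unfold GW at hw; rw [mem_filter] at hw
    have h3 := h w.sum (by omega) (by omega) (2 ^ w.sum) (d * Wo w) (cop_two_pow _)
    refine h3.trans (le_of_eq ?_)
    unfold wwt
    rw [one_div, inv_pow]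
    field_simp
  have hmass1 : ∑ w ∈ G, wwt w ≤ 1 := by
    refine le_trans ?_ (sum_wwt_le (3 * k) k)
    rw [hG]; unfold GW
    apply sum_le_sum_of_subset_of_nonneg (filter_subset _ _)
    intro w _ _; unfold wwt; positivity
  rw [← mul_sum] at h2
  have h4 : (∑ w ∈ G, ((cls S (A * 3 ^ k / 2 ^ w.sum) (2 * (A * 3 ^ k / 2 ^ w.sum)) m'
            (2 ^ w.sum) (d * Wo w)).card : ℝ)) / 3 ^ (k + m - m') ≤ ρ * (A / (2 * 3 ^ m)) := by
    rw [div_le_iff₀ (by positivity)]
    refine h2.trans ?_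
    have h5 : ρ * (A * 3 ^ k / (2 * 3 ^ m')) * ∑ w ∈ G, wwt w ≤ ρ * (A * 3 ^ k / (2 * 3 ^ m')) * 1 :=
      mul_le_mul_of_nonneg_left hmass1 (by positivity)
    refine h5.trans (le_of_eq ?_)
    have h6 : (3 : ℝ) ^ (k + m - m') * 3 ^ m' = 3 ^ k * 3 ^ m := by
      rw [← pow_add, ← pow_add]; congr 1; omega
    have h7 : (3 : ℝ) ^ k = 3 ^ (k + m - m') * 3 ^ m' / 3 ^ m := by
      rw [h6]; field_simp
    rw [h7]
    field_simp
  have hfac : A / (2 * 3 ^ m) * (2 * 3 ^ m / A) = 1 := by
    field_simp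
  have hEq : (ρ + Err d A k m m') * (A / (2 * 3 ^ m)) = ρ * (A / (2 * 3 ^ m))
      + (A / (2 * 3 ^ m) + 2 ^ (41 * k / 20))
          * (∑ T ∈ range (k * (3 * k) + 1), dev (FWT (3 * k) k T) wwt (fun w => (Wo w : ℤ)) (k + m) m')
      + A / (2 * 3 ^ m) * (1 - ∑ w ∈ G, wwt w) + 1 + (|(d : ℝ)| + 2) * 2 ^ (41 * k / 20) := by
    unfold Err
    rw [← hG]
    set δ := ∑ T ∈ range (k * (3 * k) + 1), dev (FWT (3 * k) k T) wwt (fun w => (Wo w : ℤ)) (k + m) m'
    set X := (2 : ℝ) ^ (41 * k / 20)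
    set Y := A / (2 * 3 ^ m) with hY
    set Z := 2 * 3 ^ m / A with hZ
    set μ := ∑ w ∈ G, wwt w
    have : (ρ + ((1 + X * Z) * δ + (1 - μ) + (1 + (|(d : ℝ)| + 2) * X) * Z)) * Y
        = ρ * Y + (Y + X * (Y * Z)) * δ + Y * (1 - μ) + (1 + (|(d : ℝ)| + 2) * X) * (Y * Z) := by ring
    rw [this, hfac]
    ring
  rw [hEq]
  linarith

/-- size of the next scales -/
theorem next_scale {A : ℝ} (hA : 0 < A) (ht : 1000 ≤ Real.log A) {k T : ℕ}
    (hk : k = ⌊Real.log A / 2⌋₊) (h1 : 39 * k ≤ 20 * T) (h2 : 20 * T ≤ 41 * k) :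
    0.8 * Real.log A ≤ Real.log (A * 3 ^ k / 2 ^ T) ∧ Real.log (A * 3 ^ k / 2 ^ T) ≤ 0.9 * Real.log A := by
  have e : Real.log (A * 3 ^ k / 2 ^ T) = Real.log A + k * Real.log 3 - T * Real.log 2 := by
    rw [Real.log_div (by positivity) (by positivity), Real.log_mul (by positivity) (by positivity),
      Real.log_pow, Real.log_pow]
  rw [e]
  set t := Real.log A
  have hk1 : (k : ℝ) ≤ t / 2 := by rw [hk]; exact Nat.floor_le (by linarith)
  have hk2 : t / 2 - 1 ≤ k := by rw [hk]; linarith [Nat.lt_floor_add_one (t / 2)]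
  have h1' : (39 : ℝ) * k ≤ 20 * T := by exact_mod_cast h1
  have h2' : (20 : ℝ) * T ≤ 41 * k := by exact_mod_cast h2
  have hl := Real.log_two_gt_d9
  have hl' := Real.log_two_lt_d9
  have h3a := log3_le
  have h3b := log3_ge
  have hk0 : (0 : ℝ) ≤ k := Nat.cast_nonneg k
  constructor
  · have a1 : (k : ℝ) * (19 / 12 * Real.log 2) ≤ k * Real.log 3 := mul_le_mul_of_nonneg_left h3b hk0
    have a2 : (T : ℝ) * Real.log 2 ≤ (41 / 20 * k) * Real.log 2 :=
      mul_le_mul_of_nonneg_right (by linarith) (by linarith)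
    have a3 : (k : ℝ) * Real.log 2 ≤ k * 0.6931471808 := mul_le_mul_of_nonneg_left hl'.le hk0
    nlinarith
  · have a1 : k * Real.log 3 ≤ (k : ℝ) * (8 / 5 * Real.log 2) := mul_le_mul_of_nonneg_left h3a hk0
    have a2 : (39 / 20 * k) * Real.log 2 ≤ (T : ℝ) * Real.log 2 :=
      mul_le_mul_of_nonneg_right (by linarith) (by linarith)
    have a3 : (k : ℝ) * 0.6931471803 ≤ k * Real.log 2 := mul_le_mul_of_nonneg_left hl.le hk0
    nlinarith

theorem pow_09 (B : ℕ) (hB : 1 ≤ B) {t : ℝ} (ht : 0 < t) : (11 / 10) * (1 / t ^ B) ≤ 1 / (0.9 * t) ^ B := by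
  have h1 : (0.9 : ℝ) ^ B ≤ 0.9 := by
    calc (0.9 : ℝ) ^ B ≤ 0.9 ^ 1 := pow_le_pow_of_le_one (by norm_num) (by norm_num) hB
      _ = 0.9 := by norm_num
  have h2 : (0 : ℝ) < 0.9 ^ B := by positivity
  rw [mul_pow, ← one_div_mul_one_div]
  apply mul_le_mul_of_nonneg_right _ (by positivity)
  rw [le_div_iff₀ h2]
  linarith

/-- ALL SCALES: relative density of forward invariant sets without elements in `(0,y]` -/
theorem all_scales (B : ℕ) (hB : 1 ≤ B) {d : ℤ} (hd : Odd d) (hd3 : IsCoprime d 3) :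
    ∃ K : ℝ, 0 < K ∧ ∀ y : ℝ, 0 < y → 1000 ≤ Real.log (y / 2) → ∀ S : Set ℤ, Fwd d S →
      (∀ x ∈ S, 0 < x → y < (x : ℝ)) → ∀ A : ℝ, 0 < A → ∀ m : ℕ,
        (y / 2 < A → (m : ℝ) ^ 2 ≤ Real.log A) → PB S A m (K / (Real.log (y / 2)) ^ B) := by
  obtain ⟨C, hC, herr⟩ := err_bound B d
  refine ⟨20 * C, by positivity, ?_⟩
  intro y hy ht0 S hS hSy
  set t0 := Real.log (y / 2) with ht0def
  have ht0pos : 0 < t0 := by linarith
  have hlow : ∀ A : ℝ, 0 < A → A ≤ y / 2 → ∀ m : ℕ, ∀ ρ : ℝ, 0 ≤ ρ → PB S A m ρ := by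
    intro A hA hAy m ρ hρ u v hu
    have : cls S A (2 * A) m u v = ∅ := by
      rw [Finset.eq_empty_iff_forall_notMem]
      intro x hx
      rw [mem_cls] at hx
      have hx0 : (0 : ℝ) < x := by linarith [hx.1.1]
      have := hSy x hx.2.2.1 (by exact_mod_cast hx0)
      linarith [hx.1.2]
    rw [this, card_empty, Nat.cast_zero]
    positivity
  -- main claim
  have main : ∀ n : ℕ, ∀ A : ℝ, 0 < A → y / 2 < A → Real.log A ≤ t0 + n → ∀ m : ℕ,
      (m : ℝ) ^ 2 ≤ Real.log A → PB S A m (10 * C * (2 / t0 ^ B - 1 / (Real.log A) ^ B)) := by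
    intro n
    induction n with
    | zero =>
      intro A hA hyA hlog
      exfalso
      have : t0 < Real.log A := Real.log_lt_log (by positivity) hyA
      rw [Nat.cast_zero, add_zero] at hlog
      linarith
    | succ n ih =>
      intro A hA hyA hlog m hm
      set t := Real.log A with htdef
      have ht0t : t0 < t := Real.log_lt_log (by positivity) hyA
      have htpos : 0 < t := by linarith
      have ht1000 : 1000 ≤ t := by linarith
      obtain ⟨k, hk⟩ : ∃ k : ℕ, k = ⌊t / 2⌋₊ := ⟨_, rfl⟩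
      obtain ⟨m', hm'⟩ : ∃ m' : ℕ, m' = ⌊Real.sqrt (0.8 * t)⌋₊ := ⟨_, rfl⟩
      have hk2 : t / 2 - 1 ≤ k := by rw [hk]; linarith [Nat.lt_floor_add_one (t / 2)]
      have hk1N : 1 ≤ k := by
        have : (1 : ℝ) ≤ k := by linarith
        exact_mod_cast this
      have hm'sq : (m' : ℝ) ^ 2 ≤ 0.8 * t := by
        have h1 : (m' : ℝ) ≤ Real.sqrt (0.8 * t) := by
          rw [hm']; exact Nat.floor_le (Real.sqrt_nonneg _)
        calc (m' : ℝ) ^ 2 ≤ (Real.sqrt (0.8 * t)) ^ 2 :=
              pow_le_pow_left₀ (Nat.cast_nonneg _) h1 2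
          _ = 0.8 * t := Real.sq_sqrt (by linarith)
      have hm'k : m' ≤ k := by
        have : (m' : ℝ) ≤ k := by
          have h0 : (0 : ℝ) ≤ m' := Nat.cast_nonneg _
          by_contra hcon
          push Not at hcon
          nlinarith
        exact_mod_cast this
      have hE := herr A hA ht1000 k m m' hm hk hm'
      rw [← htdef] at hE
      have hpt : 0 < t ^ B := by positivity
      have hpt0 : 0 < t0 ^ B := by positivity
      have hmono : ∀ s : ℝ, t0 ≤ s → 1 / s ^ B ≤ 1 / t0 ^ B := fun s hs =>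
        one_div_le_one_div_of_le hpt0 (pow_le_pow_left₀ ht0pos.le hs B)
      have hCt : C / t ^ B = C * (1 / t ^ B) := by ring
      have h2t0 : 2 / t0 ^ B = 2 * (1 / t0 ^ B) := by ring
      rcases lt_or_ge (0.9 * t) t0 with hcase | hcase
      · -- all next windows are below `y`
        have hst := stage hd hd3 hS hA hk1N hm'k (m := m) (le_refl (0 : ℝ)) (fun T hT1 hT2 => by
          apply hlow _ (by positivity) _ _ _ (le_refl _)
          have hn := (next_scale hA ht1000 hk hT1 hT2).2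
          have : Real.log (A * 3 ^ k / 2 ^ T) < Real.log (y / 2) := by
            rw [← ht0def]; exact lt_of_le_of_lt hn hcase
          exact ((Real.log_lt_log_iff (by positivity) (by positivity)).1 this).le)
        intro u v hu
        refine (hst u v hu).trans ?_
        apply mul_le_mul_of_nonneg_right _ (by positivity)
        have h1 := hmono t ht0t.le
        have h2 : 0 < C * (1 / t ^ B) := by positivity
        have h3 : 0 ≤ C * (1 / t0 ^ B - 1 / t ^ B) := mul_nonneg hC.le (by linarith)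
        rw [h2t0]
        nlinarith
      · have hρ : 0 ≤ 10 * C * (2 / t0 ^ B - 1 / (0.9 * t) ^ B) := by
          have h1 := hmono (0.9 * t) hcase
          have h2 : 0 < 1 / t0 ^ B := by positivity
          rw [h2t0]
          apply mul_nonneg (by positivity)
          linarith
        have hst := stage hd hd3 hS hA hk1N hm'k (m := m) hρ (fun T hT1 hT2 => by
          have hn := next_scale hA ht1000 hk hT1 hT2
          set A' := A * 3 ^ k / 2 ^ T with hA'
          have hA'pos : 0 < A' := by positivity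
          rcases le_or_gt A' (y / 2) with hc | hc
          · exact hlow A' hA'pos hc m' _ hρ
          · have hlt : t0 < Real.log A' := Real.log_lt_log (by positivity) hc
            have hih := ih A' hA'pos hc (by
              have h9 : Real.log A' ≤ 0.9 * t := hn.2
              have : Real.log A ≤ t0 + (n + 1 : ℕ) := hlog
              push_cast at this
              linarith) m' (by linarith [hn.1])
            intro u v hu
            refine (hih u v hu).trans ?_
            apply mul_le_mul_of_nonneg_right _ (by positivity)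
            apply mul_le_mul_of_nonneg_left _ (by positivity)
            have : 1 / (0.9 * t) ^ B ≤ 1 / (Real.log A') ^ B :=
              one_div_le_one_div_of_le (pow_pos (by linarith) B) (pow_le_pow_left₀ (by linarith) hn.2 B)
            linarith)
        intro u v hu
        refine (hst u v hu).trans ?_
        apply mul_le_mul_of_nonneg_right _ (by positivity)
        have h1 := pow_09 B hB htpos
        have h2 := mul_le_mul_of_nonneg_left h1 (by positivity : 0 ≤ 10 * C)
        rw [mul_sub, mul_sub]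
        have h3 : 10 * C * ((11 / 10) * (1 / t ^ B)) = 10 * C * (1 / t ^ B) + C * (1 / t ^ B) := by ring
        linarith
  intro A hA m hm
  rcases le_or_gt A (y / 2) with hc | hc
  · exact hlow A hA hc m _ (by positivity)
  · obtain ⟨n, hn⟩ := exists_nat_ge (Real.log A - t0)
    have h1 := main n A hA hc (by linarith) m (hm hc)
    intro u v hu
    refine (h1 u v hu).trans ?_
    apply mul_le_mul_of_nonneg_right _ (by positivity)
    have hlt : t0 < Real.log A := Real.log_lt_log (by positivity) hc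
    have : 0 < 1 / (Real.log A) ^ B := by
      have : 0 < Real.log A := by linarith
      positivity
    have h2 : 20 * C / t0 ^ B = 10 * C * (2 / t0 ^ B) := by ring
    rw [h2]
    apply mul_le_mul_of_nonneg_left _ (by positivity)
    linarith

end Pool.Agent.H499R2.ND
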