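import Pool.Agent.H499R2.NDLln3

/-! Natural density: the Collatz map and the number of odd steps. -/

set_option autoImplicit false

namespace Pool.Agent.H499R2.ND

open Pool.Agent.H320R2.PD Finset Filter Topology

open Pool.Agent.H319R2.Lln (mu)

open Pool.Agent.H363R2 (oc oc_bounds TN CN Cm)

theorem TN_eq_Tn : TN = Tn := by
  funext n; rfl

/-- bounded sets have density zero -/
theorem zd_bdd (C : ℝ) : Dn (fun n : ℕ => (n : ℝ) ≤ C) 0 := by
  rw [zd_iff]
  intro ε hε
  have hC : 0 ≤ max C 0 := le_max_right _ _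
  filter_upwards [(tendsto_natCast_atTop_atTop (R := ℝ)).eventually_ge_atTop (max C 0 / ε)] with N hN
  have h1 := cnt_small hC N
  have h2 : cnt (fun n : ℕ => (n : ℝ) ≤ C) N ≤ cnt (fun n : ℕ => (n : ℝ) ≤ max C 0) N :=
    cnt_mono N fun n _ _ h => h.trans (le_max_left _ _)
  rw [div_le_iff₀ hε] at hN
  linarith

theorem zd_log (C : ℝ) : Dn (fun n : ℕ => Real.log n ≤ C) 0 := by
  refine zd_mono (zd_bdd (Real.exp C)) fun n hn h => ?_
  rwa [Real.log_le_iff_le_exp (by exact_mod_cast hn)] at h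

/-- the Collatz map reaches `1` after `t + oc t n` steps -/
theorem CN_run (t : ℕ) : ∀ n : ℕ, 1 ≤ n → TN^[t] n = 1 → (∀ j < t, TN^[j] n ≠ 1) →
    CN^[t + oc t n] n = 1 ∧ ∀ j < t + oc t n, CN^[j] n ≠ 1 := by
  induction t with
  | zero =>
    intro n _ h _
    refine ⟨by simpa [oc] using h, fun j hj => ?_⟩
    simp [oc] at hj
  | succ t ih =>
    intro n hn h hmin
    have hn1 : n ≠ 1 := hmin 0 (by omega)
    have hT : 1 ≤ TN n := (Pool.Agent.H363R2.TN_le 1 n hn).2
    obtain ⟨h1, h2⟩ := ih (TN n) hT (by rwa [Function.iterate_succ_apply] at h) (fun j hj => by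
      have := hmin (j + 1) (by omega)
      rwa [Function.iterate_succ_apply] at this)
    rcases Nat.mod_two_eq_zero_or_one n with hp | hp
    · have hC : CN n = TN n := by simp [CN, TN, hp]
      have e : t + 1 + oc (t + 1) n = (t + oc t (TN n)) + 1 := by rw [oc, hp]; ring
      rw [e]
      refine ⟨by rw [Function.iterate_succ_apply, hC]; exact h1, fun j hj => ?_⟩
      rcases j with _ | j
      · exact hn1
      · rw [Function.iterate_succ_apply, hC]; exact h2 j (by omega)
    · have hC : CN n = 3 * n + 1 := by simp [CN, hp]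
      have hC2 : CN (3 * n + 1) = TN n := by
        have h3 : TN n = (3 * n + 1) / 2 := Pool.Agent.H363R2.TN_odd hp
        rw [h3]; simp only [CN]; rw [if_pos (by omega)]
      have e : t + 1 + oc (t + 1) n = (t + oc t (TN n)) + 1 + 1 := by rw [oc, hp]; ring
      rw [e]
      refine ⟨by rw [Function.iterate_succ_apply, Function.iterate_succ_apply, hC, hC2]; exact h1,
        fun j hj => ?_⟩
      rcases j with _ | _ | j
      · exact hn1
      · rw [Function.iterate_succ_apply, hC]; simp; omega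
      · rw [Function.iterate_succ_apply, Function.iterate_succ_apply, hC, hC2]; exact h2 j (by omega)

/-- the number of odd steps -/
theorem oc_close {ε : ℝ} (hε : 0 < ε) : ∃ L0 : ℝ, ∀ n t : ℕ, 1 ≤ n → TN^[t] n = 1 →
    (∀ j < t, TN^[j] n ≠ 1) →
    |(t : ℝ) - 2 / Real.log (4 / 3) * Real.log n| ≤ ε / 4 * Real.log n → L0 ≤ Real.log n →
    |(oc t n : ℝ) - 1 / Real.log (4 / 3) * Real.log n| ≤ ε * Real.log n := by
  have hl3 : 1 ≤ Real.log 3 := by
    have h1 := log3_ge
    have h2 := Real.log_two_gt_d9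
    linarith
  have hl2 : 0 < Real.log 2 := Real.log_pos (by norm_num)
  have hl21 : Real.log 2 < 1 := by
    have := Real.log_two_lt_d9; linarith
  have hμ : Real.log (4 / 3) = 2 * Real.log 2 - Real.log 3 := by
    rw [Real.log_div (by norm_num) (by norm_num)]
    have : Real.log 4 = 2 * Real.log 2 := by
      rw [show (4 : ℝ) = 2 ^ 2 by norm_num, Real.log_pow]; push_cast; ring
    rw [this]
  have hμ0 : 0 < Real.log (4 / 3) := Real.log_pos (by norm_num)
  set μ := Real.log (4 / 3) with hμd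
  obtain ⟨K, hK⟩ := exists_nat_gt (max 1 ((2 / μ + ε / 4) / (ε / 4)))
  have hK1 : 1 ≤ K := by
    have : (1 : ℝ) < K := (le_max_left _ _).trans_lt hK
    exact_mod_cast this.le
  have hKR : (0 : ℝ) < K := by exact_mod_cast hK1
  have hK2 : (2 / μ + ε / 4) ≤ ε / 4 * K := by
    have h1 : (2 / μ + ε / 4) / (ε / 4) < K := (le_max_right _ _).trans_lt hK
    rw [div_lt_iff₀ (by positivity)] at h1
    linarith
  refine ⟨K / (ε / 4), fun n t hn h1 h2 h3 hL => ?_⟩
  obtain ⟨b1, b2⟩ := oc_bounds h1 h2 hn hK1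
  set L := Real.log (n : ℝ) with hLd
  have hKL : (K : ℝ) ≤ ε / 4 * L := by
    rw [div_le_iff₀ (by positivity)] at hL
    linarith
  have hL0 : 0 < L := by
    have : 0 < ε / 4 * L := by linarith
    exact (mul_pos_iff_of_pos_left (by positivity)).1 this
  obtain ⟨t1, t2⟩ := abs_le.1 h3
  have ht3 : (t : ℝ) / (3 * K) ≤ ε / 4 * L := by
    rw [div_le_iff₀ (by positivity)]
    calc (t : ℝ) ≤ (2 / μ + ε / 4) * L := by linarith
      _ ≤ (ε / 4 * K) * L := mul_le_mul_of_nonneg_right hK2 hL0.le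
      _ ≤ ε / 4 * L * (3 * K) := by
          have : 0 ≤ ε / 4 * L * K := by positivity
          nlinarith
  have e3 : 1 / μ * L * Real.log 3 = 2 / μ * L * Real.log 2 - L := by
    have e4 : Real.log 3 = 2 * Real.log 2 - μ := by rw [hμ]; ring
    rw [e4]
    field_simp
  have e5 : ε / 4 * L * Real.log 2 ≤ ε / 4 * L := by
    have : 0 ≤ ε / 4 * L := by positivity
    nlinarith
  have e6 : ε * L ≤ ε * L * Real.log 3 := by
    have : 0 ≤ ε * L := by positivity
    nlinarith
  have u1 : (oc t n - 1 / μ * L) * Real.log 3 ≤ (ε * L) * Real.log 3 := by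
    have := mul_le_mul_of_nonneg_right t2 hl2.le
    nlinarith
  have u2 : (-(ε * L)) * Real.log 3 ≤ (oc t n - 1 / μ * L) * Real.log 3 := by
    have := mul_le_mul_of_nonneg_right t1 hl2.le
    nlinarith
  rw [abs_le]
  exact ⟨le_of_mul_le_mul_right u2 (by linarith), le_of_mul_le_mul_right u1 (by linarith)⟩

/-- if `C` reaches `1`, so does `T` -/
theorem bas_of_CN : ∀ l : ℕ, ∀ n : ℕ, 1 ≤ n → CN^[l] n = 1 → Bas n := by
  intro l
  induction l using Nat.strong_induction_on with
  | _ l ih =>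
    intro n hn hl
    rcases l with _ | l
    · exact ⟨0, hl⟩
    rw [Function.iterate_succ_apply] at hl
    rcases Nat.mod_two_eq_zero_or_one n with hp | hp
    · have hC : CN n = TN n := by simp [CN, TN, hp]
      rw [hC, TN_eq_Tn] at hl
      exact (Bas_inv n).2 (ih l (by omega) _ (Tn_pos hn) hl)
    · have hC : CN n = 3 * n + 1 := by simp [CN, hp]
      have hC2 : CN (3 * n + 1) = TN n := by
        have h3 : TN n = (3 * n + 1) / 2 := Pool.Agent.H363R2.TN_odd hp
        rw [h3]; simp only [CN]; rw [if_pos (by omega)]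
      rw [hC] at hl
      rcases l with _ | l
      · simp at hl; omega
      rw [Function.iterate_succ_apply, hC2, TN_eq_Tn] at hl
      exact (Bas_inv n).2 (ih l (by omega) _ (Tn_pos hn) hl)

/-- the Collatz total stopping time of almost all `n` of the basin -/
theorem bas_C {δ : ℝ} (hδ : Dn Bas δ) {ε : ℝ} (hε : 0 < ε) :
    Dn (fun n : ℕ => ∃ l : ℕ, CN^[l] n = 1 ∧ (∀ j < l, CN^[j] n ≠ 1) ∧ l ≤ n ∧
      |(l : ℝ) - 3 / Real.log (4 / 3) * Real.log n| ≤ ε * Real.log n) δ := by
  have hprof := bas_profile hδ (ε := ε / 8) (by positivity)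
  obtain ⟨L0, hL0⟩ := oc_close (ε := ε / 2) (by positivity)
  obtain ⟨z0, hz0, hz⟩ := Pool.Agent.H363R2.log_le_large (3 / Real.log (4 / 3) + ε)
  have hE := zd_or (zd_log L0) (zd_bdd z0) (P := fun n : ℕ => Real.log n ≤ L0 ∨ (n : ℝ) ≤ z0)
    (fun n _ h => h)
  refine dn_bas hδ (fun n hn ⟨l, hl, _⟩ => bas_of_CN l n hn hl) ?_
  · refine zd_or (bas_zd hδ (fun n _ ⟨t, ht, _⟩ => ⟨t, ht⟩) hprof) hE fun n hn ⟨hb, hq⟩ => ?_
    by_contra hcon
    push Not at hcon
    obtain ⟨hcon, hcon2, hcon3⟩ := hcon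
    obtain ⟨t, ht, hmin, h1, _⟩ := hcon hb
    rw [← TN_eq_Tn] at ht hmin
    have h2 := hL0 n t hn ht hmin (h1.trans_eq (by ring)) hcon2.le
    have h3 := CN_run t n hn ht hmin
    have hlog : 0 ≤ Real.log (n : ℝ) := Real.log_natCast_nonneg n
    have h4 : |((t + oc t n : ℕ) : ℝ) - 3 / Real.log (4 / 3) * Real.log n| ≤ ε * Real.log n := by
      push_cast
      have e : (t : ℝ) + oc t n - 3 / Real.log (4 / 3) * Real.log n
          = (t - 2 / Real.log (4 / 3) * Real.log n) + (oc t n - 1 / Real.log (4 / 3) * Real.log n) := by ring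
      rw [e]
      refine (abs_add_le _ _).trans ?_
      have : 0 ≤ ε * Real.log n := by positivity
      linarith
    refine hq ⟨t + oc t n, h3.1, h3.2, ?_, h4⟩
    have h5 := hz n hcon3.le
    have h6 := (abs_le.1 h4).2
    have h7 : ((t + oc t n : ℕ) : ℝ) ≤ n := by linarith
    exact_mod_cast h7

end Pool.Agent.H499R2.ND
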