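import Pool.Agent.H499R2.NDMean
import Pool.Agent.H397R2.RSer

/-! Natural density in residue classes, for 0-1 sequences. -/

set_option autoImplicit false

namespace Pool.Agent.H499R2.ND

open Pool.Agent.H320R2.PD Finset Filter Topology

/-- a property of `n` which almost always agrees with that of `n+1`, and has natural density `δ`,
has density `δ/q` in every class mod `q` -/
theorem prog_density {P : ℕ → Prop} {δ : ℝ} (hδ : Tendsto (fun N : ℕ => cnt P N / N) atTop (𝓝 δ))
    (hE : Tendsto (fun N : ℕ => cnt (fun n => ¬ (P n ↔ P (n + 1))) N / N) atTop (𝓝 0)) {q : ℕ} (hq : 0 < q)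
    (b : ℕ) : Tendsto (fun N : ℕ => cnt (fun n => n % q = b % q ∧ P n) N / N) atTop (𝓝 (δ / q)) := by
  classical
  have hstep : ∀ b N : ℕ, cnt (fun n => n % q = b % q ∧ P n) N
      ≤ cnt (fun n => n % q = (b + 1) % q ∧ P n) N + (cnt (fun n => ¬ (P n ↔ P (n + 1))) N + 1) := by
    intro b N
    rw [cnt_eq, cnt_eq, cnt_eq]
    have hsub : (Icc 1 N).filter (fun n => n % q = b % q ∧ P n)
        ⊆ ((Icc 1 N).filter (fun n => n % q = b % q ∧ P n ∧ P (n + 1) ∧ n < N))
          ∪ ((Icc 1 N).filter (fun n => ¬ (P n ↔ P (n + 1))) ∪ {N}) := by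
      intro n hn
      rw [mem_filter, mem_Icc] at hn
      rw [mem_union, mem_union, mem_filter, mem_filter, mem_Icc, mem_singleton]
      by_cases h1 : n = N
      · exact Or.inr (Or.inr h1)
      · by_cases h2 : P (n + 1)
        · exact Or.inl ⟨hn.1, hn.2.1, hn.2.2, h2, by omega⟩
        · exact Or.inr (Or.inl ⟨hn.1, fun h => h2 (h.1 hn.2.2)⟩)
    have h1 := (card_le_card hsub).trans ((card_union_le _ _).trans
      (Nat.add_le_add_left (card_union_le _ _) _))
    rw [card_singleton] at h1
    have h2 : ((Icc 1 N).filter (fun n => n % q = b % q ∧ P n ∧ P (n + 1) ∧ n < N)).card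
        ≤ ((Icc 1 N).filter (fun n => n % q = (b + 1) % q ∧ P n)).card := by
      apply card_le_card_of_injOn (fun n => n + 1)
      · intro n hn
        rw [mem_coe, mem_filter, mem_Icc] at hn
        rw [mem_coe, mem_filter, mem_Icc]
        beta_reduce
        refine ⟨⟨by omega, by omega⟩, ?_, hn.2.2.2.1⟩
        exact Nat.ModEq.add_right 1 hn.2.1
      · intro x _ y _ h
        simpa using h
    have h3 : (((Icc 1 N).filter (fun n => n % q = b % q ∧ P n)).card : ℝ)
        ≤ ((Icc 1 N).filter (fun n => n % q = b % q ∧ P n ∧ P (n + 1) ∧ n < N)).card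
          + (((Icc 1 N).filter (fun n => ¬ (P n ↔ P (n + 1)))).card + 1) := by exact_mod_cast h1
    have h4 : (((Icc 1 N).filter (fun n => n % q = b % q ∧ P n ∧ P (n + 1) ∧ n < N)).card : ℝ)
        ≤ ((Icc 1 N).filter (fun n => n % q = (b + 1) % q ∧ P n)).card := by exact_mod_cast h2
    linarith
  have hsteps : ∀ (j b N : ℕ), cnt (fun n => n % q = b % q ∧ P n) N
      ≤ cnt (fun n => n % q = (b + j) % q ∧ P n) N + j * (cnt (fun n => ¬ (P n ↔ P (n + 1))) N + 1) := by
    intro j
    induction j with
    | zero => intro b N; simp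
    | succ j ih =>
      intro b N
      have h1 := ih b N
      have h2 := hstep (b + j) N
      rw [add_assoc b j 1] at h2
      push_cast
      linarith
  have hsum : ∀ N : ℕ, ∑ c ∈ range q, cnt (fun n => n % q = (b + c) % q ∧ P n) N = cnt P N := by
    intro N
    rw [cnt_eq]
    have h1 : ∀ c ∈ range q, cnt (fun n => n % q = (b + c) % q ∧ P n) N
        = ((((Icc 1 N).filter P).filter (fun n => n % q = (b + c) % q)).card : ℝ) := by
      intro c _
      rw [cnt_eq, filter_filter]
      congr 2
      ext n
      rw [mem_filter, mem_filter]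
      tauto
    rw [sum_congr rfl h1, ← Nat.cast_sum]
    congr 1
    have h2 : ∀ c ∈ range q, (((Icc 1 N).filter P).filter (fun n => n % q = (b + c) % q)).card
        = (((Icc 1 N).filter P).filter (fun n => (n + (q - b % q)) % q = c)).card := by
      intro c hc
      rw [mem_range] at hc
      congr 1
      ext n
      rw [mem_filter, mem_filter (s := (Icc 1 N).filter P)]
      apply and_congr Iff.rfl
      have hb := Nat.mod_lt b hq
      have hn := Nat.mod_lt n hq
      have e1 : (b + c) % q = (b % q + c) % q := by rw [Nat.add_mod, Nat.mod_eq_of_lt hc]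
      have e2 : (n + (q - b % q)) % q = (n % q + (q - b % q)) % q := by rw [Nat.mod_add_mod]
      rw [e1, e2]
      constructor
      · intro h
        rw [h, Nat.mod_add_mod]
        rw [show b % q + c + (q - b % q) = c + q by omega, Nat.add_mod_right, Nat.mod_eq_of_lt hc]
      · intro h
        rw [← h, Nat.add_mod_mod, show b % q + (n % q + (q - b % q)) = n % q + q by omega,
          Nat.add_mod_right, Nat.mod_mod]
    rw [sum_congr rfl h2]
    exact (card_eq_sum_card_fiberwise (fun n _ => mem_coe.2 (mem_range.2 (Nat.mod_lt _ hq)))).symm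
  -- two-sided bounds
  have hup : ∀ N : ℕ, q * cnt (fun n => n % q = b % q ∧ P n) N
      ≤ cnt P N + q * (q * (cnt (fun n => ¬ (P n ↔ P (n + 1))) N + 1)) := by
    intro N
    rw [← hsum N]
    have : ∀ c ∈ range q, cnt (fun n => n % q = b % q ∧ P n) N
        ≤ cnt (fun n => n % q = (b + c) % q ∧ P n) N + q * (cnt (fun n => ¬ (P n ↔ P (n + 1))) N + 1) := by
      intro c hc
      refine (hsteps c b N).trans ?_
      apply add_le_add_right
      apply mul_le_mul_of_nonneg_right _ (by unfold cnt; positivity)
      exact_mod_cast (mem_range.1 hc).le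
    have h2 := sum_le_sum this
    rw [sum_const, card_range, nsmul_eq_mul, sum_add_distrib, sum_const, card_range, nsmul_eq_mul] at h2
    exact h2
  have hlo : ∀ N : ℕ, cnt P N - q * (q * (cnt (fun n => ¬ (P n ↔ P (n + 1))) N + 1))
      ≤ q * cnt (fun n => n % q = b % q ∧ P n) N := by
    intro N
    rw [← hsum N]
    have : ∀ c ∈ range q, cnt (fun n => n % q = (b + c) % q ∧ P n) N
        ≤ cnt (fun n => n % q = b % q ∧ P n) N + q * (cnt (fun n => ¬ (P n ↔ P (n + 1))) N + 1) := by
      intro c hc
      have h1 := hsteps (q - c) (b + c) N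
      have hcq := mem_range.1 hc
      have e : (b + c + (q - c)) % q = b % q := by
        rw [show b + c + (q - c) = b + q by omega, Nat.add_mod_right]
      rw [e] at h1
      refine h1.trans ?_
      apply add_le_add_right
      apply mul_le_mul_of_nonneg_right _ (by unfold cnt; positivity)
      exact_mod_cast Nat.sub_le q c
    have h2 := sum_le_sum this
    rw [sum_add_distrib, sum_const, card_range, nsmul_eq_mul, sum_const, card_range, nsmul_eq_mul] at h2
    linarith
  have hqR : (0 : ℝ) < q := by exact_mod_cast hq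
  have herr : Tendsto (fun N : ℕ => q * (cnt (fun n => ¬ (P n ↔ P (n + 1))) N / N + 1 / (N : ℝ))) atTop (𝓝 0) := by
    have := (hE.add tendsto_one_div_atTop_nhds_zero_nat).const_mul (q : ℝ)
    simpa using this
  have hmain : Tendsto (fun N : ℕ => cnt P N / N / q) atTop (𝓝 (δ / q)) := hδ.div_const _
  have hl := hmain.sub herr
  have hu := hmain.add herr
  rw [sub_zero] at hl
  rw [add_zero] at hu
  apply tendsto_of_tendsto_of_tendsto_of_le_of_le' hl hu
  · filter_upwards [eventually_gt_atTop 0] with N hN
    have hNR : (0 : ℝ) < N := by exact_mod_cast hN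
    have := hlo N
    rw [← sub_nonneg] at this ⊢
    have e : cnt (fun n => n % q = b % q ∧ P n) N / N - (cnt P N / N / q
        - q * (cnt (fun n => ¬ (P n ↔ P (n + 1))) N / N + 1 / (N : ℝ)))
        = (q * cnt (fun n => n % q = b % q ∧ P n) N
          - (cnt P N - q * (q * (cnt (fun n => ¬ (P n ↔ P (n + 1))) N + 1)))) / (q * N) := by
      field_simp
    rw [e]
    exact div_nonneg this (by positivity)
  · filter_upwards [eventually_gt_atTop 0] with N hN
    have hNR : (0 : ℝ) < N := by exact_mod_cast hN
    have := hup N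
    rw [← sub_nonneg] at this ⊢
    have e : (cnt P N / N / q
        + q * (cnt (fun n => ¬ (P n ↔ P (n + 1))) N / N + 1 / (N : ℝ)))
        - cnt (fun n => n % q = b % q ∧ P n) N / N
        = ((cnt P N + q * (q * (cnt (fun n => ¬ (P n ↔ P (n + 1))) N + 1)))
          - q * cnt (fun n => n % q = b % q ∧ P n) N) / (q * N) := by
      field_simp
    rw [e]
    exact div_nonneg this (by positivity)

end Pool.Agent.H499R2.ND
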