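import Pool.Agent.H499R2.NDCol
import Pool.Agent.H499R2.NDProg
import Pool.Agent.H397R2.Inv

/-! Natural density: heights, and truncated averages. -/

set_option autoImplicit false

namespace Pool.Agent.H499R2.ND

open Pool.Agent.H320R2.PD Finset Filter Topology

open Pool.Agent.H363R2 (oc oc_bounds TN CN Cm Cm_height)

/-- invariant properties agree at `n` and `n+1`, for almost all `n` -/
theorem inv_next {P : ℕ → Prop} (hP : ∀ n, P n ↔ P (Tn n)) : Dn (fun n => ¬ (P n ↔ P (n + 1))) 0 := by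
  have hc : Pool.Agent.H397R2.CInv P := by
    refine ⟨fun n => ?_, fun n => ?_⟩
    · have h := hP (2 * n)
      have e : Tn (2 * n) = n := by simp only [Tn]; rw [if_pos (by omega)]; omega
      rw [e] at h
      exact propext h
    · have h := hP (2 * n + 1)
      have e : Tn (2 * n + 1) = 3 * n + 2 := by simp only [Tn]; rw [if_neg (by omega)]; omega
      rw [e] at h
      exact propext h.symm
  rw [zd_iff]
  intro ε hε
  obtain ⟨N0, hN0⟩ := hc.zd ε hε
  filter_upwards [eventually_ge_atTop N0] with N hN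
  refine le_trans ?_ (hN0 N hN)
  unfold cnt
  have e : {n : ℕ | 1 ≤ n ∧ n ≤ N ∧ ¬ (P n ↔ P (n + 1))} = {n | P n ≠ P (n + 1)} ∩ Set.Icc 1 N := by
    ext n
    constructor
    · rintro ⟨h1, h2, h3⟩
      exact ⟨fun h => h3 (by rw [h]), h1, h2⟩
    · rintro ⟨h1, h2, h3⟩
      exact ⟨h2, h3, fun h => h1 (propext h)⟩
  rw [e]

/-- an invariant property is equidistributed in the residue classes -/
theorem inv_prog {P : ℕ → Prop} {δ : ℝ} (hP : ∀ n, P n ↔ P (Tn n)) (hδ : Dn P δ) {q : ℕ} (hq : 0 < q)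
    (b : ℕ) : Dn (fun n => n % q = b % q ∧ P n) (δ / q) :=
  prog_density hδ (inv_next hP) hq b

theorem odd_density : Dn (fun n : ℕ => n % 2 = 1) (1 / 2) := by
  have h := inv_prog (P := fun _ => True) (δ := 1) (fun n => Iff.rfl) (by
    unfold Dn
    refine (tendsto_const_nhds (x := (1 : ℝ))).congr' ?_
    filter_upwards [eventually_gt_atTop 0] with N hN
    rw [cnt_eq, filter_true_of_mem (fun _ _ => trivial), Nat.card_Icc, Nat.add_sub_cancel]
    have : (N : ℝ) ≠ 0 := by exact_mod_cast hN.ne'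
    rw [div_self this]) (q := 2) (by norm_num) 1
  have e : (fun n : ℕ => n % 2 = 1 % 2 ∧ True) = (fun n : ℕ => n % 2 = 1) := by
    funext n; simp
  rw [e] at h
  exact_mod_cast h

/-- TRUNCATED AVERAGES -/
theorem trunc_avg {δ c Λ : ℝ} (hc : 0 < c) (hΛ : c < Λ) {B : ℕ → Prop} {H : ℕ → ℕ → Prop}
    {f : ℕ → ℕ → ℕ} (hB : Dn (fun m => m % 2 = 1 ∧ B m) (δ / 2))
    (hE : ∀ ε : ℝ, 0 < ε → Dn (fun m => m % 2 = 1 ∧ B m ∧
      ¬ ∃ h : ℕ, H m h ∧ |(h : ℝ) - c * Real.log m| ≤ ε * Real.log m) 0)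
    (hf1 : ∀ m h L, m % 2 = 1 → H m h → f m L = min h L)
    (hf2 : ∀ m L, m % 2 = 1 → ¬ B m → f m L = L) (hf3 : ∀ m L, f m L ≤ L) :
    Tendsto (fun N : ℕ => (2 / (N : ℝ) * ∑ m ∈ (Icc 1 N).filter (fun m => m % 2 = 1),
      (f m ⌊Λ * Real.log N⌋₊ : ℝ)) / Real.log N) atTop (𝓝 (δ * c + (1 - δ) * Λ)) := by
  classical
  have hΛ0 : 0 < Λ := hc.trans hΛ
  -- the model sum
  have hodd := odd_density
  set g : ℕ → ℝ := fun m => if B m then c else Λ with hg
  have hmodel : Tendsto (fun N : ℕ => 2 / (N : ℝ) * ∑ m ∈ (Icc 1 N).filter (fun m => m % 2 = 1), g m)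
      atTop (𝓝 (δ * c + (1 - δ) * Λ)) := by
    have h1 := (hB.mul_const (2 * (c - Λ))).add (hodd.mul_const (2 * Λ))
    have e : δ / 2 * (2 * (c - Λ)) + 1 / 2 * (2 * Λ) = δ * c + (1 - δ) * Λ := by ring
    rw [e] at h1
    refine h1.congr fun N => ?_
    have e2 : ∑ m ∈ (Icc 1 N).filter (fun m => m % 2 = 1), g m
        = cnt (fun m => m % 2 = 1 ∧ B m) N * (c - Λ) + cnt (fun m => m % 2 = 1) N * Λ := by
      have e3 : ∀ m, g m = (if B m then (c - Λ) else 0) + Λ := by
        intro m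
        simp only [hg]
        split_ifs <;> ring
      rw [sum_congr rfl (fun m _ => e3 m), sum_add_distrib, ← sum_filter, sum_const, sum_const,
        filter_filter, cnt_eq, cnt_eq, nsmul_eq_mul, nsmul_eq_mul]
    rw [e2]; ring
  -- the difference
  have hdiff : Tendsto (fun N : ℕ => (2 / (N : ℝ) * ∑ m ∈ (Icc 1 N).filter (fun m => m % 2 = 1),
      (f m ⌊Λ * Real.log N⌋₊ : ℝ)) / Real.log N
      - 2 / (N : ℝ) * ∑ m ∈ (Icc 1 N).filter (fun m => m % 2 = 1), g m) atTop (𝓝 0) := by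
    rw [Metric.tendsto_atTop]
    intro ε hε
    -- parameters
    set η : ℝ := min (ε / (16 * Λ)) 1 with hη
    have hη0 : 0 < η := lt_min (by positivity) (by norm_num)
    have hη1 : η * (16 * Λ) ≤ ε := by
      have := min_le_left (ε / (16 * Λ)) 1
      rw [← hη, le_div_iff₀ (by positivity)] at this
      exact this
    set ε1 : ℝ := min (ε / 16) ((Λ - c) / 4) with hε1
    have hε10 : 0 < ε1 := lt_min (by positivity) (by linarith)
    have hε11 : ε1 ≤ ε / 16 := min_le_left _ _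
    have hε12 : ε1 ≤ (Λ - c) / 4 := min_le_right _ _
    have hE1 := zd_iff.1 (hE ε1 hε10) η hη0
    have hlogN : Tendsto (fun N : ℕ => Real.log (N : ℝ)) atTop atTop :=
      Real.tendsto_log_atTop.comp tendsto_natCast_atTop_atTop
    have hev := hE1.and ((hlogN.eventually_ge_atTop (max 1 (max (-(c * Real.log η) / ε1) (1 / ε1)))).and
      (eventually_gt_atTop 0))
    obtain ⟨N0, hN0⟩ := eventually_atTop.1 hev
    refine ⟨N0, fun N hN => ?_⟩
    obtain ⟨h1, h2, h3⟩ := hN0 N hN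
    have hNR : (0 : ℝ) < N := by exact_mod_cast h3
    set L := Real.log (N : ℝ) with hL
    have hL1 : 1 ≤ L := (le_max_left _ _).trans h2
    have hL2 : -(c * Real.log η) ≤ ε1 * L := by
      have := (le_max_left _ _).trans ((le_max_right _ _).trans h2)
      rw [div_le_iff₀ hε10] at this
      linarith
    have hL3 : 1 ≤ ε1 * L := by
      have := (le_max_right _ _).trans ((le_max_right _ _).trans h2)
      rw [div_le_iff₀ hε10] at this
      linarith
    have hL0 : 0 < L := by linarith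
    have hfl1 : (⌊Λ * L⌋₊ : ℝ) ≤ Λ * L := Nat.floor_le (by positivity)
    have hfl2 : Λ * L - 1 < (⌊Λ * L⌋₊ : ℝ) := by
      have := Nat.lt_floor_add_one (Λ * L)
      linarith
    -- pointwise bound
    set Ex : ℕ → Prop := fun m => (m : ℝ) ≤ η * N ∨ (m % 2 = 1 ∧ B m ∧
      ¬ ∃ h : ℕ, H m h ∧ |(h : ℝ) - c * Real.log m| ≤ ε1 * Real.log m) with hEx
    have hpt : ∀ m ∈ (Icc 1 N).filter (fun m => m % 2 = 1),
        |(f m ⌊Λ * L⌋₊ : ℝ) - g m * L| ≤ 2 * ε1 * L + (if Ex m then Λ * L else 0) := by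
      intro m hm
      rw [mem_filter, mem_Icc] at hm
      obtain ⟨⟨hm1, hmN⟩, hmo⟩ := hm
      have hmR : (0 : ℝ) < m := by exact_mod_cast hm1
      have hfL : (f m ⌊Λ * L⌋₊ : ℝ) ≤ Λ * L := le_trans (by exact_mod_cast hf3 m _) hfl1
      have hf0 : (0 : ℝ) ≤ (f m ⌊Λ * L⌋₊ : ℝ) := Nat.cast_nonneg _
      have hε1L : 0 ≤ ε1 * L := by positivity
      by_cases hex : Ex m
      · rw [if_pos hex]
        have hgm : 0 ≤ g m * L ∧ g m * L ≤ Λ * L := by
          have : 0 ≤ g m ∧ g m ≤ Λ := by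
            simp only [hg]; split_ifs
            · exact ⟨hc.le, hΛ.le⟩
            · exact ⟨hΛ0.le, le_rfl⟩
          exact ⟨mul_nonneg this.1 hL0.le, mul_le_mul_of_nonneg_right this.2 hL0.le⟩
        rw [abs_le]; constructor <;> linarith [hgm.1, hgm.2]
      · rw [if_neg hex, add_zero]
        simp only [hEx, not_or, not_le] at hex
        obtain ⟨hmη, hex2⟩ := hex
        by_cases hBm : B m
        · have h4 : ∃ h : ℕ, H m h ∧ |(h : ℝ) - c * Real.log m| ≤ ε1 * Real.log m := by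
            by_contra hcon
            exact hex2 ⟨hmo, hBm, hcon⟩
          obtain ⟨h, hH, h5⟩ := h4
          have hlm : Real.log m ≤ L := Real.log_le_log hmR (by exact_mod_cast hmN)
          have hlm2 : Real.log η + L ≤ Real.log m := by
            rw [hL, ← Real.log_mul hη0.ne' hNR.ne']
            exact Real.log_le_log (by positivity) hmη.le
          have h6 := abs_le.1 h5
          have h7 : ε1 * Real.log m ≤ ε1 * L := mul_le_mul_of_nonneg_left hlm hε10.le
          have h8 : c * Real.log m ≤ c * L := mul_le_mul_of_nonneg_left hlm hc.le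
          have h9 : c * (Real.log η + L) ≤ c * Real.log m := mul_le_mul_of_nonneg_left hlm2 hc.le
          have h10 : (h : ℝ) ≤ c * L + ε1 * L := by linarith
          have h11 : c * L - 2 * (ε1 * L) ≤ (h : ℝ) := by nlinarith
          have h12 : ε1 * L ≤ (Λ - c) / 4 * L := mul_le_mul_of_nonneg_right hε12 hL0.le
          have h13 : (h : ℝ) ≤ ⌊Λ * L⌋₊ := by nlinarith
          have h14 : h ≤ ⌊Λ * L⌋₊ := by exact_mod_cast h13
          rw [hf1 m h _ hmo hH, min_eq_left h14]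
          simp only [hg, if_pos hBm]
          rw [abs_le]; constructor <;> linarith
        · rw [hf2 m _ hmo hBm]
          simp only [hg, if_neg hBm]
          rw [abs_le]; constructor <;> linarith
    -- summation
    have hsum : |∑ m ∈ (Icc 1 N).filter (fun m => m % 2 = 1), (f m ⌊Λ * L⌋₊ : ℝ)
        - L * ∑ m ∈ (Icc 1 N).filter (fun m => m % 2 = 1), g m| ≤ N * (2 * ε1 * L) + 2 * (η * N) * (Λ * L) := by
      rw [mul_sum, ← sum_sub_distrib]
      refine (abs_sum_le_sum_abs _ _).trans ?_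
      have hpt' : ∀ m ∈ (Icc 1 N).filter (fun m => m % 2 = 1),
          |(f m ⌊Λ * L⌋₊ : ℝ) - L * g m| ≤ 2 * ε1 * L + (if Ex m then Λ * L else 0) := by
        intro m hm
        rw [mul_comm L (g m)]
        exact hpt m hm
      refine (sum_le_sum hpt').trans ?_
      rw [sum_add_distrib, sum_const, nsmul_eq_mul]
      have h4 : (((Icc 1 N).filter (fun m => m % 2 = 1)).card : ℝ) ≤ N := by
        have := card_filter_le (Icc 1 N) (fun m => m % 2 = 1)
        rw [Nat.card_Icc, Nat.add_sub_cancel] at this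
        exact_mod_cast this
      have h5 : ∑ m ∈ (Icc 1 N).filter (fun m => m % 2 = 1), (if Ex m then Λ * L else 0)
          ≤ 2 * (η * N) * (Λ * L) := by
        rw [← sum_filter, sum_const, nsmul_eq_mul]
        apply mul_le_mul_of_nonneg_right _ (by positivity)
        have h6 : (((Icc 1 N).filter (fun m => m % 2 = 1)).filter Ex).card ≤ ((Icc 1 N).filter Ex).card := by
          apply card_le_card
          intro m hm
          rw [mem_filter, mem_filter] at hm
          rw [mem_filter]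
          exact ⟨hm.1.1, hm.2⟩
        have h7 : cnt Ex N ≤ cnt (fun m => (m : ℝ) ≤ η * N) N + cnt (fun m => m % 2 = 1 ∧ B m ∧
            ¬ ∃ h : ℕ, H m h ∧ |(h : ℝ) - c * Real.log m| ≤ ε1 * Real.log m) N :=
          cnt_or N fun m _ _ h => h
        have h8 := cnt_small (t := η * N) (by positivity) N
        rw [cnt_eq] at h7
        have h9 : ((((Icc 1 N).filter (fun m => m % 2 = 1)).filter Ex).card : ℝ)
            ≤ (((Icc 1 N).filter Ex).card : ℝ) := by exact_mod_cast h6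
        linarith
      have h6 : (((Icc 1 N).filter (fun m => m % 2 = 1)).card : ℝ) * (2 * ε1 * L) ≤ N * (2 * ε1 * L) :=
        mul_le_mul_of_nonneg_right h4 (by positivity)
      linarith
    rw [Real.dist_eq, sub_zero]
    have e : (2 / (N : ℝ) * ∑ m ∈ (Icc 1 N).filter (fun m => m % 2 = 1), (f m ⌊Λ * L⌋₊ : ℝ)) / L
        - 2 / (N : ℝ) * ∑ m ∈ (Icc 1 N).filter (fun m => m % 2 = 1), g m
        = 2 / (N * L) * (∑ m ∈ (Icc 1 N).filter (fun m => m % 2 = 1), (f m ⌊Λ * L⌋₊ : ℝ)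
        - L * ∑ m ∈ (Icc 1 N).filter (fun m => m % 2 = 1), g m) := by
      field_simp
    rw [e, abs_mul, abs_of_pos (show 0 < 2 / (N * L) by positivity)]
    calc 2 / (N * L) * |∑ m ∈ (Icc 1 N).filter (fun m => m % 2 = 1), (f m ⌊Λ * L⌋₊ : ℝ)
        - L * ∑ m ∈ (Icc 1 N).filter (fun m => m % 2 = 1), g m|
        ≤ 2 / (N * L) * (N * (2 * ε1 * L) + 2 * (η * N) * (Λ * L)) :=
          mul_le_mul_of_nonneg_left hsum (by positivity)
      _ = 4 * ε1 + 4 * (η * Λ) := by field_simp; ring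
      _ < ε := by linarith
  have := hdiff.add hmodel
  rw [zero_add] at this
  refine this.congr fun N => by ring

/-! ### heights -/

/-- `h` is the height of the odd number `m` -/
def IsHt (m h : ℕ) : Prop := 1 ≤ h ∧ Cm^[h] m = 1 ∧ ∀ k, 1 ≤ k → k < h → Cm^[k] m ≠ 1

theorem Bas_two (n : ℕ) : Bas (2 * n) ↔ Bas n := by
  have h := Bas_inv (2 * n)
  have e : Tn (2 * n) = n := by simp only [Tn]; rw [if_pos (by omega)]; omega
  rwa [e] at h

theorem Bas_two_pow (f n : ℕ) : Bas (2 ^ f * n) ↔ Bas n := by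
  induction f with
  | zero => simp
  | succ f ih => rw [pow_succ', mul_assoc, Bas_two, ih]

theorem Cm_odd {m : ℕ} (hm : Odd m) : Odd (Cm m) ∧ (Bas m ↔ Bas (Cm m)) := by
  obtain ⟨e, q, hq, he⟩ := Nat.exists_eq_two_pow_mul_odd (n := 3 * m + 1) (by omega)
  have hv : padicValNat 2 (3 * m + 1) = e := by
    rw [he, padicValNat.mul (by positivity) (by rintro rfl; simp at hq), padicValNat.prime_pow,
      padicValNat.eq_zero_of_not_dvd (by rw [← even_iff_two_dvd, Nat.not_even_iff_odd]; exact hq)]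
    rfl
  have hC : Cm m = q := by
    unfold Cm
    rw [hv]
    conv_lhs => rw [he]
    exact Nat.mul_div_cancel_left _ (by positivity)
  have hm2 : m % 2 = 1 := Nat.odd_iff.1 hm
  have hq2 : q % 2 = 1 := Nat.odd_iff.1 hq
  have he1 : 1 ≤ e := by
    by_contra h0
    have h0 : e = 0 := by omega
    rw [h0, pow_zero, one_mul] at he
    omega
  obtain ⟨f, rfl⟩ := Nat.exists_eq_add_of_le he1
  have h1 : Tn m = 2 ^ f * q := by
    have h3 : Tn m = (3 * m + 1) / 2 := by simp only [Tn]; rw [if_neg (by omega)]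
    rw [h3]
    have h2 : 2 ^ (1 + f) * q = 2 * (2 ^ f * q) := by ring
    omega
  rw [hC]
  refine ⟨hq, ?_⟩
  rw [Bas_inv, h1, Bas_two_pow]

theorem Bas_of_Cm : ∀ h m : ℕ, Odd m → Cm^[h] m = 1 → Bas m := by
  intro h
  induction h with
  | zero => intro m _ h; exact ⟨0, h⟩
  | succ h ih =>
    intro m hm h1
    rw [Function.iterate_succ_apply] at h1
    exact (Cm_odd hm).2.2 (ih _ (Cm_odd hm).1 h1)

theorem ht_iff {m : ℕ} (hm : Odd m) : Bas m ↔ ∃ h, IsHt m h := by
  constructor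
  · intro hb
    by_cases h1 : m = 1
    · subst h1
      refine ⟨1, le_rfl, ?_, fun k h1 h2 => by omega⟩
      have e : padicValNat 2 4 = 2 := by
        rw [show (4 : ℕ) = 2 ^ 2 by norm_num, padicValNat.prime_pow]
      show (3 * 1 + 1) / 2 ^ padicValNat 2 (3 * 1 + 1) = 1
      rw [show 3 * 1 + 1 = 4 by norm_num, e]
      norm_num
    · have hb' : ∃ k, TN^[k] m = 1 := hb
      exact ⟨_, Cm_height (Nat.find hb') m hm h1 (Nat.find_spec hb') (fun j hj => Nat.find_min hb' hj)⟩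
  · rintro ⟨h, _, h1, _⟩
    exact Bas_of_Cm h m hm h1

theorem ht_unique {m h h' : ℕ} (h1 : IsHt m h) (h2 : IsHt m h') : h = h' := by
  rcases lt_trichotomy h h' with h3 | h3 | h3
  · exact absurd h1.2.1 (h2.2.2 h h1.1 h3)
  · exact h3
  · exact absurd h2.2.1 (h1.2.2 h' h2.1 h3)

/-- the heights of almost all odd `m` of the basin -/
theorem ht_zd {δ : ℝ} (hδ : Dn Bas δ) {ε : ℝ} (hε : 0 < ε) : Dn (fun m => m % 2 = 1 ∧ Bas m ∧
    ¬ ∃ h : ℕ, IsHt m h ∧ |(h : ℝ) - 1 / Real.log (4 / 3) * Real.log m| ≤ ε * Real.log m) 0 := by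
  have hprof := bas_profile hδ (ε := ε / 4) (by positivity)
  obtain ⟨L0, hL0⟩ := oc_close hε
  refine zd_or (bas_zd hδ (fun n _ ⟨t, ht, _⟩ => ⟨t, ht⟩) hprof)
    (zd_or (zd_log L0) (zd_bdd 1) (P := fun n : ℕ => Real.log n ≤ L0 ∨ (n : ℝ) ≤ 1) (fun n _ h => h))
    fun m hm ⟨hmo, hb, hq⟩ => ?_
  by_contra hcon
  push Not at hcon
  obtain ⟨hcon, hcon2, hcon3⟩ := hcon
  obtain ⟨t, ht, hmin, h1, _⟩ := hcon hb
  rw [← TN_eq_Tn] at ht hmin
  have hm1 : m ≠ 1 := by
    rintro rfl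
    simp at hcon3
  exact hq ⟨oc t m, Cm_height t m (Nat.odd_iff.2 hmo) hm1 ht hmin, hL0 m t hm ht hmin h1 hcon2.le⟩

theorem bas_all_iff : (∀ n : ℕ, 1 ≤ n → Bas n) ↔ ∀ m : ℕ, Odd m → ∃ h, IsHt m h := by
  constructor
  · intro h m hm
    exact (ht_iff hm).1 (h m hm.pos)
  · intro h n hn
    obtain ⟨e, q, hq, rfl⟩ := Nat.exists_eq_two_pow_mul_odd (n := n) (by omega)
    rw [Bas_two_pow]
    exact (ht_iff hq).2 (h q hq)

end Pool.Agent.H499R2.ND
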