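import Pool.Agent.H499R2.NDExc2

/-! Parity words and residues modulo `2^K`. -/

set_option autoImplicit false

namespace Pool.Agent.H499R2.ND

open Pool.Agent.H320R2.PD Finset Filter Topology

open Pool.Agent.Helper894.Collatz (od er)

/-- the parity vector -/
def pv (K n : ℕ) : Fin K → Fin 2 := fun i => ⟨Tn^[(i : ℕ)] n % 2, Nat.mod_lt _ (by norm_num)⟩

theorem parity_mod {i K : ℕ} (hi : i < K) (n : ℕ) : Tn^[i] (n % 2 ^ K) % 2 = Tn^[i] n % 2 := by
  obtain ⟨j, rfl⟩ := Nat.exists_eq_add_of_lt hi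
  have h := (Pool.Agent.Helper894.Collatz.period i (n % 2 ^ (i + j + 1))
    (2 ^ (j + 1) * (n / 2 ^ (i + j + 1)))).1
  rw [← mul_assoc, ← pow_add, ← add_assoc, Nat.mod_add_div, Tn_eq] at h
  rw [h]
  have : 3 ^ od i (n % 2 ^ (i + j + 1)) * (2 ^ (j + 1) * (n / 2 ^ (i + j + 1)))
      = 2 * (3 ^ od i (n % 2 ^ (i + j + 1)) * (2 ^ j * (n / 2 ^ (i + j + 1)))) := by
    rw [pow_succ 2 j]; ring
  rw [this]
  omega

theorem pv_inj (K : ℕ) : ∀ r r' : ℕ, r < 2 ^ K → r' < 2 ^ K →
    (∀ i < K, Tn^[i] r % 2 = Tn^[i] r' % 2) → r = r' := by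
  induction K with
  | zero => intro r r' h h' _; simp at h h'; omega
  | succ K ih =>
    intro r r' h h' hp
    have h1 : r % 2 ^ K = r' % 2 ^ K := by
      apply ih _ _ (Nat.mod_lt _ (by positivity)) (Nat.mod_lt _ (by positivity))
      intro i hi
      rw [parity_mod hi, parity_mod hi]
      exact hp i (by omega)
    have hK : 0 < 2 ^ K := by positivity
    have e2 : 2 ^ (K + 1) = 2 ^ K + 2 ^ K := by ring
    have key : ∀ a : ℕ, a < 2 ^ K → Tn^[K] (a + 2 ^ K) % 2 = Tn^[K] a % 2 → False := by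
      intro a _ h3
      have h4 := Pool.Agent.Helper894.Collatz.flip_parity K a
      rw [Tn_eq] at h4
      have := Nat.mod_lt (Tn^[K] a) (show 2 > 0 by norm_num)
      omega
    have hb : ∀ s : ℕ, s < 2 ^ (K + 1) → (s < 2 ^ K ∧ s % 2 ^ K = s) ∨ (∃ a, a < 2 ^ K ∧ s = a + 2 ^ K ∧ s % 2 ^ K = a) := by
      intro s hs
      rcases Nat.lt_or_ge s (2 ^ K) with h3 | h3
      · exact Or.inl ⟨h3, Nat.mod_eq_of_lt h3⟩
      · refine Or.inr ⟨s - 2 ^ K, by omega, by omega, ?_⟩
        rw [Nat.mod_eq_sub_mod h3, Nat.mod_eq_of_lt (by omega)]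
    have hlast := hp K (by omega)
    rcases hb r h with ⟨h3, h4⟩ | ⟨a, h3, h4, h5⟩
    · rcases hb r' h' with ⟨h6, h7⟩ | ⟨a', h6, h7, h8⟩
      · rw [h4, h7] at h1; exact h1
      · exfalso
        rw [h4, h8] at h1
        subst h1
        rw [h7] at hlast
        exact key r h3 hlast.symm
    · rcases hb r' h' with ⟨h6, h7⟩ | ⟨a', h6, h7, h8⟩
      · exfalso
        rw [h5, h7] at h1
        subst h1
        rw [h4] at hlast
        exact key a h3 hlast
      · rw [h5, h8] at h1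
        rw [h4, h7, h1]

theorem od_pv {k K : ℕ} (hk : k ≤ K) (n : ℕ) :
    ∑ i ∈ univ.filter (fun i : Fin K => (i : ℕ) < k), ((pv K n i : Fin 2) : ℕ) = od k n := by
  unfold od
  rw [Tn_eq]
  rw [Finset.sum_filter]
  have h := Finset.sum_range (n := K) (fun i => if i < k then Tn^[i] n % 2 else 0)
  simp only [pv]
  rw [← h, ← Finset.sum_filter]
  apply Finset.sum_congr
  · ext i
    rw [mem_filter, mem_range, mem_range]
    omega
  · intro i _; rfl

/-- admissible words -/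
def Safe (K : ℕ) (lam : ℝ) (w : Fin K → Fin 2) : Prop :=
  ∀ k, 1 ≤ k → k ≤ K → (3 : ℝ) ^ (∑ i ∈ univ.filter (fun i : Fin K => (i : ℕ) < k), (w i : ℕ)) < lam * 2 ^ k

theorem rK_words (K : ℕ) (lam : ℝ) : rK K lam = (({w : Fin K → Fin 2 | Safe K lam w}.ncard : ℕ) : ℝ) / 2 ^ K := by
  classical
  unfold rK
  congr 2
  have hinj : Set.InjOn (pv K) (range (2 ^ K) : Set ℕ) := by
    intro r hr r' hr' h
    rw [mem_coe, mem_range] at hr hr'
    apply pv_inj K r r' hr hr'
    intro i hi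
    have := congrFun h ⟨i, hi⟩
    simp only [pv, Fin.mk.injEq] at this
    exact this
  have himg : (range (2 ^ K)).image (pv K) = univ := by
    apply Finset.eq_univ_of_card
    rw [card_image_of_injOn hinj, card_range, Fintype.card_fun, Fintype.card_fin, Fintype.card_fin]
  have hset : {w : Fin K → Fin 2 | Safe K lam w} = (((range (2 ^ K)).filter (AK K lam)).image (pv K) : Finset _) := by
    ext w
    rw [Finset.coe_image, Set.mem_image]
    constructor
    · intro hw
      have hw1 : w ∈ (range (2 ^ K)).image (pv K) := by rw [himg]; exact mem_univ _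
      rw [mem_image] at hw1
      obtain ⟨r, hr, rfl⟩ := hw1
      refine ⟨r, ?_, rfl⟩
      rw [mem_coe, mem_filter]
      refine ⟨hr, fun k hk1 hk2 => ?_⟩
      have := hw k hk1 hk2
      rwa [od_pv hk2] at this
    · rintro ⟨r, hr, rfl⟩
      rw [mem_coe, mem_filter] at hr
      intro k hk1 hk2
      rw [od_pv hk2]
      exact hr.2 k hk1 hk2
  rw [hset, Set.ncard_coe_finset, card_image_of_injOn]
  exact hinj.mono fun r hr => mem_coe.2 (mem_filter.1 (mem_coe.1 hr)).1

/-- the density of the bounded orbits -/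
theorem Bdd_density : ∃ β : ℝ, 0 < β ∧ β ≤ 1 ∧ (β = 1 ↔ ∀ n : ℕ, 1 ≤ n → Bdd n) ∧ Dn Bdd β := by
  obtain ⟨l, h0, h1, h2, h3, h4⟩ := nat_density (P := Bdd) fun n _ => Bdd_inv n
  refine ⟨l, h3.2 ⟨1, le_rfl, 2, fun k => ?_⟩, h1, h4, h2⟩
  have : ∀ k : ℕ, Tn^[k] 1 = 1 ∨ Tn^[k] 1 = 2 := by
    intro k
    induction k with
    | zero => left; rfl
    | succ k ih =>
      rw [Function.iterate_succ_apply']
      rcases ih with h | h
      · rw [h]; right; rfl
      · rw [h]; left; rfl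
  rcases this k with h | h <;> omega

end Pool.Agent.H499R2.ND
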