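import Pool.Agent.H499R2.NDHarm2
import Pool.Agent.H499R2.NDHarmLimit

/-! Natural density: invariant sets have a natural density. -/

set_option autoImplicit false

namespace Pool.Agent.H499R2.ND

open Pool.Agent.H320R2.PD Finset

/-- `G S X` = number of positive elements of `S` below `X` -/
noncomputable def G (S : Set ℤ) (X : ℝ) : ℝ := ((pos S X).card : ℝ)

theorem G_mono (S : Set ℤ) : Monotone (G S) := by
  intro X Y h
  unfold G
  have : pos S X ⊆ pos S Y := by
    intro x hx
    rw [mem_pos] at hx ⊢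
    exact ⟨⟨hx.1.1, by linarith [hx.1.2]⟩, hx.2⟩
  exact_mod_cast card_le_card this

theorem G_nonneg (S : Set ℤ) (X : ℝ) : 0 ≤ G S X := Nat.cast_nonneg _

theorem G_win (S : Set ℤ) {a b : ℝ} (ha : 0 < a) (hab : a ≤ b) :
    G S b = G S a + ((wc S a b 1 0).card : ℝ) := by
  classical
  unfold G
  have hdisj : Disjoint (pos S a) (wc S a b 1 0) := by
    rw [Finset.disjoint_left]
    intro x hx hx'
    rw [mem_pos] at hx
    rw [mem_wc] at hx'
    linarith [hx.1.2, hx'.1.1]
  have hun : pos S b = pos S a ∪ wc S a b 1 0 := by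
    ext x
    rw [mem_union, mem_pos, mem_pos, mem_wc]
    constructor
    · rintro ⟨⟨h1, h2⟩, h3⟩
      rcases lt_or_ge (x : ℝ) a with h | h
      · exact Or.inl ⟨⟨h1, h⟩, h3⟩
      · exact Or.inr ⟨⟨h, h2⟩, h3, one_dvd _⟩
    · rintro (⟨⟨h1, h2⟩, h3⟩ | ⟨⟨h1, h2⟩, h3, _⟩)
      · exact ⟨⟨h1, by linarith⟩, h3⟩
      · refine ⟨⟨?_, h2⟩, h3⟩
        have : (0 : ℝ) < x := by linarith
        have : 0 < x := by exact_mod_cast this
        omega
  rw [hun, card_union_of_disjoint hdisj]
  push_cast; ring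

theorem G_diff_le (S : Set ℤ) {a b : ℝ} (ha : 0 < a) (hab : a ≤ b) : G S b - G S a ≤ b - a + 1 := by
  rw [G_win S ha hab]
  have := wc_one_card_le S hab 0
  linarith

/-- normalised window density on the logarithmic scale -/
noncomputable def Fd (S : Set ℤ) (t : ℝ) : ℝ :=
  (G S (2 * Real.exp t) - G S (Real.exp t)) / (3 * Real.exp t)

theorem Fd_meas (S : Set ℤ) : Measurable (Fd S) := by
  unfold Fd
  have hG : Measurable (G S) := (G_mono S).measurable
  apply Measurable.div
  · apply Measurable.sub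
    · exact hG.comp (measurable_const.mul Real.measurable_exp)
    · exact hG.comp Real.measurable_exp
  · exact measurable_const.mul Real.measurable_exp

theorem Fd_nonneg (S : Set ℤ) (t : ℝ) : 0 ≤ Fd S t := by
  unfold Fd
  have he := Real.exp_pos t
  apply div_nonneg _ (by positivity)
  have := G_mono S (by linarith : Real.exp t ≤ 2 * Real.exp t)
  linarith

theorem Fd_le_one (S : Set ℤ) (t : ℝ) : Fd S t ≤ 1 := by
  unfold Fd
  have he := Real.exp_pos t
  rw [div_le_one (by positivity)]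
  rcases le_or_gt (2 * Real.exp t) 1 with h | h
  · have h0 : G S (2 * Real.exp t) = 0 := by
      unfold G
      have : pos S (2 * Real.exp t) = ∅ := by
        rw [Finset.eq_empty_iff_forall_notMem]
        intro x hx
        rw [mem_pos] at hx
        have h1 : (x : ℝ) < 1 := lt_of_lt_of_le hx.1.2 h
        have h3 : x < 1 := by exact_mod_cast h1
        omega
      rw [this]; simp
    have := G_nonneg S (Real.exp t)
    linarith
  · have := G_diff_le S he (by linarith : Real.exp t ≤ 2 * Real.exp t)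
    linarith

theorem Fd_win (S : Set ℤ) (t : ℝ) :
    Fd S t * (3 * Real.exp t) = ((wc S (Real.exp t) (2 * Real.exp t) 1 0).card : ℝ) := by
  have he := Real.exp_pos t
  unfold Fd
  rw [div_mul_cancel₀ _ (by positivity), G_win S he (by linarith)]
  ring

theorem Fd_lip (S : Set ℤ) (t s : ℝ) (ht : 0 ≤ t) (hs : 0 ≤ s) (hs1 : s ≤ 1) :
    |Fd S (t + s) - Fd S t| ≤ 10 * (s + Real.exp (-t)) := by
  have he := Real.exp_pos t
  set A := Real.exp t with hA
  have hA1 : 1 ≤ A := Real.one_le_exp ht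
  set A' := Real.exp (t + s) with hA'
  have hA'e : A' = A * Real.exp s := by rw [hA', Real.exp_add]
  have hexps : Real.exp s ≤ 1 + 2 * s := by
    have h1 := Real.exp_bound' (x := s) hs hs1 (n := 1) (by norm_num)
    simp at h1
    linarith
  have hexps1 : 1 + s ≤ Real.exp s := by linarith [Real.add_one_le_exp s]
  have hAA' : A ≤ A' := by rw [hA'e]; nlinarith
  have hA'le : A' - A ≤ 2 * s * A := by rw [hA'e]; nlinarith
  have hA'pos : 0 < A' := by linarith
  have hneg : Real.exp (-t) = 1 / A := by rw [Real.exp_neg, one_div]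
  unfold Fd
  rw [← hA, ← hA', hneg]
  set g1 := G S (2 * A') - G S A' with hg1
  set g0 := G S (2 * A) - G S A with hg0
  have k1 := G_diff_le S he hAA'
  have k2 := G_diff_le S (by linarith : 0 < 2 * A) (by linarith : 2 * A ≤ 2 * A')
  have k3 := G_mono S hAA'
  have k4 := G_mono S (by linarith : 2 * A ≤ 2 * A')
  have k5 := G_diff_le S hA'pos (by linarith : A' ≤ 2 * A')
  have k6 := G_mono S (by linarith : A' ≤ 2 * A')
  have hdiff : |g1 - g0| ≤ 4 * s * A + 1 := by
    rw [abs_le]; constructor <;> linarith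
  have hg1' : 0 ≤ g1 := by linarith
  have hg1'' : g1 ≤ A' + 1 := by linarith
  -- g1/(3A') - g0/(3A) = (g1 - g0)/(3A) - g1 (1/(3A) - 1/(3A'))
  have hsplit : g1 / (3 * A') - g0 / (3 * A) = (g1 - g0) / (3 * A) - g1 * (A' - A) / (3 * A * A') := by
    field_simp
    ring
  rw [hsplit]
  have p1 : |(g1 - g0) / (3 * A)| ≤ 4 / 3 * s + 1 / (3 * A) := by
    rw [abs_div, abs_of_pos (by positivity : (0 : ℝ) < 3 * A), div_le_iff₀ (by positivity)]
    have : (4 / 3 * s + 1 / (3 * A)) * (3 * A) = 4 * s * A + 1 := by field_simp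
    rw [this]; exact hdiff
  have p2 : |g1 * (A' - A) / (3 * A * A')| ≤ 4 / 3 * s := by
    have hn : 0 ≤ g1 * (A' - A) := mul_nonneg hg1' (by linarith)
    rw [abs_of_nonneg (by positivity), div_le_iff₀ (by positivity)]
    have e1 : g1 ≤ 2 * A' := by linarith
    calc g1 * (A' - A) ≤ (2 * A') * (2 * s * A) :=
          mul_le_mul e1 hA'le (by linarith) (by linarith)
      _ = 4 / 3 * s * (3 * A * A') := by ring
  have p3 : (1 : ℝ) / (3 * A) ≤ 1 / A := one_div_le_one_div_of_le he (by linarith)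
  have p4 : 0 < 1 / A := by positivity
  refine (abs_sub _ _).trans ?_
  linarith

theorem Fd_harm {d : ℤ} (hd : Odd d) (hd3 : IsCoprime d 3) : ∃ K : ℝ, 0 < K ∧
    ∀ S : Set ℤ, Inv d S → ∀ t : ℝ, 1002 ≤ t →
      |Fd S t - (Fd S (t - Real.log 2) + Fd S (t + Real.log (3 / 2))) / 2| ≤ K / t ^ 2 := by
  obtain ⟨K, hK, h⟩ := harm hd hd3
  refine ⟨K, hK, fun S hS t ht => ?_⟩
  have he := Real.exp_pos t
  have h1 := h S hS (Real.exp t) he (by rw [Real.log_exp]; exact ht)
  rw [Real.log_exp] at h1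
  have e1 : Real.exp (t - Real.log 2) = Real.exp t / 2 := by
    rw [Real.exp_sub, Real.exp_log (by norm_num)]
  have e2 : Real.exp (t + Real.log (3 / 2)) = 3 * Real.exp t / 2 := by
    rw [Real.exp_add, Real.exp_log (by norm_num)]; ring
  have w0 := Fd_win S t
  have w1 := Fd_win S (t - Real.log 2)
  have w2 := Fd_win S (t + Real.log (3 / 2))
  rw [e1] at w1
  rw [e2] at w2
  rw [← w0, ← w1, ← w2] at h1
  set A := Real.exp t with hA
  have hrel : Fd S t * (3 * A) - Fd S (t - Real.log 2) * (3 * (A / 2))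
      - Fd S (t + Real.log (3 / 2)) * (3 * (3 * A / 2)) / 3
      = (Fd S t - (Fd S (t - Real.log 2) + Fd S (t + Real.log (3 / 2))) / 2) * (3 * A) := by ring
  rw [hrel, abs_mul, abs_of_pos (by positivity : (0 : ℝ) < 3 * A)] at h1
  have hX := abs_nonneg (Fd S t - (Fd S (t - Real.log 2) + Fd S (t + Real.log (3 / 2))) / 2)
  have htpos : 0 < t := by linarith
  have hKt : 0 < K / t ^ 2 := by positivity
  by_contra hcon
  push Not at hcon
  nlinarith

/-- window densities converge -/
theorem Fd_tendsto {d : ℤ} (hd : Odd d) (hd3 : IsCoprime d 3) {S : Set ℤ} (hS : Inv d S) :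
    ∃ l : ℝ, Filter.Tendsto (Fd S) Filter.atTop (nhds l) := by
  obtain ⟨K, _, h⟩ := Fd_harm hd hd3
  exact Pool.Agent.H499R2.HL.harmonic_limit (t0 := 1002) (L := 10) (C := K) (Fd_meas S) (Fd_nonneg S)
    (Fd_le_one S) (fun t s ht hs hs1 => Fd_lip S t s (by linarith) hs hs1) (fun t ht => h S hS t ht)

/-- INVARIANT SETS HAVE A NATURAL DENSITY (positive side) -/
theorem density_exists {d : ℤ} (hd : Odd d) (hd3 : IsCoprime d 3) {S : Set ℤ} (hS : Inv d S) :
    ∃ l : ℝ, Filter.Tendsto (fun X : ℝ => G S X / X) Filter.atTop (nhds l) := by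
  obtain ⟨l, hl⟩ := Fd_tendsto hd hd3 hS
  refine ⟨3 * l, ?_⟩
  rw [Metric.tendsto_atTop] at hl ⊢
  intro ε hε
  obtain ⟨T, hT⟩ := hl (ε / 12) (by positivity)
  -- recursion
  have hrec : ∀ X : ℝ, 0 < X → G S (2 * X) / (2 * X) - 3 * l
      = (G S X / X - 3 * l) / 2 + 3 / 2 * (Fd S (Real.log X) - l) := by
    intro X hX
    unfold Fd
    rw [Real.exp_log hX]
    field_simp
    ring
  set X0 := max (Real.exp T) 1 with hX0
  have hX0pos : 0 < X0 := by positivity
  have hX01 : 1 ≤ X0 := le_max_right _ _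
  have hstep : ∀ X : ℝ, X0 ≤ X → |G S (2 * X) / (2 * X) - 3 * l| ≤ |G S X / X - 3 * l| / 2 + ε / 8 := by
    intro X hX
    have hXpos : 0 < X := by linarith
    rw [hrec X hXpos]
    have h1 := hT (Real.log X) (by
      rw [ge_iff_le, Real.le_log_iff_exp_le hXpos]
      exact (le_max_left _ _).trans hX)
    rw [Real.dist_eq] at h1
    have h2 := abs_add_le ((G S X / X - 3 * l) / 2) (3 / 2 * (Fd S (Real.log X) - l))
    rw [abs_div, abs_mul, abs_of_pos (by norm_num : (0 : ℝ) < 2),
      abs_of_pos (by norm_num : (0 : ℝ) < 3 / 2)] at h2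
    linarith
  set M := 1 + |3 * l| with hM
  have hMpos : 0 < M := by positivity
  have hbase : ∀ X : ℝ, X0 ≤ X → |G S X / X - 3 * l| ≤ M := by
    intro X hX
    have hXpos : 0 < X := by linarith
    have h1 : G S X / X ≤ 1 := by rw [div_le_one hXpos]; exact pos_card_le S hXpos.le
    have h2 : 0 ≤ G S X / X := div_nonneg (G_nonneg S X) hXpos.le
    calc |G S X / X - 3 * l| ≤ |G S X / X| + |3 * l| := abs_sub _ _
      _ ≤ M := by rw [abs_of_nonneg h2]; linarith
  have hiter : ∀ n : ℕ, ∀ X : ℝ, X0 * 2 ^ n ≤ X → |G S X / X - 3 * l| ≤ M / 2 ^ n + ε / 4 := by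
    intro n
    induction n with
    | zero =>
      intro X hX
      have := hbase X (by simpa using hX)
      simp only [pow_zero, div_one]
      linarith
    | succ n ih =>
      intro X hX
      have hX2 : X0 * 2 ^ n ≤ X / 2 := by rw [pow_succ] at hX; linarith
      have h1 := ih (X / 2) hX2
      have h2 := hstep (X / 2) (by
        have : X0 ≤ X0 * 2 ^ n := le_mul_of_one_le_right hX0pos.le (one_le_pow₀ (by norm_num))
        linarith)
      rw [show 2 * (X / 2) = X by ring] at h2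
      have h3 : M / 2 ^ (n + 1) = M / 2 ^ n / 2 := by rw [pow_succ]; field_simp
      rw [h3]
      linarith
  obtain ⟨n, hn⟩ := pow_unbounded_of_one_lt (4 * M / ε) (by norm_num : (1 : ℝ) < 2)
  refine ⟨X0 * 2 ^ n, fun X hX => ?_⟩
  rw [Real.dist_eq]
  have h1 := hiter n X hX
  have h2 : M / 2 ^ n < ε / 4 := by
    rw [div_lt_iff₀ hε] at hn
    rw [div_lt_iff₀ (by positivity)]
    linarith
  linarith

end Pool.Agent.H499R2.ND
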