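import Pool.Agent.H499R2.NDLln2

/-! Natural density: the basin of `1`. -/

set_option autoImplicit false

namespace Pool.Agent.H499R2.ND

open Pool.Agent.H320R2.PD Finset Filter Topology

open Pool.Agent.H319R2.Lln (mu)

/-- `n` reaches `1` -/
def Bas (n : ℕ) : Prop := ∃ k : ℕ, Tn^[k] n = 1

theorem Bas_inv (n : ℕ) : Bas n ↔ Bas (Tn n) := by
  unfold Bas
  constructor
  · rintro ⟨k, hk⟩
    rcases k with _ | k
    · refine ⟨1, ?_⟩
      have h : n = 1 := hk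
      rw [h]; rfl
    · exact ⟨k, by rwa [Function.iterate_succ_apply] at hk⟩
  · rintro ⟨k, hk⟩
    exact ⟨k + 1, by rwa [Function.iterate_succ_apply]⟩

/-- the density of the basin of `1` -/
theorem Bas_density : ∃ δ : ℝ, 0 < δ ∧ δ ≤ 1 ∧ (δ = 1 ↔ ∀ n : ℕ, 1 ≤ n → Bas n) ∧ Dn Bas δ := by
  obtain ⟨l, h0, h1, h2, h3, h4⟩ := nat_density (P := Bas) fun n _ => Bas_inv n
  exact ⟨l, h3.2 ⟨1, le_rfl, 0, rfl⟩, h1, h4, h2⟩

/-- a property shared by almost all `n` of the basin has the density of the basin -/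
theorem dn_bas {δ : ℝ} (hδ : Dn Bas δ) {Q : ℕ → Prop} (hQ : ∀ n, 1 ≤ n → Q n → Bas n)
    (h : Dn (fun n => Bas n ∧ ¬ Q n) 0) : Dn Q δ := by
  refine dn_congr hδ h fun n hn hE => ?_
  constructor
  · intro hb
    by_contra hq
    exact hE ⟨hb, hq⟩
  · exact hQ n hn

/-- the first hitting time of `1` and the whole descent -/
theorem bas_profile {δ : ℝ} (hδ : Dn Bas δ) {ε : ℝ} (hε : 0 < ε) :
    Dn (fun n : ℕ => ∃ t : ℕ, Tn^[t] n = 1 ∧ (∀ j < t, Tn^[j] n ≠ 1) ∧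
      |(t : ℝ) - 2 / Real.log (4 / 3) * Real.log n| ≤ ε * Real.log n ∧
      ∀ j ≤ t, |Real.log ((Tn^[j] n : ℕ) : ℝ) - (Real.log n - j / 2 * Real.log (4 / 3))|
        ≤ ε * Real.log n) δ := by
  have hmu := mu_pos'
  have hc : 2 / Real.log (4 / 3) = 1 / mu := by unfold mu; rw [one_div_div]
  set ε' : ℝ := min ε (ε * mu) with hε'
  have hε'0 : 0 < ε' := lt_min hε (by positivity)
  refine dn_bas hδ (fun n _ ⟨t, ht, _⟩ => ⟨t, ht⟩) ?_
  refine zd_mono (full_zd hε'0 (fun n => n = 1)) fun n hn ⟨hb, hq⟩ => ⟨hb, fun h => hq ?_⟩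
  obtain ⟨t, ht, hmin, hprof⟩ := h
  have hlogn : 0 ≤ Real.log (n : ℝ) := Real.log_natCast_nonneg n
  refine ⟨t, ht, hmin, ?_, fun j hj => ?_⟩
  · have h1 := hprof t le_rfl
    rw [ht, Nat.cast_one, Real.log_one, zero_sub] at h1
    rw [hc]
    have h2 : |(t : ℝ) - 1 / mu * Real.log n| = 1 / mu * |-Real.log n + mu * t| := by
      have h3 : (t : ℝ) - 1 / mu * Real.log n = 1 / mu * (-Real.log n + mu * t) := by
        field_simp; ring
      rw [h3, abs_mul, abs_of_pos (show 0 < 1 / mu by positivity)]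
    rw [h2]
    calc 1 / mu * |-Real.log n + mu * t| ≤ 1 / mu * (ε' * Real.log n) :=
          mul_le_mul_of_nonneg_left h1 (by positivity)
      _ ≤ 1 / mu * (ε * mu * Real.log n) := by
          apply mul_le_mul_of_nonneg_left _ (by positivity)
          exact mul_le_mul_of_nonneg_right (min_le_right _ _) hlogn
      _ = ε * Real.log n := by field_simp
  · have h1 := hprof j hj
    have h2 : Real.log ((Tn^[j] n : ℕ) : ℝ) - (Real.log n - j / 2 * Real.log (4 / 3))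
        = Real.log ((Tn^[j] n : ℕ) : ℝ) - Real.log n + mu * j := by unfold mu; ring
    rw [h2]
    exact h1.trans (mul_le_mul_of_nonneg_right (min_le_left _ _) hlogn)

/-- almost all `n` of the basin satisfy the profile -/
theorem bas_zd {δ : ℝ} (hδ : Dn Bas δ) {Q : ℕ → Prop} (hQ : ∀ n, 1 ≤ n → Q n → Bas n)
    (h : Dn Q δ) : Dn (fun n => Bas n ∧ ¬ Q n) 0 := by
  classical
  unfold Dn at *
  have h1 := hδ.sub h
  rw [sub_self] at h1
  refine h1.congr fun N => ?_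
  rw [← sub_div]
  congr 1
  rw [cnt_eq, cnt_eq, cnt_eq]
  have hsub : (Icc 1 N).filter Q ⊆ (Icc 1 N).filter Bas := by
    intro n hn
    rw [mem_filter, mem_Icc] at hn ⊢
    exact ⟨hn.1, hQ n hn.1.1 hn.2⟩
  have h2 : (Icc 1 N).filter (fun n => Bas n ∧ ¬ Q n) = (Icc 1 N).filter Bas \ (Icc 1 N).filter Q := by
    ext n
    rw [Finset.mem_sdiff, mem_filter, mem_filter, mem_filter]
    tauto
  rw [h2, card_sdiff_of_subset hsub, Nat.cast_sub (card_le_card hsub)]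

/-- time thresholds -/
theorem bas_time {δ : ℝ} (hδ : Dn Bas δ) {κ : ℝ} (hκ : 2 / Real.log (4 / 3) < κ) :
    Dn (fun n : ℕ => ∃ k : ℕ, (k : ℝ) ≤ κ * Real.log n ∧ Tn^[k] n = 1) δ := by
  refine dn_bas hδ (fun n _ ⟨k, _, hk⟩ => ⟨k, hk⟩) ?_
  have h := bas_profile hδ (ε := κ - 2 / Real.log (4 / 3)) (by linarith)
  refine zd_mono (bas_zd hδ (fun n _ ⟨t, ht, _⟩ => ⟨t, ht⟩) h) fun n hn ⟨hb, hq⟩ => ⟨hb, fun h' => hq ?_⟩
  obtain ⟨t, ht, _, h1, _⟩ := h'
  exact ⟨t, by linarith [(abs_le.1 h1).2], ht⟩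

theorem bas_time_lower {δ : ℝ} (hδ : Dn Bas δ) {κ : ℝ} (hκ : κ < 2 / Real.log (4 / 3)) :
    Dn (fun n : ℕ => ∃ k : ℕ, (k : ℝ) ≤ κ * Real.log n ∧ Tn^[k] n = 1) 0 := by
  have h := bas_profile hδ (ε := (2 / Real.log (4 / 3) - κ) / 2) (by linarith)
  have h1 : Dn (fun n : ℕ => (n : ℝ) ≤ 1) 0 := by
    rw [zd_iff]
    intro ε hε
    filter_upwards [(tendsto_natCast_atTop_atTop (R := ℝ)).eventually_ge_atTop (1 / ε)] with N hN
    have := cnt_small (t := (1 : ℝ)) zero_le_one N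
    rw [div_le_iff₀ hε] at hN
    linarith
  refine zd_or (bas_zd hδ (fun n _ ⟨t, ht, _⟩ => ⟨t, ht⟩) h) h1 fun n hn ⟨k, hk, hk1⟩ => ?_
  by_contra hcon
  push Not at hcon
  obtain ⟨t, ht, hmin, h2, _⟩ := hcon.1 ⟨k, hk1⟩
  have hlogn : 0 < Real.log (n : ℝ) := Real.log_pos hcon.2
  have htk : t ≤ k := by
    by_contra hlt
    exact hmin k (by omega) hk1
  have htk' : (t : ℝ) ≤ k := by exact_mod_cast htk
  have := (abs_le.1 h2).1
  nlinarith

end Pool.Agent.H499R2.ND
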