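import Pool.Agent.H499R2.NDMean

/-! Natural density: means and quadratic means of bounded invariant functions. -/

set_option autoImplicit false

namespace Pool.Agent.H499R2.ND

open Pool.Agent.H320R2.PD Finset Filter Topology

theorem cesaro_shift {c : ℕ → ℂ} {L : ℂ}
    (h : Tendsto (fun N : ℕ => (∑ n ∈ Icc 1 N, c n) / N) atTop (𝓝 L)) :
    Tendsto (fun N : ℕ => (∑ n ∈ range (N + 1), c n) / ((N : ℂ) + 1)) atTop (𝓝 L) := by
  have h1 : Tendsto (fun N : ℕ => (N : ℂ) / ((N : ℂ) + 1)) atTop (𝓝 1) := by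
    have := (Complex.continuous_ofReal.tendsto (1 : ℝ)).comp (tendsto_natCast_div_add_atTop (1 : ℝ))
    rw [Complex.ofReal_one] at this
    refine this.congr fun N => ?_
    simp
  have h2 : Tendsto (fun N : ℕ => c 0 / ((N : ℂ) + 1)) atTop (𝓝 0) := by
    have h3 : Tendsto (fun N : ℕ => (1 : ℝ) / ((N : ℝ) + 1)) atTop (𝓝 0) := tendsto_one_div_add_atTop_nhds_zero_nat
    have h4 := ((Complex.continuous_ofReal.tendsto (0 : ℝ)).comp h3).const_mul (c 0)
    rw [Complex.ofReal_zero, mul_zero] at h4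
    refine h4.congr fun N => ?_
    simp only [Function.comp_apply]
    push_cast
    ring
  have h5 := (h.mul h1).add h2
  rw [mul_one, add_zero] at h5
  refine h5.congr' ?_
  filter_upwards [eventually_gt_atTop 0] with N hN
  have hN0 : (N : ℂ) ≠ 0 := by exact_mod_cast hN.ne'
  have hN1 : (N : ℂ) + 1 ≠ 0 := by
    have : ((N : ℂ) + 1) = ((N + 1 : ℕ) : ℂ) := by push_cast; rfl
    rw [this]; exact_mod_cast Nat.succ_ne_zero N
  have e : ∑ n ∈ range (N + 1), c n = c 0 + ∑ n ∈ Icc 1 N, c n := by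
    rw [Finset.range_eq_Ico, Finset.sum_eq_sum_Ico_succ_bot (by omega)]
    congr 1
  rw [e]
  field_simp
  ring

/-- MEANS AND QUADRATIC MEANS -/
theorem quad_means {c : ℕ → ℂ} {M : ℝ} (hM : ∀ n, ‖c n‖ ≤ M) (hc : ∀ n, 1 ≤ n → c n = c (Tn n)) :
    ∃ (L : ℂ) (V : ℝ),
      Tendsto (fun r : ℝ => (1 - (r : ℂ)) * ∑' n, c n * (r : ℂ) ^ n) (𝓝[<] 1) (𝓝 L) ∧
      Tendsto (fun r : ℝ => (1 - r) * ∑' n, ‖c n‖ ^ 2 * r ^ n) (𝓝[<] 1) (𝓝 V) ∧
      ‖L‖ ^ 2 ≤ V ∧ (V = ‖L‖ ^ 2 → ∀ n, 1 ≤ n → c n = L) := by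
  obtain ⟨δ, hδ0, hδ, hsum⟩ := weights
  have hM0 : 0 ≤ M := (norm_nonneg _).trans (hM 0)
  set L := ∑' a : {a : ℕ // Lab a}, (δ a : ℂ) * c a with hL
  have hLsum : Summable (fun a : {a : ℕ // Lab a} => (δ a : ℂ) * c a) := by
    apply Summable.of_norm_bounded (g := fun a : {a : ℕ // Lab a} => δ a * M) (hsum.summable.mul_right M)
    intro a
    rw [norm_mul, Complex.norm_real, Real.norm_of_nonneg (hδ0 a.1 a.2.1).le]
    exact mul_le_mul_of_nonneg_left (hM a.1) (hδ0 a.1 a.2.1).le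
  have hVsum : Summable (fun a : {a : ℕ // Lab a} => δ a * ‖c a‖ ^ 2) := by
    apply Summable.of_nonneg_of_le (fun a => mul_nonneg (hδ0 a.1 a.2.1).le (by positivity)) (fun a => ?_)
      (hsum.summable.mul_right (M ^ 2))
    exact mul_le_mul_of_nonneg_left (pow_le_pow_left₀ (norm_nonneg _) (hM a.1) 2) (hδ0 a.1 a.2.1).le
  set V := ∑' a : {a : ℕ // Lab a}, δ a * ‖c a‖ ^ 2 with hV
  -- the variance
  have hW : HasSum (fun a : {a : ℕ // Lab a} => δ a * ‖c a - L‖ ^ 2) (V - ‖L‖ ^ 2) := by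
    have h1 : HasSum (fun a : {a : ℕ // Lab a} => (starRingEnd ℂ L * ((δ a : ℂ) * c a)).re)
        (starRingEnd ℂ L * L).re := Complex.hasSum_re (hLsum.hasSum.mul_left (starRingEnd ℂ L))
    have h2 := (hVsum.hasSum.sub (h1.mul_left 2)).add (hsum.mul_right (‖L‖ ^ 2))
    have e1 : (starRingEnd ℂ L * L).re = ‖L‖ ^ 2 := by
      rw [← Complex.normSq_eq_conj_mul_self, Complex.ofReal_re, Complex.normSq_eq_norm_sq]
    rw [e1] at h2
    have e2 : V - 2 * ‖L‖ ^ 2 + 1 * ‖L‖ ^ 2 = V - ‖L‖ ^ 2 := by ring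
    rw [← hV, e2] at h2
    have e3 : (fun a : {a : ℕ // Lab a} => δ a * ‖c a‖ ^ 2 - 2 * (starRingEnd ℂ L * ((δ a : ℂ) * c a)).re
        + δ a * ‖L‖ ^ 2) = fun a : {a : ℕ // Lab a} => δ a * ‖c a - L‖ ^ 2 := by
      funext a
      have e4 : ‖c a - L‖ ^ 2 = ‖c a‖ ^ 2 + ‖L‖ ^ 2 - 2 * (c a * starRingEnd ℂ L).re := by
        rw [← Complex.normSq_eq_norm_sq, ← Complex.normSq_eq_norm_sq, ← Complex.normSq_eq_norm_sq,
          Complex.normSq_sub]
      have e5 : (starRingEnd ℂ L * ((δ a : ℂ) * c a)).re = δ a * (c a * starRingEnd ℂ L).re := by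
        have : starRingEnd ℂ L * ((δ a : ℂ) * c a) = (δ a : ℂ) * (c a * starRingEnd ℂ L) := by ring
        rw [this, Complex.re_ofReal_mul]
      rw [e4, e5]; ring
    rw [e3] at h2
    exact h2
  have hWnn : ∀ a : {a : ℕ // Lab a}, 0 ≤ δ a * ‖c a - L‖ ^ 2 := fun a =>
    mul_nonneg (hδ0 a.1 a.2.1).le (by positivity)
  refine ⟨L, V, ?_, ?_, ?_, ?_⟩
  · exact abel_of_cesaro hM (cesaro_shift (mean_value hδ hδ0 hsum (fun n _ => hM n) hc))
  · have h1 := mean_value hδ hδ0 hsum (c := fun n => ((‖c n‖ ^ 2 : ℝ) : ℂ)) (M := M ^ 2)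
      (fun n _ => by
        rw [Complex.norm_real, Real.norm_of_nonneg (by positivity)]
        exact pow_le_pow_left₀ (norm_nonneg _) (hM n) 2)
      (fun n hn => by rw [hc n hn])
    have h2 := abel_of_cesaro (c := fun n => ((‖c n‖ ^ 2 : ℝ) : ℂ)) (M := M ^ 2)
      (fun n => by
        rw [Complex.norm_real, Real.norm_of_nonneg (by positivity)]
        exact pow_le_pow_left₀ (norm_nonneg _) (hM n) 2) (cesaro_shift h1)
    have e1 : (∑' a : {a : ℕ // Lab a}, (δ a : ℂ) * ((‖c a‖ ^ 2 : ℝ) : ℂ)) = (V : ℂ) := by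
      rw [hV, Complex.ofReal_tsum]
      congr 1
      funext a
      push_cast; rfl
    rw [e1] at h2
    have hre := (Complex.continuous_re.tendsto (V : ℂ)).comp h2
    rw [Complex.ofReal_re] at hre
    refine hre.congr fun r => ?_
    have e : (1 - (r : ℂ)) * ∑' n, ((‖c n‖ ^ 2 : ℝ) : ℂ) * (r : ℂ) ^ n
        = (((1 - r) * ∑' n, ‖c n‖ ^ 2 * r ^ n : ℝ) : ℂ) := by
      push_cast; rfl
    rw [Function.comp_apply, e, Complex.ofReal_re]
  · have := hW.nonneg hWnn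
    linarith
  · intro hVL n hn
    rw [hVL, sub_self] at hW
    have h0 := (hasSum_zero_iff_of_nonneg hWnn).1 hW
    obtain ⟨a, ha, _, i, j, hij⟩ := exists_lab hn
    have h1 := congrFun h0 ⟨a, ha⟩
    simp only [Pi.zero_apply, mul_eq_zero] at h1
    have h2 : c a = L := by
      rcases h1 with h1 | h1
      · exact absurd h1 (hδ0 a ha.1).ne'
      · have h3 : ‖c a - L‖ = 0 := by simpa using h1
        exact sub_eq_zero.1 (norm_eq_zero.1 h3)
    rw [← h2]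
    exact inv_fun_class hc ha.1 hn ⟨j, i, hij.symm⟩

end Pool.Agent.H499R2.ND
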