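import Pool.Agent.H499R2.NDCor2

/-! Natural density: partitions into invariant sets for the `3x+d` maps. -/

set_option autoImplicit false

namespace Pool.Agent.H499R2.ND

open Pool.Agent.H320R2.PD Finset Filter Topology

theorem part_sum {ι : Type*} {d : ℤ} (hd : Odd d) (hd3 : ¬ (3 : ℤ) ∣ d) {s : ℤ} (hs : s = 1 ∨ s = -1)
    (K : ι → Set ℤ) (δ : ι → ℝ)
    (hδ : ∀ i, HD s (K i) (δ i)) (hdisj : ∀ i j, i ≠ j → Disjoint (K i) (K j)) {S : Set ℤ}
    (hK : ∀ i, Inv d (K i)) (hS : Inv d S) (hcov : ∀ n ∈ S, ∃ i, n ∈ K i)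
    (hsub : ∀ i, ∀ n ∈ K i, n ∈ S) {l : ℝ} (hl : HD s S l) : HasSum δ l := by
  classical
  have hδ0 : ∀ a, 0 ≤ δ a := fun a => by
    apply ge_of_tendsto (hδ a)
    filter_upwards [eventually_gt_atTop (0 : ℝ)] with X hX
    exact div_nonneg (G_nonneg _ _) hX.le
  have htend : ∀ A : Finset ι, Tendsto (fun X : ℝ => (∑ a ∈ A, G {x | s * x ∈ K a} X) / X) atTop
      (𝓝 (∑ a ∈ A, δ a)) := by
    intro A
    have := tendsto_finsetSum A (fun a _ => hδ a)
    refine this.congr fun X => ?_
    rw [sum_div]
  apply hasSum_of_isLUB_of_nonneg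
  · exact hδ0
  · constructor
    · rintro _ ⟨A, rfl⟩
      apply le_of_tendsto_of_tendsto (htend A) hl
      filter_upwards [eventually_gt_atTop (0 : ℝ)] with X hX
      apply div_le_div_of_nonneg_right _ hX.le
      apply G_sum_le' A (fun a => {x | s * x ∈ K a}) {x | s * x ∈ S}
      · intro a _ b _ hab
        rw [Set.disjoint_left]
        intro x hx hx'
        exact Set.disjoint_left.1 (hdisj a b hab) hx hx'
      · intro a _ x hx hxa
        exact hsub a (s * x) hxa
    · intro b hb
      apply le_of_forall_pos_le_add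
      intro ε hε
      obtain ⟨C, hC, hst⟩ := stay_side 1 hd (cop_of_not_dvd hd3) hs
      obtain ⟨y, hy2, hyε⟩ : ∃ y : ℝ, 2 ≤ y ∧ C / Real.log y ≤ ε := by
        refine ⟨Real.exp (C / ε + 1), ?_, ?_⟩
        · have := Real.add_one_le_exp (C / ε + 1)
          have : 0 < C / ε := by positivity
          linarith
        · rw [Real.log_exp, div_le_iff₀ (by positivity)]
          have : ε * (C / ε + 1) = C + ε := by field_simp
          rw [this]; linarith
      have hpick : ∀ m : ℤ, ∃ A : Finset ι, m ∈ S → ∃ i ∈ A, m ∈ K i := by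
        intro m
        by_cases h : m ∈ S
        · obtain ⟨i, hi⟩ := hcov m h
          exact ⟨{i}, fun _ => ⟨i, by simp, hi⟩⟩
        · exact ⟨∅, fun h1 => (h h1).elim⟩
      choose pk hpk using hpick
      set A := (Finset.Icc (-⌊y⌋) ⌊y⌋).biUnion pk with hA
      have hcovA : ∀ n : ℤ, n ∈ S → (∀ i ∈ A, n ∉ K i) → n ∈ Stay d y := by
        intro n hnS hni k
        by_contra hcon
        push Not at hcon
        set m := (Td d)^[k] n with hm
        have hmS : m ∈ S := (inv_iter hS k n).1 hnS
        obtain ⟨i, hi, hmi⟩ := hpk m hmS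
        apply hni i
        · rw [hA, mem_biUnion]
          refine ⟨m, ?_, hi⟩
          rw [abs_le] at hcon
          rw [mem_Icc]
          constructor
          · have : -y ≤ m := hcon.1
            have h2 : ((-m : ℤ) : ℝ) ≤ y := by push_cast; linarith
            have := Int.le_floor.2 h2
            omega
          · exact Int.le_floor.2 hcon.2
        · exact (inv_iter (hK i) k n).2 hmi
      have h1 : ∀ X : ℝ, 1 ≤ X → G {x | s * x ∈ S} X / X ≤ (∑ a ∈ A, G {x | s * x ∈ K a} X) / X + ε := by
        intro X hX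
        have hXpos : 0 < X := by linarith
        have h2 : G {x | s * x ∈ S} X ≤ ∑ a ∈ A, G {x | s * x ∈ K a} X + G {x | s * x ∈ Stay d y} X := by
          unfold G
          have e1 : pos {x | s * x ∈ S} X ⊆ (A.biUnion fun a => pos {x | s * x ∈ K a} X)
              ∪ pos {x | s * x ∈ Stay d y} X := by
            intro x hx
            rw [mem_pos] at hx
            rw [mem_union, mem_biUnion]
            by_cases h : ∃ a ∈ A, s * x ∈ K a
            · obtain ⟨a, ha, hxa⟩ := h
              exact Or.inl ⟨a, ha, mem_pos.2 ⟨hx.1, hxa⟩⟩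
            · push Not at h
              exact Or.inr (mem_pos.2 ⟨hx.1, hcovA (s * x) hx.2 h⟩)
          have e2 := (card_le_card e1).trans (card_union_le _ _)
          have e3 : (A.biUnion fun a => pos {x | s * x ∈ K a} X).card
              ≤ ∑ a ∈ A, (pos {x | s * x ∈ K a} X).card := card_biUnion_le
          exact_mod_cast e2.trans (Nat.add_le_add_right e3 _)
        have h3 := hst y hy2 X hXpos.le
        rw [pow_one] at h3
        have h4 : C * X / Real.log y ≤ ε * X := by
          rw [mul_div_right_comm]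
          exact mul_le_mul_of_nonneg_right hyε hXpos.le
        rw [div_add' _ _ _ hXpos.ne']
        apply div_le_div_of_nonneg_right _ hXpos.le
        linarith
      have h2 : l ≤ ∑ a ∈ A, δ a + ε := by
        apply le_of_tendsto_of_tendsto hl ((htend A).add_const ε)
        filter_upwards [eventually_ge_atTop (1 : ℝ)] with X hX
        exact h1 X hX
      have h3 := hb ⟨A, rfl⟩
      simp only at h3
      linarith

/-- an orbit is unbounded iff it is not eventually periodic -/
theorem unbounded_iff (f : ℤ → ℤ) (x : ℤ) :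
    (∀ M : ℤ, ∃ k : ℕ, M < |f^[k] x|) ↔ ¬ ∃ j p : ℕ, 1 ≤ p ∧ f^[j + p] x = f^[j] x := by
  constructor
  · rintro h ⟨j, p, hp, hj⟩
    -- bounded by the maximum over the first `j + p` iterates
    have hall : ∀ k : ℕ, ∃ i < j + p, f^[k] x = f^[i] x := by
      intro k
      induction k with
      | zero => exact ⟨0, by omega, rfl⟩
      | succ k ih =>
        obtain ⟨i, hi, he⟩ := ih
        rcases Nat.lt_or_ge (i + 1) (j + p) with h1 | h1
        · refine ⟨i + 1, h1, ?_⟩
          rw [Function.iterate_succ_apply', Function.iterate_succ_apply', he]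
        · refine ⟨j, by omega, ?_⟩
          have : i + 1 = j + p := by omega
          rw [← hj, ← this, Function.iterate_succ_apply', Function.iterate_succ_apply', he]
    obtain ⟨k, hk⟩ := h (∑ i ∈ range (j + p), |f^[i] x|)
    obtain ⟨i, hi, he⟩ := hall k
    rw [he] at hk
    have : |f^[i] x| ≤ ∑ i ∈ range (j + p), |f^[i] x| :=
      single_le_sum (f := fun i => |f^[i] x|) (fun _ _ => abs_nonneg _) (mem_range.2 hi)
    linarith
  · intro h M
    by_contra hcon
    push Not at hcon
    -- pigeonhole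
    have hmaps : ∀ k ∈ range ((Finset.Icc (-M) M).card + 1), f^[k] x ∈ Finset.Icc (-M) M := by
      intro k _
      have := abs_le.1 (hcon k)
      rw [mem_Icc]; exact this
    obtain ⟨a, ha, b, hb, hab, heq⟩ := exists_ne_map_eq_of_card_lt_of_maps_to
      (by rw [card_range]; omega) hmaps
    apply h
    rcases lt_or_gt_of_ne hab with h1 | h1
    · exact ⟨a, b - a, by omega, by rw [Nat.add_sub_cancel' h1.le]; exact heq.symm⟩
    · exact ⟨b, a - b, by omega, by rw [Nat.add_sub_cancel' h1.le]; exact heq⟩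

theorem evper_iff (f : ℤ → ℤ) (x : ℤ) :
    (∃ j p : ℕ, 1 ≤ p ∧ f^[j + p] x = f^[j] x) ↔ ∃ j, ∃ p, 1 ≤ p ∧ f^[p] (f^[j] x) = f^[j] x := by
  constructor
  · rintro ⟨j, p, hp, h⟩
    exact ⟨j, p, hp, by rw [← Function.iterate_add_apply, add_comm]; exact h⟩
  · rintro ⟨j, p, hp, h⟩
    exact ⟨j, p, hp, by rw [add_comm, Function.iterate_add_apply]; exact h⟩

theorem inv_evper (d : ℤ) : Inv d {n : ℤ | ∃ j, ∃ p, 1 ≤ p ∧ (Td d)^[p] ((Td d)^[j] n) = (Td d)^[j] n} := by
  intro x
  constructor
  · rintro ⟨j, hj⟩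
    refine ⟨j, ?_⟩
    rw [← Function.iterate_succ_apply, Function.iterate_succ_apply']
    exact per_step hj
  · rintro ⟨j, hj⟩
    exact ⟨j + 1, by rw [Function.iterate_succ_apply]; exact hj⟩

/-- the least element of the cycle of a periodic point -/
theorem exists_least {f : ℤ → ℤ} {c : ℤ} (h : ∃ p, 1 ≤ p ∧ f^[p] c = c) :
    ∃ j : ℕ, ∀ i : ℕ, f^[j] c ≤ f^[i] (f^[j] c) := by
  obtain ⟨p, hp, hc⟩ := h
  obtain ⟨j, hj, hmin⟩ := exists_min_image (range p) (fun i => f^[i] c) ⟨0, mem_range.2 hp⟩
  have hmod : ∀ k : ℕ, f^[k] c = f^[k % p] c := by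
    intro k
    have hmul : ∀ q : ℕ, f^[p * q] c = c := by
      intro q
      induction q with
      | zero => simp
      | succ q ih => rw [Nat.mul_succ, Function.iterate_add_apply, hc, ih]
    conv_lhs => rw [← Nat.mod_add_div k p]
    rw [Function.iterate_add_apply, hmul]
  refine ⟨j, fun i => ?_⟩
  rw [← Function.iterate_add_apply, hmod (i + j)]
  exact hmin _ (mem_range.2 (Nat.mod_lt _ hp))

end Pool.Agent.H499R2.ND
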