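import Pool.Agent.H499R2.NDHt

/-! Natural density: the law of the maximum excursion. -/

set_option autoImplicit false

namespace Pool.Agent.H499R2.ND

open Pool.Agent.H320R2.PD Finset Filter Topology

open Pool.Agent.H319R2.Lln (mu)
open Pool.Agent.Helper894.Collatz (od er)

/-- bounded orbits -/
def Bdd (n : ℕ) : Prop := ∃ M : ℕ, ∀ k, Tn^[k] n ≤ M

theorem Bdd_inv (n : ℕ) : Bdd n ↔ Bdd (Tn n) := by
  constructor
  · rintro ⟨M, h⟩
    exact ⟨M, fun k => by rw [← Function.iterate_succ_apply]; exact h (k + 1)⟩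
  · rintro ⟨M, h⟩
    refine ⟨max n M, fun k => ?_⟩
    rcases k with _ | k
    · exact le_max_left _ _
    · rw [Function.iterate_succ_apply]; exact (h k).trans (le_max_right _ _)

theorem Bdd_iter (n k : ℕ) : Bdd n ↔ Bdd (Tn^[k] n) := by
  induction k with
  | zero => rfl
  | succ k ih => rw [ih, Function.iterate_succ_apply', ← Bdd_inv]

/-! ### late times -/

theorem late {P : ℕ → Prop} (hP : ∀ n, P n ↔ P (Tn n)) (hPB : ∀ n, P n → Bdd n) :
    Dn (fun n => P n ∧ ∃ k, n < 2 ^ k ∧ n ≤ Tn^[k] n) 0 := by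
  classical
  have hPk : ∀ k n, P n ↔ P (Tn^[k] n) := by
    intro k
    induction k with
    | zero => intro n; rfl
    | succ k ih => intro n; rw [Function.iterate_succ_apply', ← hP, ← ih]
  have hmu := mu_pos'
  rw [zd_iff]
  intro η hη
  obtain ⟨y, hy⟩ := hit (κ := 2 / Real.log (4 / 3) + 1) (by linarith) (ε := η / 3) (by positivity)
  have hM : ∀ a : ℕ, ∃ M : ℕ, P a → ∀ k, Tn^[k] a ≤ M := by
    intro a
    by_cases h : P a
    · obtain ⟨M, hM⟩ := hPB a h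
      exact ⟨M, fun _ => hM⟩
    · exact ⟨0, fun h' => absurd h' h⟩
  choose M hM using hM
  set W : ℕ := (range (y + 1)).sup M with hW
  have h1 := zd_iff.1 (full_zd (ε := mu / 2) (by positivity) (fun a => a ≤ y)) (η / 3) (by positivity)
  have h2 := zd_iff.1 (zd_bdd (W + 1)) (η / 3) (by positivity)
  filter_upwards [hy, h1, h2] with N h3 h4 h5
  have hsplit : cnt (fun n => P n ∧ ∃ k, n < 2 ^ k ∧ n ≤ Tn^[k] n) N ≤
      cnt (fun n => ∀ j : ℕ, (j : ℝ) ≤ (2 / Real.log (4 / 3) + 1) * Real.log n → y < Tn^[j] n) N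
      + (cnt (fun n : ℕ => (∃ k, Tn^[k] n ≤ y) ∧ ¬ ∃ t : ℕ, Tn^[t] n ≤ y ∧ (∀ j < t, ¬ Tn^[j] n ≤ y) ∧
      ∀ j ≤ t, |Real.log ((Tn^[j] n : ℕ) : ℝ) - Real.log n + mu * j| ≤ mu / 2 * Real.log n) N
      + cnt (fun n : ℕ => (n : ℝ) ≤ (W : ℝ) + 1) N) := by
    refine (cnt_or N (Q := fun n => ∀ j : ℕ, (j : ℝ) ≤ (2 / Real.log (4 / 3) + 1) * Real.log n →
      y < Tn^[j] n) (R := fun n => ((∃ k, Tn^[k] n ≤ y) ∧ ¬ ∃ t : ℕ, Tn^[t] n ≤ y ∧
      (∀ j < t, ¬ Tn^[j] n ≤ y) ∧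
      ∀ j ≤ t, |Real.log ((Tn^[j] n : ℕ) : ℝ) - Real.log n + mu * j| ≤ mu / 2 * Real.log n) ∨
      (n : ℝ) ≤ (W : ℝ) + 1) fun n hn hnN hp => ?_).trans (add_le_add le_rfl (cnt_or N fun n _ _ h => h))
    by_contra hcon
    push Not at hcon
    obtain ⟨⟨j, _, hj⟩, hcon1, hcon2⟩ := hcon
    obtain ⟨t, ht, _, hprof⟩ := hcon1 ⟨j, hj⟩
    obtain ⟨hPn, k, hk1, hk2⟩ := hp
    have hnR : (0 : ℝ) < n := by exact_mod_cast hn
    have hnW : W < n := by
      have : (W : ℝ) < n := by linarith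
      exact_mod_cast this
    rcases le_or_gt k t with hkt | hkt
    · have h6 := (abs_le.1 (hprof k hkt)).2
      have h7 : Real.log n ≤ Real.log ((Tn^[k] n : ℕ) : ℝ) := Real.log_le_log hnR (by exact_mod_cast hk2)
      have h8 : Real.log n < k * Real.log 2 := by
        rw [← Real.log_pow]
        exact Real.log_lt_log hnR (by exact_mod_cast hk1)
      have h9 : Real.log 2 < 1 := by
        have := Real.log_two_lt_d9; linarith
      have h10 : 0 ≤ Real.log (n : ℝ) := Real.log_natCast_nonneg n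
      have h11 : (k : ℝ) * Real.log 2 ≤ k := by
        have : (0 : ℝ) ≤ k := Nat.cast_nonneg k
        nlinarith
      have h12 : mu * Real.log n < mu * k := mul_lt_mul_of_pos_left (by linarith) hmu
      nlinarith
    · obtain ⟨i, rfl⟩ := Nat.exists_eq_add_of_lt hkt
      have h6 : P (Tn^[t] n) := (hPk t n).1 hPn
      have h7 := hM (Tn^[t] n) h6 (i + 1)
      rw [← Function.iterate_add_apply, show i + 1 + t = t + i + 1 by ring] at h7
      have h8 : M (Tn^[t] n) ≤ W := Finset.le_sup (f := M) (mem_range.2 (by omega))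
      omega
  have h6 : (0 : ℝ) ≤ η * N := by positivity
  linarith

/-! ### early times -/

/-- the decay rate -/
noncomputable def th : ℝ := 3 * (2 : ℝ) ^ (-(13 / 8 : ℝ))

theorem th_pos : 0 < th := by unfold th; positivity

theorem th_lt : th < 1 := by
  have h1 : th ^ 8 < 1 := by
    unfold th
    rw [mul_pow, ← Real.rpow_natCast, ← Real.rpow_natCast, ← Real.rpow_mul (by norm_num)]
    norm_num
  by_contra h
  push Not at h
  exact absurd h1 (not_lt.2 (one_le_pow₀ h))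

theorem count_residues (k : ℕ) :
    (((range (2 ^ k)).filter (fun r => 2 ^ k < 2 * 3 ^ od k r)).card : ℝ) ≤ 2 * th ^ k * 2 ^ k := by
  set R := (range (2 ^ k)).filter (fun r => 2 ^ k < 2 * 3 ^ od k r) with hR
  have h1 := Pool.Agent.Helper894.Collatz.sum_pow_od k 2
  have h2 : ∀ r ∈ R, (2 : ℝ) ^ ((5 * (k : ℝ) - 5) / 8) ≤ 2 ^ od k r := by
    intro r hr
    rw [hR, mem_filter] at hr
    rw [← Real.rpow_natCast 2 (od k r)]
    apply Real.rpow_le_rpow_of_exponent_le (by norm_num)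
    have h3 : 2 ^ (5 * k) < 2 ^ (5 + 8 * od k r) := by
      calc 2 ^ (5 * k) = (2 ^ k) ^ 5 := by rw [← pow_mul, mul_comm]
        _ < (2 * 3 ^ od k r) ^ 5 := Nat.pow_lt_pow_left hr.2 (by norm_num)
        _ = 32 * (3 ^ 5) ^ od k r := by rw [mul_pow, ← pow_mul, ← pow_mul, mul_comm 5]; norm_num
        _ ≤ 32 * (2 ^ 8) ^ od k r := Nat.mul_le_mul_left _ (Nat.pow_le_pow_left (by norm_num) _)
        _ = 2 ^ (5 + 8 * od k r) := by rw [pow_add, pow_mul 2 8]; norm_num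
    have h4 := (Nat.pow_lt_pow_iff_right (by norm_num : 1 < 2)).1 h3
    have h5 : (5 * (k : ℝ)) < 5 + 8 * od k r := by exact_mod_cast h4
    linarith
  have h3 : (R.card : ℝ) * (2 : ℝ) ^ ((5 * (k : ℝ) - 5) / 8) ≤ 3 ^ k := by
    calc (R.card : ℝ) * (2 : ℝ) ^ ((5 * (k : ℝ) - 5) / 8) = ∑ _r ∈ R, (2 : ℝ) ^ ((5 * (k : ℝ) - 5) / 8) := by
          rw [sum_const, nsmul_eq_mul]
      _ ≤ ∑ r ∈ R, (2 : ℝ) ^ od k r := sum_le_sum h2
      _ ≤ ∑ r ∈ range (2 ^ k), (2 : ℝ) ^ od k r :=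
          sum_le_sum_of_subset_of_nonneg (filter_subset _ _) fun _ _ _ => by positivity
      _ = 3 ^ k := by rw [h1]; norm_num
  have h4 : (0 : ℝ) < (2 : ℝ) ^ ((5 * (k : ℝ) - 5) / 8) := by positivity
  have h5 : 2 * th ^ k * 2 ^ k * (2 : ℝ) ^ ((5 * (k : ℝ) - 5) / 8) ≥ 3 ^ k := by
    have h6 : th ^ k = 3 ^ k * (2 : ℝ) ^ (-(13 / 8 : ℝ) * k) := by
      unfold th
      rw [mul_pow, Real.rpow_mul (by norm_num), Real.rpow_natCast]
    have h7 : 2 * th ^ k * 2 ^ k * (2 : ℝ) ^ ((5 * (k : ℝ) - 5) / 8) = 3 ^ k * (2 : ℝ) ^ (3 / 8 : ℝ) := by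
      rw [h6]
      have h8 : (2 : ℝ) ^ (3 / 8 : ℝ) = 2 ^ (1 : ℝ) * (2 : ℝ) ^ (-(13 / 8 : ℝ) * k) * 2 ^ (k : ℝ)
          * (2 : ℝ) ^ ((5 * (k : ℝ) - 5) / 8) := by
        rw [← Real.rpow_add (by norm_num), ← Real.rpow_add (by norm_num), ← Real.rpow_add (by norm_num)]
        congr 1; ring
      rw [h8, Real.rpow_one, Real.rpow_natCast]; ring
    rw [h7]
    have h8 : (1 : ℝ) ≤ (2 : ℝ) ^ (3 / 8 : ℝ) := Real.one_le_rpow (by norm_num) (by norm_num)
    have h9 : (0 : ℝ) < 3 ^ k := by positivity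
    nlinarith
  exact le_of_mul_le_mul_right (h3.trans h5) h4

/-- counting by residues -/
theorem card_mod_le (N q : ℕ) (R : Finset ℕ) :
    ((Icc 1 N).filter (fun n => n % q ∈ R)).card ≤ (N / q + 1) * R.card := by
  classical
  have hsub : (Icc 1 N).filter (fun n => n % q ∈ R) ⊆
      ((range (N / q + 1)) ×ˢ R).image (fun p => p.1 * q + p.2) := by
    intro n hn
    rw [mem_filter, mem_Icc] at hn
    rw [mem_image]
    refine ⟨(n / q, n % q), ?_, ?_⟩
    · rw [mem_product, mem_range]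
      exact ⟨Nat.lt_succ_of_le (Nat.div_le_div_right hn.1.2), hn.2⟩
    · show n / q * q + n % q = n
      rw [mul_comm]; exact Nat.div_add_mod n q
  refine (card_le_card hsub).trans (card_image_le.trans ?_)
  rw [card_product, card_range]

theorem od_mod (k n : ℕ) {K : ℕ} (hk : k ≤ K) : od k (n % 2 ^ K) = od k n := by
  obtain ⟨i, rfl⟩ := Nat.exists_eq_add_of_le hk
  have h := (Pool.Agent.Helper894.Collatz.period k (n % 2 ^ (k + i)) (2 ^ i * (n / 2 ^ (k + i)))).2.1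
  rw [← mul_assoc, ← pow_add, Nat.mod_add_div] at h
  exact h.symm

theorem early_one (k N : ℕ) : cnt (fun n => 2 ^ k ≤ n ∧ n ≤ Tn^[k] n) N ≤ 4 * th ^ k * N := by
  classical
  have hth := th_pos
  rcases lt_or_ge N (2 ^ k) with h | h
  · have : cnt (fun n => 2 ^ k ≤ n ∧ n ≤ Tn^[k] n) N ≤ 0 := by
      rw [cnt_eq, filter_false_of_mem]
      · simp
      · intro n hn hcon
        rw [mem_Icc] at hn
        omega
    refine this.trans (by positivity)
  · have h1 : cnt (fun n => 2 ^ k ≤ n ∧ n ≤ Tn^[k] n) N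
        ≤ cnt (fun n => n % 2 ^ k ∈ (range (2 ^ k)).filter (fun r => 2 ^ k < 2 * 3 ^ od k r)) N := by
      refine cnt_mono N fun n hn _ ⟨h2, h3⟩ => ?_
      rw [mem_filter, mem_range]
      refine ⟨Nat.mod_lt _ (by positivity), ?_⟩
      rw [od_mod k n le_rfl]
      have h4 := Pool.Agent.Helper894.Collatz.lt_pow k n (n / 2 ^ k + 1)
        (Nat.lt_mul_div_succ n (by positivity))
      rw [Tn_eq] at h4
      have h5 : n < 3 ^ od k n * (n / 2 ^ k + 1) := lt_of_le_of_lt h3 h4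
      have h6 : 2 ^ k * (n / 2 ^ k) ≤ n := Nat.mul_div_le n (2 ^ k)
      have h7 : 2 ^ k * n < 2 * 3 ^ od k n * n := by
        calc 2 ^ k * n < 2 ^ k * (3 ^ od k n * (n / 2 ^ k + 1)) :=
              Nat.mul_lt_mul_of_pos_left h5 (by positivity)
          _ = 3 ^ od k n * (2 ^ k * (n / 2 ^ k) + 2 ^ k) := by ring
          _ ≤ 3 ^ od k n * (n + n) := Nat.mul_le_mul_left _ (by omega)
          _ = 2 * 3 ^ od k n * n := by ring
      exact lt_of_mul_lt_mul_right h7 (Nat.zero_le n)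
    have h2 := card_mod_le N (2 ^ k) ((range (2 ^ k)).filter (fun r => 2 ^ k < 2 * 3 ^ od k r))
    have h3 := count_residues k
    rw [cnt_eq, cnt_eq] at h1
    have hN : (2 : ℝ) ^ k ≤ N := by exact_mod_cast h
    have h4 : ((N / 2 ^ k + 1 : ℕ) : ℝ) * 2 ^ k ≤ 2 * N := by
      have : (N / 2 ^ k + 1) * 2 ^ k ≤ 2 * N := by
        have := Nat.div_mul_le_self N (2 ^ k)
        rw [add_mul]; omega
      exact_mod_cast this
    have h5 : (((Icc 1 N).filter (fun n => n % 2 ^ k ∈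
        (range (2 ^ k)).filter (fun r => 2 ^ k < 2 * 3 ^ od k r))).card : ℝ)
        ≤ ((N / 2 ^ k + 1 : ℕ) : ℝ) * (((range (2 ^ k)).filter (fun r => 2 ^ k < 2 * 3 ^ od k r)).card : ℝ) := by
      exact_mod_cast h2
    rw [cnt_eq]
    calc _ ≤ _ := h1
      _ ≤ _ := h5
      _ ≤ ((N / 2 ^ k + 1 : ℕ) : ℝ) * (2 * th ^ k * 2 ^ k) := mul_le_mul_of_nonneg_left h3 (Nat.cast_nonneg _)
      _ = 2 * th ^ k * (((N / 2 ^ k + 1 : ℕ) : ℝ) * 2 ^ k) := by ring
      _ ≤ 2 * th ^ k * (2 * N) := mul_le_mul_of_nonneg_left h4 (by positivity)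
      _ = 4 * th ^ k * N := by ring

/-- EARLY TIMES: few `n` are exceeded after time `K` and before time `log_2 n` -/
theorem early (K N : ℕ) : cnt (fun n => ∃ k, K ≤ k ∧ 2 ^ k ≤ n ∧ n ≤ Tn^[k] n) N
    ≤ 4 * th ^ K / (1 - th) * N := by
  classical
  have hth := th_pos
  have hth1 := th_lt
  have h1 : cnt (fun n => ∃ k, K ≤ k ∧ 2 ^ k ≤ n ∧ n ≤ Tn^[k] n) N
      ≤ ∑ k ∈ Ico K (K + N), cnt (fun n => 2 ^ k ≤ n ∧ n ≤ Tn^[k] n) N := by
    have hsub : (Icc 1 N).filter (fun n => ∃ k, K ≤ k ∧ 2 ^ k ≤ n ∧ n ≤ Tn^[k] n) ⊆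
        (Ico K (K + N)).biUnion (fun k => (Icc 1 N).filter (fun n => 2 ^ k ≤ n ∧ n ≤ Tn^[k] n)) := by
      intro n hn
      rw [mem_filter, mem_Icc] at hn
      obtain ⟨hn1, k, hk, hk2, hk3⟩ := hn
      rw [mem_biUnion]
      refine ⟨k, ?_, by rw [mem_filter, mem_Icc]; exact ⟨hn1, hk2, hk3⟩⟩
      rw [mem_Ico]
      have : k < 2 ^ k := Nat.lt_two_pow_self
      omega
    have h2 := (card_le_card hsub).trans card_biUnion_le
    have h3 : (((Icc 1 N).filter (fun n => ∃ k, K ≤ k ∧ 2 ^ k ≤ n ∧ n ≤ Tn^[k] n)).card : ℝ)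
        ≤ ∑ k ∈ Ico K (K + N), (((Icc 1 N).filter (fun n => 2 ^ k ≤ n ∧ n ≤ Tn^[k] n)).card : ℝ) := by
      exact_mod_cast h2
    rw [cnt_eq]
    refine h3.trans (le_of_eq (sum_congr rfl fun k _ => ?_))
    rw [cnt_eq]
  refine h1.trans ((sum_le_sum fun k _ => early_one k N).trans ?_)
  rw [← sum_mul]
  apply mul_le_mul_of_nonneg_right _ (Nat.cast_nonneg N)
  rw [← mul_sum, Finset.sum_Ico_eq_sum_range, Nat.add_sub_cancel_left]
  have h2 : ∑ i ∈ range N, th ^ (K + i) = th ^ K * ∑ i ∈ range N, th ^ i := by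
    rw [mul_sum]; apply sum_congr rfl; intro i _; rw [pow_add]
  have h3 : ∑ i ∈ range N, th ^ i ≤ 1 / (1 - th) := by
    rw [geom_sum_eq hth1.ne, le_div_iff₀ (by linarith)]
    have h4 : (th ^ N - 1) / (th - 1) * (1 - th) = 1 - th ^ N := by
      have : th - 1 ≠ 0 := by linarith
      field_simp
      ring
    rw [h4]
    have : 0 < th ^ N := by positivity
    linarith
  rw [h2]
  calc 4 * (th ^ K * ∑ i ∈ range N, th ^ i) = 4 * th ^ K * ∑ i ∈ range N, th ^ i := by ring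
    _ ≤ 4 * th ^ K * (1 / (1 - th)) := mul_le_mul_of_nonneg_left h3 (by positivity)
    _ = 4 * th ^ K / (1 - th) := by ring

end Pool.Agent.H499R2.ND
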