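import Pool.Agent.H499R2.NDExc

/-! Natural density: the law of the maximum excursion, part 2. -/

set_option autoImplicit false

namespace Pool.Agent.H499R2.ND

open Pool.Agent.H320R2.PD Finset Filter Topology

open Pool.Agent.Helper894.Collatz (od er)

/-- `3^(number of odd steps) < lam * 2^k` for `1 ≤ k ≤ K` -/
def AK (K : ℕ) (lam : ℝ) (n : ℕ) : Prop := ∀ k, 1 ≤ k → k ≤ K → (3 : ℝ) ^ od k n < lam * 2 ^ k

theorem AK_mod (K : ℕ) (lam : ℝ) (n : ℕ) : AK K lam (n % 2 ^ K) ↔ AK K lam n := by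
  unfold AK
  refine forall_congr' fun k => forall_congr' fun _ => ?_
  constructor
  · intro h hk
    have := h hk
    rwa [od_mod k n hk] at this
  · intro h hk
    rw [od_mod k n hk]
    exact h hk

/-- densities of unions of residue classes, within an invariant property -/
theorem dn_res {P : ℕ → Prop} {β : ℝ} (hP : ∀ n, P n ↔ P (Tn n)) (hβ : Dn P β) {q : ℕ} (hq : 0 < q)
    {R : Finset ℕ} (hR : ∀ r ∈ R, r < q) : Dn (fun n => n % q ∈ R ∧ P n) (R.card * (β / q)) := by
  classical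
  have h1 : ∀ N, cnt (fun n => n % q ∈ R ∧ P n) N = ∑ r ∈ R, cnt (fun n => n % q = r % q ∧ P n) N := by
    intro N
    rw [cnt_eq]
    have e : (Icc 1 N).filter (fun n => n % q ∈ R ∧ P n)
        = R.biUnion (fun r => (Icc 1 N).filter (fun n => n % q = r % q ∧ P n)) := by
      ext n
      rw [mem_filter, mem_biUnion]
      constructor
      · rintro ⟨h1, h2, h3⟩
        exact ⟨n % q, h2, by rw [mem_filter]; exact ⟨h1, (Nat.mod_mod n q).symm, h3⟩⟩
      · rintro ⟨r, hr, h⟩
        rw [mem_filter] at h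
        refine ⟨h.1, ?_, h.2.2⟩
        rw [h.2.1, Nat.mod_eq_of_lt (hR r hr)]
        exact hr
    rw [e, card_biUnion]
    · push_cast
      apply sum_congr rfl
      intro r _
      rw [cnt_eq]
    · intro r hr r' hr' hne
      rw [Function.onFun, Finset.disjoint_left]
      intro n hn hn'
      rw [mem_filter] at hn hn'
      apply hne
      have h2 := hn.2.1
      rw [hn'.2.1, Nat.mod_eq_of_lt (hR r hr), Nat.mod_eq_of_lt (hR r' hr')] at h2
      exact h2.symm
  unfold Dn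
  have h2 : Tendsto (fun N : ℕ => ∑ r ∈ R, cnt (fun n => n % q = r % q ∧ P n) N / N) atTop
      (𝓝 (∑ _r ∈ R, β / q)) := by
    apply tendsto_finsetSum
    intro r _
    exact inv_prog hP hβ hq r
  rw [sum_const, nsmul_eq_mul] at h2
  refine h2.congr fun N => ?_
  rw [h1, sum_div]

/-- the proportion of admissible residues -/
noncomputable def rK (K : ℕ) (lam : ℝ) : ℝ := by
  classical
  exact (((range (2 ^ K)).filter (AK K lam)).card : ℝ) / 2 ^ K

theorem dn_AK {P : ℕ → Prop} {β : ℝ} (hP : ∀ n, P n ↔ P (Tn n)) (hβ : Dn P β) (K : ℕ) (lam : ℝ) :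
    Dn (fun n => AK K lam n ∧ P n) (rK K lam * β) := by
  classical
  have h := dn_res hP hβ (q := 2 ^ K) (by positivity) (R := (range (2 ^ K)).filter (AK K lam))
    (fun r hr => mem_range.1 (mem_filter.1 hr).1)
  have e : (fun n => n % 2 ^ K ∈ (range (2 ^ K)).filter (AK K lam) ∧ P n) = fun n => AK K lam n ∧ P n := by
    funext n
    rw [mem_filter, mem_range, AK_mod]
    have : n % 2 ^ K < 2 ^ K := Nat.mod_lt _ (by positivity)
    simp [this]
  rw [e] at h
  have e2 : rK K lam * β = (((range (2 ^ K)).filter (AK K lam)).card : ℝ) * (β / ((2 ^ K : ℕ) : ℝ)) := by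
    unfold rK
    push_cast
    ring
  rw [e2]
  exact h

theorem true_density : Dn (fun _ => True) 1 := by
  unfold Dn
  refine (tendsto_const_nhds (x := (1 : ℝ))).congr' ?_
  filter_upwards [eventually_gt_atTop 0] with N hN
  rw [cnt_eq, filter_true_of_mem (fun _ _ => trivial), Nat.card_Icc, Nat.add_sub_cancel]
  have : (N : ℝ) ≠ 0 := by exact_mod_cast hN.ne'
  rw [div_self this]

theorem rK_anti (lam : ℝ) : Antitone (fun K => rK K lam) := by
  apply antitone_nat_of_succ_le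
  intro K
  have h1 := dn_AK (P := fun _ => True) (fun n => Iff.rfl) true_density K lam
  have h2 := dn_AK (P := fun _ => True) (fun n => Iff.rfl) true_density (K + 1) lam
  rw [mul_one] at h1 h2
  refine le_of_tendsto_of_tendsto' h2 h1 fun N => ?_
  apply div_le_div_of_nonneg_right _ (Nat.cast_nonneg N)
  exact cnt_mono N fun n _ _ ⟨h, _⟩ => ⟨fun k hk1 hk2 => h k hk1 (by omega), trivial⟩

theorem rK_nonneg (K : ℕ) (lam : ℝ) : 0 ≤ rK K lam := by unfold rK; positivity

theorem rK_le_one (K : ℕ) (lam : ℝ) : rK K lam ≤ 1 := by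
  classical
  unfold rK
  rw [div_le_one (by positivity)]
  have := card_filter_le (range (2 ^ K)) (AK K lam)
  rw [card_range] at this
  exact_mod_cast this

/-- VILLE'S INEQUALITY -/
theorem ville {lam : ℝ} (K : ℕ) : ∑ r ∈ range (2 ^ K),
    (open Classical in if AK K lam r then (3 : ℝ) ^ od K r / 2 ^ K else lam) ≤ 2 ^ K := by
  classical
  induction K with
  | zero =>
    have h0 : AK 0 lam 0 := fun k h1 h2 => by omega
    rw [pow_zero, range_one, sum_singleton, if_pos h0]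
    simp [od]
  | succ K ih =>
    rw [pow_succ 2, mul_two, sum_range_add, ← sum_add_distrib]
    have hstep : ∀ r ∈ range (2 ^ K), ((if AK (K + 1) lam r then (3 : ℝ) ^ od (K + 1) r / 2 ^ (K + 1) else lam)
        + (if AK (K + 1) lam (2 ^ K + r) then (3 : ℝ) ^ od (K + 1) (2 ^ K + r) / 2 ^ (K + 1) else lam))
        ≤ 2 * (if AK K lam r then (3 : ℝ) ^ od K r / 2 ^ K else lam) := by
      intro r _
      rw [add_comm (2 ^ K) r]
      have hA : AK K lam (r + 2 ^ K) ↔ AK K lam r := by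
        rw [← AK_mod K lam (r + 2 ^ K), Nat.add_mod_right, AK_mod]
      by_cases h : AK K lam r
      · have hc : ∀ c : ℕ, AK K lam c → (if AK (K + 1) lam c then (3 : ℝ) ^ od (K + 1) c / 2 ^ (K + 1) else lam)
            ≤ (3 : ℝ) ^ od (K + 1) c / 2 ^ (K + 1) := by
          intro c hc
          split_ifs with h2
          · exact le_rfl
          · rw [le_div_iff₀ (by positivity)]
            by_contra hlt
            push Not at hlt
            apply h2
            intro k hk1 hk2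
            rcases Nat.lt_or_ge k (K + 1) with h3 | h3
            · exact hc k hk1 (by omega)
            · have : k = K + 1 := by omega
              rw [this]; exact hlt
        rw [if_pos h]
        refine (add_le_add (hc r h) (hc (r + 2 ^ K) (hA.2 h))).trans (le_of_eq ?_)
        rw [Pool.Agent.Helper894.Collatz.od_succ, Pool.Agent.Helper894.Collatz.od_succ,
          Pool.Agent.Helper894.Collatz.flip_parity, Pool.Agent.Helper894.Collatz.od_shift]
        rcases Nat.mod_two_eq_zero_or_one (Pool.Agent.Helper894.Collatz.T^[K] r) with h' | h'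
        · rw [h']; simp [pow_succ]; field_simp; norm_num
        · rw [h']; simp [pow_succ]; field_simp; norm_num
      · have h2 : ¬ AK (K + 1) lam r := fun h3 => h fun k hk1 hk2 => h3 k hk1 (by omega)
        have h3 : ¬ AK (K + 1) lam (r + 2 ^ K) := fun h3 => h (hA.1 fun k hk1 hk2 => h3 k hk1 (by omega))
        rw [if_neg h, if_neg h2, if_neg h3]
        linarith
    refine (sum_le_sum hstep).trans ?_
    rw [← mul_sum]
    have : (2 : ℝ) ^ (K + 1) = 2 * 2 ^ K := by ring
    rw [this]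
    linarith

theorem rK_ge {lam : ℝ} (hl : 0 < lam) (K : ℕ) : 1 - 1 / lam ≤ rK K lam := by
  classical
  have h := ville (lam := lam) K
  rw [← sum_filter_add_sum_filter_not (range (2 ^ K)) (AK K lam)] at h
  have h1 : 0 ≤ ∑ r ∈ (range (2 ^ K)).filter (AK K lam),
      (if AK K lam r then (3 : ℝ) ^ od K r / 2 ^ K else lam) := by
    apply sum_nonneg
    intro r _
    split_ifs <;> positivity
  have h2 : ∑ r ∈ (range (2 ^ K)).filter (fun r => ¬ AK K lam r),
      (if AK K lam r then (3 : ℝ) ^ od K r / 2 ^ K else lam)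
      = (((range (2 ^ K)).filter (fun r => ¬ AK K lam r)).card : ℝ) * lam := by
    rw [← nsmul_eq_mul, ← sum_const]
    apply sum_congr rfl
    intro r hr
    rw [if_neg (mem_filter.1 hr).2]
  have h3 := card_filter_add_card_filter_not (s := range (2 ^ K)) (AK K lam)
  rw [card_range] at h3
  have h4 : (((range (2 ^ K)).filter (AK K lam)).card : ℝ)
      + (((range (2 ^ K)).filter (fun r => ¬ AK K lam r)).card : ℝ) = 2 ^ K := by exact_mod_cast h3
  rw [h2] at h
  have h5 : (((range (2 ^ K)).filter (fun r => ¬ AK K lam r)).card : ℝ) ≤ 2 ^ K / lam := by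
    rw [le_div_iff₀ hl]; linarith
  unfold rK
  rw [le_div_iff₀ (by positivity)]
  have h6 : (1 - 1 / lam) * 2 ^ K = 2 ^ K - 2 ^ K / lam := by ring
  rw [h6]
  linarith

/-! ### the additive term -/

theorem er_le (k n : ℕ) : er k n + 2 ^ k ≤ 3 ^ k := by
  induction k with
  | zero => simp [er]
  | succ k ih =>
    rw [Pool.Agent.Helper894.Collatz.er_succ]
    have h1 : 2 ^ (k + 1) = 2 * 2 ^ k := by ring
    have h2 : 3 ^ (k + 1) = 3 * 3 ^ k := by ring
    split_ifs <;> omega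

theorem er_pos {k n : ℕ} (h : 1 ≤ od k n) : 1 ≤ er k n := by
  induction k with
  | zero => simp [od] at h
  | succ k ih =>
    rw [Pool.Agent.Helper894.Collatz.er_succ]
    split_ifs with h1
    · rw [Pool.Agent.Helper894.Collatz.od_succ, h1, add_zero] at h
      exact ih h
    · have : 1 ≤ 2 ^ k := Nat.one_le_two_pow
      omega

theorem iter_real (k n : ℕ) : (2 : ℝ) ^ k * ((Tn^[k] n : ℕ) : ℝ) = 3 ^ od k n * n + er k n := by
  have h := Pool.Agent.Helper894.Collatz.iter_eq k n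
  rw [Tn_eq] at h
  exact_mod_cast h

theorem AK_of_bound {lam : ℝ} (hl : 1 ≤ lam) {n : ℕ} (hn : 1 ≤ n)
    (h : ∀ k, ((Tn^[k] n : ℕ) : ℝ) ≤ lam * n) (K : ℕ) : AK K lam n := by
  intro k hk1 _
  by_contra hcon
  push Not at hcon
  have hnR : (0 : ℝ) < n := by exact_mod_cast hn
  have h1 := iter_real k n
  have h2 : (2 : ℝ) ^ k * ((Tn^[k] n : ℕ) : ℝ) ≤ 2 ^ k * (lam * n) :=
    mul_le_mul_of_nonneg_left (h k) (by positivity)
  have h3 : lam * 2 ^ k * n ≤ 3 ^ od k n * n := mul_le_mul_of_nonneg_right hcon hnR.le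
  have h4 : (er k n : ℝ) ≤ 0 := by nlinarith
  have h5 : 1 ≤ od k n := by
    by_contra h6
    have h7 : od k n = 0 := by omega
    rw [h7, pow_zero] at hcon
    have h8 : (2 : ℝ) ≤ 2 ^ k := by
      calc (2 : ℝ) = 2 ^ 1 := by norm_num
        _ ≤ 2 ^ k := pow_le_pow_right₀ (by norm_num) hk1
    nlinarith
  have h6 : (1 : ℝ) ≤ er k n := by exact_mod_cast er_pos h5
  linarith

theorem exists_nK (K : ℕ) (lam : ℝ) : ∃ n1 : ℕ, ∀ k ≤ K, ∀ a ≤ K, (3 : ℝ) ^ a < lam * 2 ^ k →
    (3 : ℝ) ^ K ≤ (lam * 2 ^ k - 3 ^ a) * n1 := by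
  have h : ∀ k a : ℕ, ∃ m : ℕ, (3 : ℝ) ^ a < lam * 2 ^ k → (3 : ℝ) ^ K ≤ (lam * 2 ^ k - 3 ^ a) * m := by
    intro k a
    by_cases h : (3 : ℝ) ^ a < lam * 2 ^ k
    · obtain ⟨m, hm⟩ := exists_nat_ge ((3 : ℝ) ^ K / (lam * 2 ^ k - 3 ^ a))
      refine ⟨m, fun _ => ?_⟩
      rw [div_le_iff₀ (by linarith)] at hm
      linarith
    · exact ⟨0, fun h' => absurd h' h⟩
  choose m hm using h
  refine ⟨(range (K + 1) ×ˢ range (K + 1)).sup (fun p => m p.1 p.2), fun k hk a ha hlt => ?_⟩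
  have h1 : m k a ≤ (range (K + 1) ×ˢ range (K + 1)).sup (fun p => m p.1 p.2) :=
    Finset.le_sup (f := fun p : ℕ × ℕ => m p.1 p.2) (b := (k, a))
      (by rw [mem_product, mem_range, mem_range]; exact ⟨by omega, by omega⟩)
  refine (hm k a hlt).trans ?_
  apply mul_le_mul_of_nonneg_left _ (by linarith)
  exact_mod_cast h1

theorem od_le (k n : ℕ) : od k n ≤ k := by
  induction k with
  | zero => simp [od]
  | succ k ih =>
    rw [Pool.Agent.Helper894.Collatz.od_succ]
    have := Nat.mod_lt (Pool.Agent.Helper894.Collatz.T^[k] n) (show 2 > 0 by norm_num)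
    omega

/-- THE LAW OF THE MAXIMUM EXCURSION -/
theorem exc_law {β : ℝ} (hβ : Dn Bdd β) {lam : ℝ} (hl : 1 ≤ lam) : ∃ q : ℝ,
    Tendsto (fun K => rK K lam) atTop (𝓝 q) ∧ 1 - 1 / lam ≤ q ∧ q ≤ 1 ∧
    Dn (fun n => ∀ k, ((Tn^[k] n : ℕ) : ℝ) ≤ lam * n) (β * q) := by
  classical
  have hth := th_pos
  have hth1 := th_lt
  have hlim := tendsto_atTop_ciInf (rK_anti lam) ⟨0, by rintro _ ⟨K, rfl⟩; exact rK_nonneg K lam⟩
  set q := ⨅ K, rK K lam with hq
  have hq1 : 1 - 1 / lam ≤ q := ge_of_tendsto' hlim fun K => rK_ge (by linarith) K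
  have hq2 : q ≤ 1 := le_of_tendsto' hlim fun K => rK_le_one K lam
  refine ⟨q, hlim, hq1, hq2, ?_⟩
  have hlate := zd_iff.1 (late Bdd_inv (fun n h => h))
  unfold Dn
  rw [Metric.tendsto_atTop]
  intro ε hε
  -- choice of `K`
  have h1 : Tendsto (fun K => 4 * th ^ K / (1 - th)) atTop (𝓝 0) := by
    have := ((tendsto_pow_atTop_nhds_zero_of_lt_one hth.le hth1).const_mul 4).div_const (1 - th)
    simpa using this
  have h2 : Tendsto (fun K => |rK K lam * β - β * q|) atTop (𝓝 0) := by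
    have h3 := (hlim.mul_const β).sub_const (β * q)
    rw [mul_comm q β, sub_self] at h3
    simpa using h3.abs
  obtain ⟨K, hK1, hK2⟩ := ((h1.eventually (gt_mem_nhds (show (0 : ℝ) < ε / 8 by positivity))).and
    (h2.eventually (gt_mem_nhds (show (0 : ℝ) < ε / 4 by positivity)))).exists
  obtain ⟨n1, hn1⟩ := exists_nK K lam
  have h3 := Metric.tendsto_atTop.1 (dn_AK Bdd_inv hβ K lam) (ε / 4) (by positivity)
  obtain ⟨N1, hN1⟩ := h3
  obtain ⟨N2, hN2⟩ := eventually_atTop.1 (hlate (ε / 8) (by positivity))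
  obtain ⟨N3, hN3⟩ := eventually_atTop.1 (zd_iff.1 (zd_bdd n1) (ε / 8) (by positivity))
  refine ⟨max (max N1 N2) (max N3 1), fun N hN => ?_⟩
  have g1 := hN1 N ((le_max_left _ _).trans ((le_max_left _ _).trans hN))
  have g2 := hN2 N ((le_max_right _ _).trans ((le_max_left _ _).trans hN))
  have g3 := hN3 N ((le_max_left _ _).trans ((le_max_right _ _).trans hN))
  have g4 : 1 ≤ N := (le_max_right _ _).trans ((le_max_right _ _).trans hN)
  have hNR : (0 : ℝ) < N := by exact_mod_cast g4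
  have g5 := early K N
  -- inclusions
  have i1 : cnt (fun n => ∀ k, ((Tn^[k] n : ℕ) : ℝ) ≤ lam * n) N ≤ cnt (fun n => AK K lam n ∧ Bdd n) N := by
    refine cnt_mono N fun n hn _ h => ⟨AK_of_bound hl hn h K, ⌊lam * n⌋₊, fun k => Nat.le_floor (h k)⟩
  have i2 : cnt (fun n => AK K lam n ∧ Bdd n) N ≤ cnt (fun n => ∀ k, ((Tn^[k] n : ℕ) : ℝ) ≤ lam * n) N
      + (cnt (fun n => Bdd n ∧ ∃ k, n < 2 ^ k ∧ n ≤ Tn^[k] n) N
      + (cnt (fun n => ∃ k, K ≤ k ∧ 2 ^ k ≤ n ∧ n ≤ Tn^[k] n) N + cnt (fun n : ℕ => (n : ℝ) ≤ n1) N)) := by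
    refine (cnt_or N (Q := fun n => ∀ k, ((Tn^[k] n : ℕ) : ℝ) ≤ lam * n)
      (R := fun n => (Bdd n ∧ ∃ k, n < 2 ^ k ∧ n ≤ Tn^[k] n) ∨
        ((∃ k, K ≤ k ∧ 2 ^ k ≤ n ∧ n ≤ Tn^[k] n) ∨ (n : ℝ) ≤ n1)) fun n hn hnN hp => ?_).trans
      (add_le_add le_rfl ((cnt_or N fun n _ _ h => h).trans (add_le_add le_rfl (cnt_or N fun n _ _ h => h))))
    by_contra hcon
    push Not at hcon
    obtain ⟨⟨k, hk⟩, hc1, hc2, hc3⟩ := hcon
    have hnR : (0 : ℝ) < n := by exact_mod_cast hn
    have hle : n ≤ Tn^[k] n := by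
      have h4 : (n : ℝ) ≤ lam * n := by nlinarith
      have h5 : (n : ℝ) < ((Tn^[k] n : ℕ) : ℝ) := by linarith
      exact_mod_cast h5.le
    have h2k : 2 ^ k ≤ n := by
      by_contra hlt
      exact absurd hle (not_le.2 (hc1 hp.2 k (by omega)))
    have hkK : k < K := by
      by_contra hlt
      exact absurd hle (not_le.2 (hc2 k (by omega) h2k))
    have hk1 : 1 ≤ k := by
      by_contra h0
      have : k = 0 := by omega
      subst this
      simp only [Function.iterate_zero, id] at hk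
      nlinarith
    have h4 := hp.1 k hk1 hkK.le
    have h5 := hn1 k hkK.le (od k n) ((od_le k n).trans hkK.le) h4
    have h6 := iter_real k n
    have h7 : (er k n : ℝ) ≤ 3 ^ K := by
      have h8 : er k n ≤ 3 ^ k := by
        have := er_le k n
        exact le_trans (Nat.le_add_right _ _) this
      have h9 : 3 ^ k ≤ 3 ^ K := Nat.pow_le_pow_right (by norm_num) hkK.le
      exact_mod_cast h8.trans h9
    have h8 : (lam * 2 ^ k - 3 ^ od k n) * n1 ≤ (lam * 2 ^ k - 3 ^ od k n) * n :=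
      mul_le_mul_of_nonneg_left hc3.le (by linarith)
    have h9 : (2 : ℝ) ^ k * ((Tn^[k] n : ℕ) : ℝ) ≤ 2 ^ k * (lam * n) := by
      rw [h6]
      have : (2 : ℝ) ^ k * (lam * n) = 3 ^ od k n * n + (lam * 2 ^ k - 3 ^ od k n) * n := by ring
      rw [this]; linarith
    have h10 := le_of_mul_le_mul_left h9 (by positivity)
    linarith
  have g6 : |cnt (fun n => ∀ k, ((Tn^[k] n : ℕ) : ℝ) ≤ lam * n) N / N - cnt (fun n => AK K lam n ∧ Bdd n) N / N|
      ≤ 3 * (ε / 8) := by
    rw [← sub_div, abs_div, abs_of_pos hNR, div_le_iff₀ hNR, abs_le]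
    have h7 : 4 * th ^ K / (1 - th) * N ≤ ε / 8 * N := mul_le_mul_of_nonneg_right hK1.le hNR.le
    constructor
    · linarith
    · have : 0 ≤ 3 * (ε / 8) * N := by positivity
      linarith
  rw [Real.dist_eq] at g1 ⊢
  calc |cnt (fun n => ∀ k, ((Tn^[k] n : ℕ) : ℝ) ≤ lam * n) N / N - β * q|
      = |(cnt (fun n => ∀ k, ((Tn^[k] n : ℕ) : ℝ) ≤ lam * n) N / N - cnt (fun n => AK K lam n ∧ Bdd n) N / N)
        + (cnt (fun n => AK K lam n ∧ Bdd n) N / N - rK K lam * β) + (rK K lam * β - β * q)| := by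
        congr 1; ring
    _ ≤ 3 * (ε / 8) + ε / 4 + ε / 4 := by
        refine (abs_add_le _ _).trans (add_le_add ((abs_add_le _ _).trans (add_le_add g6 g1.le)) hK2.le)
    _ < ε := by linarith

end Pool.Agent.H499R2.ND
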