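import Pool.Agent.H499R2.NDLln
import Pool.Agent.H363R2.Height2

/-! Natural density: the profile of almost all orbits of a basin. -/

set_option autoImplicit false

namespace Pool.Agent.H499R2.ND

open Pool.Agent.H320R2.PD Finset Filter Topology

open Pool.Agent.H319R2.Lln (mu)

theorem mu_pos' : 0 < mu := by
  unfold mu
  have := Real.log_pos (by norm_num : (1 : ℝ) < 4 / 3)
  linarith

theorem prof_zd {ε : ℝ} (hε : 0 < ε) : Dn (fun n : ℕ => ¬ ∃ m0 : ℕ,
    Real.log ((Tn^[m0] n : ℕ) : ℝ) ≤ ε * Real.log n ∧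
    ∀ m ≤ m0, |Real.log ((Tn^[m] n : ℕ) : ℝ) - Real.log n + mu * m| ≤ ε * Real.log n) 0 := by
  classical
  obtain ⟨B, hB, hl⟩ := Pool.Agent.H319R2.Lln.lln ε 1 hε zero_le_one
  apply zd_of_large
  intro η hη hη1
  have hcast : Tendsto (fun N : ℕ => (N : ℝ)) atTop atTop := tendsto_natCast_atTop_atTop
  have hlogN : Tendsto (fun N : ℕ => Real.log (N : ℝ)) atTop atTop :=
    Real.tendsto_log_atTop.comp hcast
  have e1 := hcast.eventually hl
  have e2 : ∀ᶠ N : ℕ in atTop, 2 / η ≤ Real.log N := hlogN.eventually_ge_atTop _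
  have e3 : ∀ᶠ N : ℕ in atTop, Real.log (N : ℝ) ^ 4 ≤ N := by
    have h1 := (isLittleO_log_rpow_atTop (show (0 : ℝ) < 1 / 4 by norm_num)).bound (zero_lt_one)
    have h2 := hcast.eventually h1
    filter_upwards [h2, eventually_ge_atTop 1] with N h3 h4
    have hN : (1 : ℝ) ≤ N := by exact_mod_cast h4
    rw [one_mul, Real.norm_eq_abs, Real.norm_eq_abs, abs_of_nonneg (Real.log_nonneg hN),
      abs_of_nonneg (by positivity)] at h3
    calc Real.log (N : ℝ) ^ 4 ≤ ((N : ℝ) ^ (1 / 4 : ℝ)) ^ 4 :=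
          pow_le_pow_left₀ (Real.log_nonneg hN) h3 4
      _ = N := by
          rw [← Real.rpow_natCast, ← Real.rpow_mul (by linarith)]
          norm_num
  have e4 : ∀ᶠ N : ℕ in atTop, B * Real.log (Real.log N) ≤ ε * (Real.log η + Real.log N) := by
    have h1 := (Real.isLittleO_log_id_atTop).bound (show (0 : ℝ) < ε / (2 * B) by positivity)
    have h2 := hlogN.eventually h1
    filter_upwards [h2, hlogN.eventually_ge_atTop (max 1 (-2 * Real.log η))] with N h3 h4
    have h5 : 1 ≤ Real.log (N : ℝ) := (le_max_left _ _).trans h4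
    have h6 : -2 * Real.log η ≤ Real.log (N : ℝ) := (le_max_right _ _).trans h4
    rw [Real.norm_eq_abs, Real.norm_eq_abs, id, abs_of_nonneg (Real.log_nonneg h5),
      abs_of_nonneg (by linarith)] at h3
    calc B * Real.log (Real.log N) ≤ B * (ε / (2 * B) * Real.log N) :=
          mul_le_mul_of_nonneg_left h3 hB.le
      _ = ε * (Real.log N / 2) := by field_simp
      _ ≤ ε * (Real.log η + Real.log N) := mul_le_mul_of_nonneg_left (by linarith) hε.le
  have e5 : ∀ᶠ N : ℕ in atTop, 2 / η ≤ (N : ℝ) := hcast.eventually_ge_atTop _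
  filter_upwards [e1, e2, e3, e4, e5, eventually_ge_atTop 2] with N h1 h2 h3 h4 h5 hN
  have hN2 : (2 : ℝ) ≤ N := by exact_mod_cast hN
  have hN0 : (0 : ℝ) < N := by linarith
  have hlog : 0 < Real.log (N : ℝ) := Real.log_pos (by linarith)
  rw [cnt_eq]
  have h6 := h1 ((N : ℝ) ^ 3) (by nlinarith [sq_nonneg ((N : ℝ) - 1)])
    ((Icc 1 N).filter (fun n => η * N < n ∧ ¬ ∃ m0 : ℕ,
    Real.log ((Tn^[m0] n : ℕ) : ℝ) ≤ ε * Real.log n ∧
    ∀ m ≤ m0, |Real.log ((Tn^[m] n : ℕ) : ℝ) - Real.log n + mu * m| ≤ ε * Real.log n)) (by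
      intro n hn
      rw [mem_filter, mem_Icc] at hn
      refine ⟨hn.1.1, by exact_mod_cast hn.1.2, ?_⟩
      rintro ⟨m0, hm0, hprof⟩
      apply hn.2.2
      refine ⟨m0, ?_, fun m hm => (hprof m hm).1⟩
      have hpos : (1 : ℝ) ≤ ((Tn^[m0] n : ℕ) : ℝ) := by
        exact_mod_cast Tn_iter_pos hn.1.1 m0
      have g1 : Real.log ((Tn^[m0] n : ℕ) : ℝ) ≤ B * Real.log (Real.log N) := by
        rw [← Real.log_rpow hlog]
        exact Real.log_le_log (by linarith) hm0
      have g2 : Real.log η + Real.log N ≤ Real.log n := by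
        rw [← Real.log_mul hη.ne' hN0.ne']
        exact Real.log_le_log (by positivity) hn.2.1.le
      exact g1.trans (h4.trans (mul_le_mul_of_nonneg_left g2 hε.le)))
  refine h6.trans ?_
  have h7 : (N : ℝ) / Real.log N ^ (1 : ℝ) ≤ η / 2 * N := by
    rw [Real.rpow_one, div_le_iff₀ hlog]
    rw [div_le_iff₀ hη] at h2
    nlinarith
  have h8 : (N : ℝ) ^ 2 * Real.log N ^ 4 / (N : ℝ) ^ 3 ≤ η / 2 * N := by
    rw [div_le_iff₀ (by positivity)]
    rw [div_le_iff₀ hη] at h5
    calc (N : ℝ) ^ 2 * Real.log N ^ 4 ≤ (N : ℝ) ^ 2 * N :=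
          mul_le_mul_of_nonneg_left h3 (by positivity)
      _ = N ^ 3 * 1 := by ring
      _ ≤ N ^ 3 * (η / 2 * N) := by
          apply mul_le_mul_of_nonneg_left _ (by positivity)
          linarith
      _ = η / 2 * N * N ^ 3 := by ring
  linarith

/-- `log` changes by at most `log 2` per step -/
theorem log_step {n : ℕ} (hn : 1 ≤ n) (k : ℕ) :
    Real.log ((Tn^[k] n : ℕ) : ℝ) ≤ Real.log n + k * Real.log 2 := by
  induction k with
  | zero => simp
  | succ k ih =>
    rw [Function.iterate_succ_apply']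
    have h1 := Tn_le (Tn_iter_pos hn k)
    have h2 : (1 : ℝ) ≤ ((Tn^[k] n : ℕ) : ℝ) := by exact_mod_cast Tn_iter_pos hn k
    have h3 : (1 : ℝ) ≤ ((Tn (Tn^[k] n) : ℕ) : ℝ) := by exact_mod_cast Tn_pos (Tn_iter_pos hn k)
    have h4 : Real.log ((Tn (Tn^[k] n) : ℕ) : ℝ) ≤ Real.log (2 * ((Tn^[k] n : ℕ) : ℝ)) :=
      Real.log_le_log (by linarith) (by exact_mod_cast h1)
    rw [Real.log_mul (by norm_num) (by linarith)] at h4
    rw [Nat.cast_succ, add_mul, one_mul]
    linarith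

/-- a target hit by the orbit is hit in time `κ log n` -/
theorem time_zd {κ : ℝ} (hκ : 2 / Real.log (4 / 3) < κ) (R : ℕ → Prop) :
    Dn (fun n : ℕ => (∃ k, R (Tn^[k] n)) ∧ ∀ k : ℕ, (k : ℝ) ≤ κ * Real.log n → ¬ R (Tn^[k] n)) 0 := by
  classical
  rw [zd_iff]
  intro ε hε
  set c : ℝ := 2 / Real.log (4 / 3) with hc
  obtain ⟨y, hy⟩ := hit (κ := (c + κ) / 2) (by linarith) (ε := ε / 2) (by positivity)
  -- bound for the remaining time
  have hM : ∀ a : ℕ, ∃ M : ℕ, (∃ k, R (Tn^[k] a)) → ∃ k ≤ M, R (Tn^[k] a) := by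
    intro a
    by_cases h : ∃ k, R (Tn^[k] a)
    · obtain ⟨k, hk⟩ := h
      exact ⟨k, fun _ => ⟨k, le_rfl, hk⟩⟩
    · exact ⟨0, fun h' => absurd h' h⟩
  choose M hM using hM
  set W : ℕ := (range (y + 1)).sup M with hW
  have hcast : Tendsto (fun N : ℕ => (N : ℝ)) atTop atTop := tendsto_natCast_atTop_atTop
  have hκc : 0 < (κ - c) / 2 := by linarith
  -- n large
  set n0 : ℝ := Real.exp (W / ((κ - c) / 2)) with hn0
  filter_upwards [hy, hcast.eventually_ge_atTop (n0 / (ε / 2))] with N h1 h2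
  have hsplit : cnt (fun n : ℕ => (∃ k, R (Tn^[k] n)) ∧
      ∀ k : ℕ, (k : ℝ) ≤ κ * Real.log n → ¬ R (Tn^[k] n)) N
      ≤ cnt (fun n => (n : ℝ) ≤ n0) N
        + cnt (fun n => ∀ j : ℕ, (j : ℝ) ≤ (c + κ) / 2 * Real.log n → y < Tn^[j] n) N := by
    refine cnt_or N fun n hn hnN hp => ?_
    rcases le_or_gt (n : ℝ) n0 with hle | hgt
    · exact Or.inl hle
    · refine Or.inr fun j hj => ?_
      by_contra hcon
      push Not at hcon
      obtain ⟨⟨k, hk⟩, hno⟩ := hp
      have hlogn : W ≤ (κ - c) / 2 * Real.log n := by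
        have h3 : W / ((κ - c) / 2) ≤ Real.log n := by
          rw [Real.le_log_iff_exp_le (by exact_mod_cast hn)]
          exact hgt.le
        rw [div_le_iff₀ hκc] at h3
        linarith
      rcases lt_or_ge k j with hkj | hkj
      · apply hno k _ hk
        have : (k : ℝ) ≤ j := by exact_mod_cast hkj.le
        have h4 : (0 : ℝ) ≤ W := Nat.cast_nonneg W
        linarith
      · obtain ⟨i, rfl⟩ := Nat.exists_eq_add_of_le hkj
        obtain ⟨k', hk', hR⟩ := hM (Tn^[j] n) ⟨i, by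
          rw [← Function.iterate_add_apply, add_comm]; exact hk⟩
        have hMW : M (Tn^[j] n) ≤ W := Finset.le_sup (f := M) (mem_range.2 (by omega))
        apply hno (k' + j) _ (by rw [Function.iterate_add_apply]; exact hR)
        have : ((k' + j : ℕ) : ℝ) ≤ W + j := by
          push_cast
          have : (k' : ℝ) ≤ W := by exact_mod_cast hk'.trans hMW
          linarith
        linarith
  have h3 := cnt_small (t := n0) (by positivity) N
  rw [div_le_iff₀ (by positivity)] at h2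
  linarith

/-- PROFILE: almost every orbit which meets `R` follows the profile until it first meets `R` -/
theorem full_zd {ε : ℝ} (hε : 0 < ε) (R : ℕ → Prop) :
    Dn (fun n : ℕ => (∃ k, R (Tn^[k] n)) ∧ ¬ ∃ t : ℕ, R (Tn^[t] n) ∧ (∀ j < t, ¬ R (Tn^[j] n)) ∧
      ∀ j ≤ t, |Real.log ((Tn^[j] n : ℕ) : ℝ) - Real.log n + mu * j| ≤ ε * Real.log n) 0 := by
  classical
  have hmu := mu_pos'
  have hc : 2 / Real.log (4 / 3) = 1 / mu := by unfold mu; rw [one_div_div]
  set ε' : ℝ := ε / (5 + 3 / mu + mu) with hε'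
  have hε'0 : 0 < ε' := by positivity
  have hεeq : ε' * (5 + 3 / mu + mu) = ε := by
    rw [hε']; field_simp
  have h1 := prof_zd hε'0
  have h2 := time_zd (κ := 1 / mu + ε') (by rw [hc]; linarith) R
  refine zd_or h1 h2 fun n hn hp => ?_
  by_contra hcon
  push Not at hcon
  obtain ⟨⟨m0, hm0, hprof⟩, hcon2⟩ := hcon
  obtain ⟨hex, hno⟩ := hp
  obtain ⟨k, hk, hR⟩ := hcon2 hex
  apply hno
  have hlogn : 0 ≤ Real.log (n : ℝ) := Real.log_natCast_nonneg n
  have hfind : Nat.find hex ≤ k := Nat.find_min' hex hR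
  have htk : (Nat.find hex : ℝ) ≤ (1 / mu + ε') * Real.log n :=
    le_trans (by exact_mod_cast hfind) hk
  have hl2 : Real.log 2 < 1 := by
    have := Real.log_two_lt_d9; linarith
  have hl20 : 0 < Real.log 2 := Real.log_pos (by norm_num)
  refine ⟨Nat.find hex, Nat.find_spec hex, fun j hj => Nat.find_min hex hj, fun j hj => ?_⟩
  have hjR : (j : ℝ) ≤ (1 / mu + ε') * Real.log n := le_trans (by exact_mod_cast hj) htk
  rcases le_or_gt j m0 with hjm | hjm
  · refine (hprof j hjm).trans ?_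
    apply mul_le_mul_of_nonneg_right _ hlogn
    calc ε' = ε' * 1 := by ring
      _ ≤ ε' * (5 + 3 / mu + mu) := by
          apply mul_le_mul_of_nonneg_left _ hε'0.le
          have : 0 < 3 / mu := by positivity
          linarith
      _ = ε := hεeq
  · obtain ⟨i, rfl⟩ := Nat.exists_eq_add_of_lt hjm
    have g1 := abs_le.1 (hprof m0 le_rfl)
    have g0 : 0 ≤ Real.log ((Tn^[m0] n : ℕ) : ℝ) := Real.log_natCast_nonneg _
    -- `m0` is large
    have g2 : (1 - 2 * ε') * Real.log n ≤ mu * m0 := by linarith [g1.1]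
    have g3 : mu * ((i + 1 : ℕ) : ℝ) ≤ (2 + mu) * ε' * Real.log n := by
      have h5 : mu * ((m0 + i + 1 : ℕ) : ℝ) ≤ mu * ((1 / mu + ε') * Real.log n) :=
        mul_le_mul_of_nonneg_left hjR hmu.le
      have h6 : mu * ((1 / mu + ε') * Real.log n) = (1 + mu * ε') * Real.log n := by
        field_simp
      rw [h6] at h5
      push_cast at h5 ⊢
      nlinarith
    have g4 : ((i + 1 : ℕ) : ℝ) ≤ (2 / mu + 1) * ε' * Real.log n := by
      have h5 : mu * ((2 / mu + 1) * ε' * Real.log n) = (2 + mu) * ε' * Real.log n := by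
        field_simp
      rw [← h5] at g3
      exact le_of_mul_le_mul_left g3 hmu
    have g5 : Real.log ((Tn^[m0 + i + 1] n : ℕ) : ℝ) ≤ Real.log ((Tn^[m0] n : ℕ) : ℝ)
        + ((i + 1 : ℕ) : ℝ) * Real.log 2 := by
      have := log_step (Tn_iter_pos hn m0) (i + 1)
      rwa [← Function.iterate_add_apply, show i + 1 + m0 = m0 + i + 1 by ring] at this
    have g6 : 0 ≤ Real.log ((Tn^[m0 + i + 1] n : ℕ) : ℝ) := Real.log_natCast_nonneg _
    have g7 : ((i + 1 : ℕ) : ℝ) * Real.log 2 ≤ (2 / mu + 1) * ε' * Real.log n := by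
      have : (0 : ℝ) ≤ ((i + 1 : ℕ) : ℝ) := Nat.cast_nonneg _
      nlinarith
    have g8 : ε * Real.log n = ε' * 5 * Real.log n + 3 / mu * ε' * Real.log n + mu * ε' * Real.log n := by
      rw [← hεeq]; ring
    have g9 : 0 ≤ ε' * Real.log n := by positivity
    have g10 : 0 ≤ 1 / mu * ε' * Real.log n := by positivity
    have g11 : 0 ≤ mu * ε' * Real.log n := by positivity
    have g12 : (2 / mu + 1) * ε' * Real.log n = 2 * (1 / mu * ε' * Real.log n) + ε' * Real.log n := by ring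
    have g13 : 3 / mu * ε' * Real.log n = 3 * (1 / mu * ε' * Real.log n) := by ring
    have g14 : ((m0 + i + 1 : ℕ) : ℝ) = (m0 : ℝ) + ((i + 1 : ℕ) : ℝ) := by push_cast; ring
    rw [g14, mul_add, g8, g13, abs_le]
    rw [g12] at g7
    constructor
    · nlinarith
    · nlinarith [g1.2]

end Pool.Agent.H499R2.ND
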