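import Pool.Agent.H499R2.NDDecay

/-! Natural density: total variation bounds from the nonuniformity functional. -/

set_option autoImplicit false

namespace Pool.Agent.H499R2.ND

open Pool.Agent.H320R2.PD Finset

/-- L1 deviation of a triple from the `F3` functional -/
theorem l1_F3 {a b c : ℝ} (ha : 0 ≤ a) (hb : 0 ≤ b) (hc : 0 ≤ c) :
    |a - (a + b + c) / 3| + |b - (a + b + c) / 3| + |c - (a + b + c) / 3|
      ≤ Real.sqrt (2 * (a + b + c)) * Real.sqrt (F3 a b c) := by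
  rcases eq_or_lt_of_le (by positivity : 0 ≤ a + b + c) with h0 | hpos
  · have ha0 : a = 0 := by linarith
    have hb0 : b = 0 := by linarith
    have hc0 : c = 0 := by linarith
    subst ha0 hb0 hc0
    simp
  · rw [← Real.sqrt_mul (by positivity)]
    apply Real.le_sqrt_of_sq_le
    unfold F3
    rw [mul_div_assoc', mul_assoc 2, mul_comm (a + b + c), ← mul_assoc, mul_div_assoc, div_self hpos.ne',
      mul_one]
    set x := a - (a + b + c) / 3 with hx
    set y := b - (a + b + c) / 3 with hy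
    set z := c - (a + b + c) / 3 with hz
    have hsum : 2 * (a ^ 2 + b ^ 2 + c ^ 2 - a * b - b * c - c * a) = 3 * (x ^ 2 + y ^ 2 + z ^ 2) := by
      rw [hx, hy, hz]; ring
    rw [hsum]
    have h1 := sq_abs x
    have h2 := sq_abs y
    have h3 := sq_abs z
    nlinarith [sq_nonneg (|x| - |y|), sq_nonneg (|y| - |z|), sq_nonneg (|z| - |x|)]

section
variable {ι : Type*} {s : Finset ι} {wt : ι → ℝ} (v : ι → ℤ)

theorem cnt_nonneg (h : ∀ i ∈ s, 0 ≤ wt i) (n : ℕ) (c : ℤ) : 0 ≤ cnt s wt v n c := by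
  classical
  unfold cnt
  apply sum_nonneg
  intro i hi
  split_ifs
  · exact h i hi
  · exact le_refl _

/-- splitting a class mod `3^J` in three classes mod `3^(J+1)` -/
theorem cnt_split (J : ℕ) (c : ℤ) :
    cnt s wt v J c = cnt s wt v (J + 1) c + cnt s wt v (J + 1) (c + 3 ^ J)
      + cnt s wt v (J + 1) (c + 2 * 3 ^ J) := by
  classical
  unfold cnt
  rw [← sum_add_distrib, ← sum_add_distrib]
  apply sum_congr rfl
  intro i _
  have h3 : (0 : ℤ) < 3 ^ J := by positivity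
  by_cases hd : (3 : ℤ) ^ J ∣ v i - c
  · obtain ⟨t, ht⟩ := hd
    have e0 : (3 : ℤ) ^ (J + 1) ∣ v i - c ↔ (3 : ℤ) ∣ t := by
      rw [ht, pow_succ]; exact mul_dvd_mul_iff_left h3.ne'
    have e1 : (3 : ℤ) ^ (J + 1) ∣ v i - (c + 3 ^ J) ↔ (3 : ℤ) ∣ t - 1 := by
      rw [show v i - (c + 3 ^ J) = 3 ^ J * (t - 1) by rw [mul_sub, ← ht]; ring, pow_succ]
      exact mul_dvd_mul_iff_left h3.ne'
    have e2 : (3 : ℤ) ^ (J + 1) ∣ v i - (c + 2 * 3 ^ J) ↔ (3 : ℤ) ∣ t - 2 := by
      rw [show v i - (c + 2 * 3 ^ J) = 3 ^ J * (t - 2) by rw [mul_sub, ← ht]; ring, pow_succ]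
      exact mul_dvd_mul_iff_left h3.ne'
    rw [if_pos (Dvd.intro _ ht.symm)]
    simp only [e0, e1, e2]
    rcases (by omega : t % 3 = 0 ∨ t % 3 = 1 ∨ t % 3 = 2) with h | h | h
    · rw [if_pos (by omega), if_neg (by omega), if_neg (by omega)]; ring
    · rw [if_neg (by omega), if_pos (by omega), if_neg (by omega)]; ring
    · rw [if_neg (by omega), if_neg (by omega), if_pos (by omega)]; ring
  · have hJ : (3 : ℤ) ^ J ∣ 3 ^ (J + 1) := pow_dvd_pow 3 (Nat.le_succ J)
    have hn0 : ¬ (3 : ℤ) ^ (J + 1) ∣ v i - c := fun h => hd (hJ.trans h)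
    have hn1 : ¬ (3 : ℤ) ^ (J + 1) ∣ v i - (c + 3 ^ J) := fun h => hd (by
      have := dvd_add (hJ.trans h) (dvd_refl ((3 : ℤ) ^ J))
      rwa [show v i - (c + 3 ^ J) + 3 ^ J = v i - c by ring] at this)
    have hn2 : ¬ (3 : ℤ) ^ (J + 1) ∣ v i - (c + 2 * 3 ^ J) := fun h => hd (by
      have := dvd_add (hJ.trans h) (Dvd.intro_left (2 : ℤ) (rfl : 2 * (3 : ℤ) ^ J = 2 * 3 ^ J))
      rwa [show v i - (c + 2 * 3 ^ J) + 2 * 3 ^ J = v i - c by ring] at this)
    rw [if_neg hd, if_neg hn0, if_neg hn1, if_neg hn2]; ring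

theorem cnt_congr (J : ℕ) {c c' : ℤ} (h : (3 : ℤ) ^ J ∣ c - c') : cnt s wt v J c = cnt s wt v J c' := by
  classical
  unfold cnt
  apply sum_congr rfl
  intro i _
  congr 1
  apply propext
  constructor
  · intro h1; have := dvd_add h1 h; rwa [show v i - c + (c - c') = v i - c' by ring] at this
  · intro h1; have := dvd_sub h1 h; rwa [show v i - c' - (c - c') = v i - c by ring] at this

/-- sums over `range (3^(J+1))` by the three top digits -/
theorem sum_range_three (J : ℕ) (f : ℤ → ℝ) :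
    ∑ c ∈ range (3 ^ (J + 1)), f (c : ℤ)
      = ∑ c ∈ range (3 ^ J), (f (c : ℤ) + f ((c : ℤ) + 3 ^ J) + f ((c : ℤ) + 2 * 3 ^ J)) := by
  rw [show 3 ^ (J + 1) = 3 ^ J + 3 ^ J + 3 ^ J by ring, sum_range_add, sum_range_add,
    sum_add_distrib, sum_add_distrib]
  congr 1
  · congr 1
    apply sum_congr rfl; intro c _; push_cast; congr 1; ring
  · apply sum_congr rfl; intro c _; push_cast; congr 1; ring

theorem sum_cnt (J : ℕ) : ∑ c ∈ range (3 ^ J), cnt s wt v J (c : ℤ) = ∑ i ∈ s, wt i := by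
  induction J with
  | zero =>
    simp only [pow_zero, range_one, sum_singleton]
    unfold cnt
    simp
  | succ J ih =>
    rw [sum_range_three J (fun c => cnt s wt v (J + 1) c), ← ih]
    apply sum_congr rfl
    intro c _
    exact (cnt_split v J (c : ℤ)).symm

/-- one more digit -/
theorem l1_digit (h : ∀ i ∈ s, 0 ≤ wt i) (J : ℕ) :
    ∑ c ∈ range (3 ^ (J + 1)), |cnt s wt v (J + 1) (c : ℤ) - cnt s wt v J (c : ℤ) / 3|
      ≤ Real.sqrt (2 * ∑ i ∈ s, wt i) * Real.sqrt (Gam s wt v J) := by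
  have hc1 : ∀ c : ℤ, cnt s wt v J (c + 3 ^ J) = cnt s wt v J c :=
    fun c => cnt_congr v J ⟨1, by ring⟩
  have hc2 : ∀ c : ℤ, cnt s wt v J (c + 2 * 3 ^ J) = cnt s wt v J c :=
    fun c => cnt_congr v J ⟨2, by ring⟩
  rw [sum_range_three J (fun c => |cnt s wt v (J + 1) c - cnt s wt v J c / 3|)]
  calc ∑ c ∈ range (3 ^ J), (|cnt s wt v (J + 1) (c : ℤ) - cnt s wt v J (c : ℤ) / 3|
          + |cnt s wt v (J + 1) ((c : ℤ) + 3 ^ J) - cnt s wt v J ((c : ℤ) + 3 ^ J) / 3|
          + |cnt s wt v (J + 1) ((c : ℤ) + 2 * 3 ^ J) - cnt s wt v J ((c : ℤ) + 2 * 3 ^ J) / 3|)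
      ≤ ∑ c ∈ range (3 ^ J), Real.sqrt (2 * cnt s wt v J (c : ℤ)) * Real.sqrt (Fib s wt v J (c : ℤ)) := by
        apply sum_le_sum
        intro c _
        rw [hc1, hc2, cnt_split v J (c : ℤ)]
        exact l1_F3 (cnt_nonneg v h _ _) (cnt_nonneg v h _ _) (cnt_nonneg v h _ _)
    _ ≤ Real.sqrt (∑ c ∈ range (3 ^ J), 2 * cnt s wt v J (c : ℤ))
          * Real.sqrt (∑ c ∈ range (3 ^ J), Fib s wt v J (c : ℤ)) := by
        apply Real.sum_sqrt_mul_sqrt_le
        · intro c; have := cnt_nonneg v h J (c : ℤ); positivity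
        · intro c
          exact F3_nonneg (cnt_nonneg v h _ _) (cnt_nonneg v h _ _) (cnt_nonneg v h _ _)
    _ = _ := by rw [← mul_sum, sum_cnt]; rfl

/-- the deviation from uniformity above the level `m` -/
noncomputable def dev (s : Finset ι) (wt : ι → ℝ) (v : ι → ℤ) (n m : ℕ) : ℝ :=
  ∑ c ∈ range (3 ^ n), |cnt s wt v n (c : ℤ) - cnt s wt v m (c : ℤ) / 3 ^ (n - m)|

theorem dev_le (h : ∀ i ∈ s, 0 ≤ wt i) (m n : ℕ) (hmn : m ≤ n) :
    dev s wt v n m ≤ ∑ J ∈ Ico m n, Real.sqrt (2 * ∑ i ∈ s, wt i) * Real.sqrt (Gam s wt v J) := by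
  induction n, hmn using Nat.le_induction with
  | base => simp [dev]
  | succ n hmn ih =>
    rw [sum_Ico_succ_top hmn]
    have hstep : dev s wt v (n + 1) m ≤ dev s wt v n m
        + ∑ c ∈ range (3 ^ (n + 1)), |cnt s wt v (n + 1) (c : ℤ) - cnt s wt v n (c : ℤ) / 3| := by
      unfold dev
      have h1 : ∑ c ∈ range (3 ^ (n + 1)),
            |cnt s wt v (n + 1) (c : ℤ) - cnt s wt v m (c : ℤ) / 3 ^ (n + 1 - m)|
          ≤ ∑ c ∈ range (3 ^ (n + 1)), (|cnt s wt v (n + 1) (c : ℤ) - cnt s wt v n (c : ℤ) / 3|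
            + (1 / 3) * |cnt s wt v n (c : ℤ) - cnt s wt v m (c : ℤ) / 3 ^ (n - m)|) := by
        apply sum_le_sum
        intro c _
        have : cnt s wt v (n + 1) (c : ℤ) - cnt s wt v m (c : ℤ) / 3 ^ (n + 1 - m)
            = (cnt s wt v (n + 1) (c : ℤ) - cnt s wt v n (c : ℤ) / 3)
              + (1 / 3) * (cnt s wt v n (c : ℤ) - cnt s wt v m (c : ℤ) / 3 ^ (n - m)) := by
          rw [show n + 1 - m = (n - m) + 1 by omega, pow_succ]
          field_simp
          ring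
        rw [this]
        refine (abs_add_le _ _).trans ?_
        rw [abs_mul, abs_of_pos (by norm_num : (0 : ℝ) < 1 / 3)]
      refine h1.trans ?_
      rw [sum_add_distrib, add_comm]
      apply add_le_add_left
      rw [sum_range_three n
        (fun c => (1 / 3) * |cnt s wt v n c - cnt s wt v m c / 3 ^ (n - m)|)]
      apply le_of_eq
      apply sum_congr rfl
      intro c _
      have e1 : cnt s wt v n ((c : ℤ) + 3 ^ n) = cnt s wt v n c := cnt_congr v n ⟨1, by ring⟩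
      have e2 : cnt s wt v n ((c : ℤ) + 2 * 3 ^ n) = cnt s wt v n c := cnt_congr v n ⟨2, by ring⟩
      have hd : (3 : ℤ) ^ m ∣ 3 ^ n := pow_dvd_pow 3 hmn
      have e3 : cnt s wt v m ((c : ℤ) + 3 ^ n) = cnt s wt v m c :=
        cnt_congr v m (by rw [show (c : ℤ) + 3 ^ n - c = 3 ^ n by ring]; exact hd)
      have e4 : cnt s wt v m ((c : ℤ) + 2 * 3 ^ n) = cnt s wt v m c :=
        cnt_congr v m (by rw [show (c : ℤ) + 2 * 3 ^ n - c = 2 * 3 ^ n by ring]; exact hd.mul_left 2)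
      rw [e1, e2, e3, e4]
      ring
    linarith [l1_digit v h n]

end

/-- total variation of the offsets of `k` letters, given the size, above the digit `m'` -/
theorem mix (B : ℕ) : ∃ C : ℝ, 0 < C ∧ ∀ k m m' A : ℕ, 1 ≤ k → 1 ≤ m' → m' ≤ k → 3 * k ≤ A →
    ∑ T ∈ range (k * A + 1), dev (FWT A k T) wwt (fun w => (Wo w : ℤ)) (k + m) m'
      ≤ (k + m) * (C * ((1 / (m' : ℝ)) ^ B + ((m : ℝ) / k) ^ B)) := by
  obtain ⟨C, hC, hg⟩ := gam_all (2 * B)
  refine ⟨Real.sqrt (2 * C), by positivity, fun k m m' A hk hm' hmk hA => ?_⟩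
  have hnn : ∀ T, ∀ w ∈ FWT A k T, 0 ≤ wwt w := fun T w _ => by unfold wwt; positivity
  have hmass : ∑ T ∈ range (k * A + 1), ∑ w ∈ FWT A k T, wwt w ≤ 1 := by
    unfold FWT
    rw [sum_fiberwise_of_maps_to (g := fun w : List ℕ => w.sum)]
    · exact sum_wwt_le A k
    · intro w hw
      have := (sum_le_of_mem hw).2
      simp only [mem_range]
      omega
  have hkR : (0 : ℝ) < k := by exact_mod_cast hk
  have hm'R : (0 : ℝ) < m' := by exact_mod_cast hm'
  calc ∑ T ∈ range (k * A + 1), dev (FWT A k T) wwt (fun w => (Wo w : ℤ)) (k + m) m'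
      ≤ ∑ T ∈ range (k * A + 1), ∑ J ∈ Ico m' (k + m), Real.sqrt (2 * ∑ i ∈ FWT A k T, wwt i)
          * Real.sqrt (Gam (FWT A k T) wwt (fun w => (Wo w : ℤ)) J) :=
        sum_le_sum fun T _ => dev_le _ (hnn T) m' (k + m) (by omega)
    _ = ∑ J ∈ Ico m' (k + m), ∑ T ∈ range (k * A + 1), Real.sqrt (2 * ∑ i ∈ FWT A k T, wwt i)
          * Real.sqrt (Gam (FWT A k T) wwt (fun w => (Wo w : ℤ)) J) := sum_comm
    _ ≤ ∑ J ∈ Ico m' (k + m), Real.sqrt 2 * Real.sqrt (gam A k J) := by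
        apply sum_le_sum
        intro J _
        refine (Real.sum_sqrt_mul_sqrt_le (range (k * A + 1))
          (f := fun T => 2 * ∑ i ∈ FWT A k T, wwt i)
          (g := fun T => Gam (FWT A k T) wwt (fun w => (Wo w : ℤ)) J) ?_ ?_).trans ?_
        · intro T
          have := sum_nonneg (hnn T)
          positivity
        · intro T; exact Gam_nonneg _ J (hnn T)
        · apply mul_le_mul_of_nonneg_right _ (Real.sqrt_nonneg _)
          apply Real.sqrt_le_sqrt
          rw [← mul_sum]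
          linarith
    _ ≤ ∑ J ∈ Ico m' (k + m), Real.sqrt (2 * C) * ((1 / (m' : ℝ)) ^ B + ((m : ℝ) / k) ^ B) := by
        apply sum_le_sum
        intro J hJ
        rw [mem_Ico] at hJ
        have h1 := hg k m m' A J hk hm' hA hJ.1 hJ.2
        rw [← Real.sqrt_mul (by norm_num)]
        calc Real.sqrt (2 * gam A k J)
            ≤ Real.sqrt (2 * (C * ((1 / (m' : ℝ)) ^ (2 * B) + ((m : ℝ) / k) ^ (2 * B)))) :=
              Real.sqrt_le_sqrt (by linarith)
          _ = Real.sqrt (2 * C) * Real.sqrt ((1 / (m' : ℝ)) ^ (2 * B) + ((m : ℝ) / k) ^ (2 * B)) := by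
              rw [← Real.sqrt_mul (by positivity)]; ring_nf
          _ ≤ Real.sqrt (2 * C) * ((1 / (m' : ℝ)) ^ B + ((m : ℝ) / k) ^ B) := by
              apply mul_le_mul_of_nonneg_left _ (Real.sqrt_nonneg _)
              apply Real.sqrt_le_iff.2
              have p1 : (0 : ℝ) ≤ (1 / (m' : ℝ)) ^ B := by positivity
              have p2 : (0 : ℝ) ≤ ((m : ℝ) / k) ^ B := by positivity
              refine ⟨by positivity, ?_⟩
              rw [mul_comm 2 B, pow_mul, pow_mul]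
              nlinarith
    _ = ((k + m - m' : ℕ) : ℝ) * (Real.sqrt (2 * C) * ((1 / (m' : ℝ)) ^ B + ((m : ℝ) / k) ^ B)) := by
        rw [sum_const, Nat.card_Ico, nsmul_eq_mul]
    _ ≤ _ := by
        apply mul_le_mul_of_nonneg_right _ (by positivity)
        have : k + m - m' ≤ k + m := Nat.sub_le _ _
        exact_mod_cast this

end Pool.Agent.H499R2.ND
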