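import Pool.Agent.H499R2.NDMix

/-! Natural density: classes, counting, and words of forward orbits of `x ↦ (3x+d)/2^e`. -/

set_option autoImplicit false

namespace Pool.Agent.H499R2.ND

open Pool.Agent.H320R2.PD Finset

/-! ### counting integers in a class -/

theorem mem_win {a b : ℝ} {x : ℤ} : x ∈ Ico ⌈a⌉ ⌈b⌉ ↔ a ≤ x ∧ (x : ℝ) < b := by
  rw [mem_Ico, Int.ceil_le, Int.lt_ceil]

/-- integers of `[a,b)` congruent to `c` mod `q` -/
noncomputable def ap (a b : ℝ) (q c : ℤ) : Finset ℤ := (Ico ⌈a⌉ ⌈b⌉).filter fun x => q ∣ x - c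

theorem mem_ap {a b : ℝ} {q c x : ℤ} : x ∈ ap a b q c ↔ (a ≤ x ∧ (x : ℝ) < b) ∧ q ∣ x - c := by
  unfold ap; rw [mem_filter, mem_win]

theorem ap_card (a b : ℝ) {q : ℤ} (hq : 0 < q) (c : ℤ) :
    (ap a b q c).card = (⌈(b - c) / q⌉ - ⌈(a - c) / q⌉).toNat := by
  have hqR : (0 : ℝ) < q := by exact_mod_cast hq
  have : ap a b q c = (Ico ⌈(a - c) / q⌉ ⌈(b - c) / q⌉).image fun j => c + q * j := by
    ext x
    rw [mem_ap, mem_image]
    constructor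
    · rintro ⟨⟨h1, h2⟩, j, hj⟩
      refine ⟨j, ?_, by linarith⟩
      have hx : (x : ℝ) = c + q * j := by
        have : x = c + q * j := by linarith
        rw [this]; push_cast; ring
      rw [mem_win]
      constructor
      · rw [div_le_iff₀ hqR]; linarith
      · rw [lt_div_iff₀ hqR]; linarith
    · rintro ⟨j, hj, rfl⟩
      rw [mem_win] at hj
      obtain ⟨h1, h2⟩ := hj
      rw [div_le_iff₀ hqR] at h1
      rw [lt_div_iff₀ hqR] at h2
      refine ⟨⟨?_, ?_⟩, ⟨j, by ring⟩⟩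
      · push_cast; linarith
      · push_cast; linarith
  rw [this, card_image_of_injective, Int.card_Ico]
  intro j j' h
  simp only at h
  have : q * (j - j') = 0 := by linarith
  rcases mul_eq_zero.1 this with h0 | h0
  · omega
  · omega

theorem ap_card_le {a b : ℝ} (hab : a ≤ b) {q : ℤ} (hq : 0 < q) (c : ℤ) :
    ((ap a b q c).card : ℝ) ≤ (b - a) / q + 1 := by
  rw [ap_card a b hq c]
  have hqR : (0 : ℝ) < q := by exact_mod_cast hq
  have h1 : (⌈(b - c) / q⌉ : ℝ) < (b - c) / q + 1 := Int.ceil_lt_add_one _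
  have h2 : (a - c) / q ≤ (⌈(a - c) / q⌉ : ℝ) := Int.le_ceil _
  have h3 : (b - c) / (q : ℝ) - (a - c) / q = (b - a) / q := by ring
  rcases le_or_gt 0 (⌈(b - c) / (q : ℝ)⌉ - ⌈(a - c) / (q : ℝ)⌉) with h | h
  · have : (((⌈(b - c) / (q : ℝ)⌉ - ⌈(a - c) / (q : ℝ)⌉).toNat : ℕ) : ℝ)
        = ((⌈(b - c) / (q : ℝ)⌉ - ⌈(a - c) / (q : ℝ)⌉ : ℤ) : ℝ) := by
      exact_mod_cast congrArg (Int.cast : ℤ → ℝ) (Int.toNat_of_nonneg h)
    rw [this]; push_cast; linarith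
  · rw [Int.toNat_of_nonpos h.le]
    have : 0 ≤ (b - a) / q := div_nonneg (by linarith) hqR.le
    push_cast; linarith

theorem le_ap_card (a b : ℝ) {q : ℤ} (hq : 0 < q) (c : ℤ) :
    (b - a) / q - 1 ≤ ((ap a b q c).card : ℝ) := by
  rw [ap_card a b hq c]
  have hqR : (0 : ℝ) < q := by exact_mod_cast hq
  have h1 : (b - c) / q ≤ (⌈(b - c) / q⌉ : ℝ) := Int.le_ceil _
  have h2 : (⌈(a - c) / q⌉ : ℝ) < (a - c) / q + 1 := Int.ceil_lt_add_one _
  have h3 : (b - c) / (q : ℝ) - (a - c) / q = (b - a) / q := by ring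
  have h4 : ((⌈(b - c) / (q : ℝ)⌉ - ⌈(a - c) / (q : ℝ)⌉ : ℤ) : ℝ)
      ≤ (((⌈(b - c) / (q : ℝ)⌉ - ⌈(a - c) / (q : ℝ)⌉).toNat : ℕ) : ℝ) := by
    exact_mod_cast Int.self_le_toNat _
  push_cast at h4
  linarith

/-- Chinese remainder: a class mod `2^a` and a class mod `3^m` -/
theorem crt (a m : ℕ) {g u : ℤ} (hg : Odd g) (hu : IsCoprime u 3) (v₁ v₂ : ℤ) :
    ∃ c : ℤ, ∀ x : ℤ, ((2 : ℤ) ^ a ∣ g * x - v₁ ∧ (3 : ℤ) ^ m ∣ u * x - v₂) ↔
      (2 : ℤ) ^ a * 3 ^ m ∣ x - c := by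
  have hg2 : IsCoprime g ((2 : ℤ) ^ a) := by
    apply IsCoprime.pow_right
    obtain ⟨t, ht⟩ := hg
    exact ⟨1, -t, by rw [ht]; ring⟩
  have hu3 : IsCoprime u ((3 : ℤ) ^ m) := hu.pow_right
  have h23 : IsCoprime ((2 : ℤ) ^ a) ((3 : ℤ) ^ m) := by
    apply IsCoprime.pow
    exact ⟨-1, 1, by norm_num⟩
  obtain ⟨p, q, hpq⟩ := hg2
  obtain ⟨p', q', hpq'⟩ := hu3
  obtain ⟨r, r', hr⟩ := h23
  -- c₁ = p v₁ , c₂ = p' v₂
  refine ⟨p * v₁ * (r' * 3 ^ m) + p' * v₂ * (r * 2 ^ a), fun x => ?_⟩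
  set c := p * v₁ * (r' * 3 ^ m) + p' * v₂ * (r * 2 ^ a) with hc
  have e1 : (2 : ℤ) ^ a ∣ g * c - v₁ := by
    refine ⟨g * p' * v₂ * r - (r * v₁) - q * v₁ * (r' * 3 ^ m), ?_⟩
    have : (r' * 3 ^ m : ℤ) = 1 - r * 2 ^ a := by linarith
    have h2 : g * p = 1 - q * 2 ^ a := by linarith
    calc g * c - v₁ = (g * p) * v₁ * (r' * 3 ^ m) + g * p' * v₂ * (r * 2 ^ a) - v₁ := by rw [hc]; ring
      _ = (1 - q * 2 ^ a) * v₁ * (r' * 3 ^ m) + g * p' * v₂ * (r * 2 ^ a) - v₁ := by rw [h2]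
      _ = v₁ * (r' * 3 ^ m) - q * 2 ^ a * v₁ * (r' * 3 ^ m) + g * p' * v₂ * (r * 2 ^ a) - v₁ := by ring
      _ = v₁ * (1 - r * 2 ^ a) - q * 2 ^ a * v₁ * (r' * 3 ^ m) + g * p' * v₂ * (r * 2 ^ a) - v₁ := by
          nth_rw 1 [this]
      _ = _ := by ring
  have e2 : (3 : ℤ) ^ m ∣ u * c - v₂ := by
    refine ⟨u * p * v₁ * r' - r' * v₂ - q' * v₂ * (r * 2 ^ a), ?_⟩
    have : (r * 2 ^ a : ℤ) = 1 - r' * 3 ^ m := by linarith
    have h2 : u * p' = 1 - q' * 3 ^ m := by linarith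
    calc u * c - v₂ = u * p * v₁ * (r' * 3 ^ m) + (u * p') * v₂ * (r * 2 ^ a) - v₂ := by rw [hc]; ring
      _ = u * p * v₁ * (r' * 3 ^ m) + (1 - q' * 3 ^ m) * v₂ * (r * 2 ^ a) - v₂ := by rw [h2]
      _ = u * p * v₁ * (r' * 3 ^ m) + v₂ * (r * 2 ^ a) - q' * 3 ^ m * v₂ * (r * 2 ^ a) - v₂ := by ring
      _ = u * p * v₁ * (r' * 3 ^ m) + v₂ * (1 - r' * 3 ^ m) - q' * 3 ^ m * v₂ * (r * 2 ^ a) - v₂ := by
          nth_rw 1 [this]
      _ = _ := by ring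
  have hg2' : IsCoprime ((2 : ℤ) ^ a) g := ⟨q, p, by linarith⟩
  have hu3' : IsCoprime ((3 : ℤ) ^ m) u := ⟨q', p', by linarith⟩
  have h23' : IsCoprime ((2 : ℤ) ^ a) ((3 : ℤ) ^ m) := ⟨r, r', hr⟩
  constructor
  · rintro ⟨h1, h2⟩
    apply IsCoprime.mul_dvd h23'
    · apply hg2'.dvd_of_dvd_mul_left
      have := dvd_sub h1 e1
      rwa [show g * x - v₁ - (g * c - v₁) = g * (x - c) by ring] at this
    · apply hu3'.dvd_of_dvd_mul_left
      have := dvd_sub h2 e2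
      rwa [show u * x - v₂ - (u * c - v₂) = u * (x - c) by ring] at this
  · intro h
    constructor
    · have h1 : (2 : ℤ) ^ a ∣ g * (x - c) := ((dvd_mul_right _ _).trans h).mul_left _
      have := dvd_add h1 e1
      rwa [show g * (x - c) + (g * c - v₁) = g * x - v₁ by ring] at this
    · have h1 : (3 : ℤ) ^ m ∣ u * (x - c) := ((dvd_mul_left _ _).trans h).mul_left _
      have := dvd_add h1 e2
      rwa [show u * (x - c) + (u * c - v₂) = u * x - v₂ by ring] at this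

open scoped Classical in
/-- odd elements of `S` in `[L,2L)` with `u x ≡ v` mod `3^m` -/
noncomputable def cls (S : Set ℤ) (a b : ℝ) (m : ℕ) (u v : ℤ) : Finset ℤ :=
  (Ico ⌈a⌉ ⌈b⌉).filter fun x => Odd x ∧ x ∈ S ∧ (3 : ℤ) ^ m ∣ u * x - v

theorem mem_cls {S : Set ℤ} {a b : ℝ} {m : ℕ} {u v x : ℤ} :
    x ∈ cls S a b m u v ↔ (a ≤ x ∧ (x : ℝ) < b) ∧ Odd x ∧ x ∈ S ∧ (3 : ℤ) ^ m ∣ u * x - v := by
  classical
  unfold cls; rw [mem_filter, mem_win]

/-- the odd integers with `u x ≡ v` mod `3^m` form one class mod `2·3^m` -/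
theorem odd_class (m : ℕ) {u : ℤ} (hu : IsCoprime u 3) (v : ℤ) :
    ∃ c : ℤ, ∀ x : ℤ, (Odd x ∧ (3 : ℤ) ^ m ∣ u * x - v) ↔ (2 : ℤ) * 3 ^ m ∣ x - c := by
  obtain ⟨c, hc⟩ := crt 1 m (g := 1) odd_one hu 1 v
  refine ⟨c, fun x => ?_⟩
  rw [show (2 : ℤ) * 3 ^ m = 2 ^ 1 * 3 ^ m by ring, ← hc x, pow_one, one_mul]
  have : Odd x ↔ (2 : ℤ) ∣ x - 1 := by
    constructor
    · rintro ⟨t, rfl⟩; exact ⟨t, by ring⟩
    · rintro ⟨t, ht⟩; exact ⟨t, by linarith⟩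
  rw [this]

theorem cls_card_le (S : Set ℤ) {a b : ℝ} (hab : a ≤ b) (m : ℕ) {u : ℤ} (hu : IsCoprime u 3) (v : ℤ) :
    ((cls S a b m u v).card : ℝ) ≤ (b - a) / (2 * 3 ^ m) + 1 := by
  obtain ⟨c, hc⟩ := odd_class m hu v
  have hsub : cls S a b m u v ⊆ ap a b (2 * 3 ^ m) c := by
    intro x hx
    rw [mem_cls] at hx
    rw [mem_ap]
    exact ⟨hx.1, (hc x).1 ⟨hx.2.1, hx.2.2.2⟩⟩
  have h1 : ((cls S a b m u v).card : ℝ) ≤ (ap a b (2 * 3 ^ m) c).card := by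
    exact_mod_cast card_le_card hsub
  have h2 := ap_card_le hab (q := 2 * 3 ^ m) (by positivity) c
  push_cast at h2
  linarith

/-! ### words of forward orbits -/

/-- `3^|w| M + d Wo w = 2^T x` -/
def Vw (d : ℤ) (w : List ℕ) (M x : ℤ) : Prop := 3 ^ w.length * M + d * (Wo w : ℤ) = 2 ^ w.sum * x

theorem Wo_snoc' (u : List ℕ) (e : ℕ) : (Wo (u ++ [e]) : ℤ) = 2 ^ e * Wo u + 3 ^ u.length := by
  rw [Wo_append]; simp [Wo]

theorem Wo_odd' : ∀ {w : List ℕ}, (∀ e ∈ w, 1 ≤ e) → w ≠ [] → Odd (Wo w)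
  | [], _, h => (h rfl).elim
  | e :: w, hw, _ => by
    rcases eq_or_ne w [] with rfl | hne
    · simp [Wo]
    · have h1 : Odd (Wo w) := Wo_odd' (fun a ha => hw a (List.mem_cons_of_mem _ ha)) hne
      have h2 : 1 ≤ w.sum := by
        obtain ⟨a, w', rfl⟩ := List.exists_cons_of_ne_nil hne
        have := hw a (by simp)
        simp only [List.sum_cons]; omega
      unfold Wo
      apply Even.add_odd
      · exact (Nat.even_pow.2 ⟨even_two, by omega⟩)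
      · exact Odd.mul (by decide) h1

/-- the last letter is the first forward step -/
theorem Vw_snoc {d : ℤ} (hd : Odd d) {u : List ℕ} {e : ℕ} (hu : ∀ a ∈ u, 1 ≤ a) {M x : ℤ}
    (hx : Odd x) (h : Vw d (u ++ [e]) M x) :
    ∃ M₁ : ℤ, Odd M₁ ∧ 3 * M + d = 2 ^ e * M₁ ∧ Vw d u M₁ x := by
  unfold Vw at h
  rw [Wo_snoc', List.length_append, List.sum_append, List.length_singleton, List.sum_singleton,
    pow_succ, pow_add] at h
  have h1 : (3 : ℤ) ^ u.length * (3 * M + d) = 2 ^ e * (2 ^ u.sum * x - d * Wo u) := by linarith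
  have hcop : IsCoprime ((2 : ℤ) ^ e) ((3 : ℤ) ^ u.length) := by
    apply IsCoprime.pow
    exact ⟨-1, 1, by norm_num⟩
  have h2 : (2 : ℤ) ^ e ∣ 3 * M + d := hcop.dvd_of_dvd_mul_left ⟨_, h1⟩
  obtain ⟨M₁, hM₁⟩ := h2
  have hV : Vw d u M₁ x := by
    unfold Vw
    have h3 : (2 : ℤ) ^ e * (3 ^ u.length * M₁) = 2 ^ e * (2 ^ u.sum * x - d * Wo u) := by
      rw [← h1, hM₁]; ring
    have := mul_left_cancel₀ (by positivity : (2 : ℤ) ^ e ≠ 0) h3
    linarith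
  refine ⟨M₁, ?_, hM₁, hV⟩
  rcases eq_or_ne u [] with rfl | hne
  · unfold Vw at hV; simp [Wo] at hV; rw [hV]; exact hx
  · have hW : Odd (Wo u : ℤ) := by exact_mod_cast Wo_odd' hu hne
    have hs : 1 ≤ u.sum := by
      obtain ⟨a, u', rfl⟩ := List.exists_cons_of_ne_nil hne
      have := hu a (by simp)
      simp only [List.sum_cons]; omega
    unfold Vw at hV
    have heven : Even ((2 : ℤ) ^ u.sum * x) := by
      apply Even.mul_right
      exact (even_two.pow_of_ne_zero (by omega))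
    have hodd : Odd ((3 : ℤ) ^ u.length * M₁) := by
      have : (3 : ℤ) ^ u.length * M₁ = 2 ^ u.sum * x - d * Wo u := by linarith
      rw [this]
      exact heven.sub_odd (hd.mul hW)
    exact (Int.odd_mul.1 hodd).2

/-- forward invariance along words -/
theorem path_mem {d : ℤ} (hd : Odd d) {S : Set ℤ}
    (hS : ∀ (M x : ℤ) (e : ℕ), 1 ≤ e → Odd M → Odd x → M ∈ S → 3 * M + d = 2 ^ e * x → x ∈ S)
    (w : List ℕ) : (∀ a ∈ w, 1 ≤ a) → ∀ M x : ℤ, Odd M → Odd x → M ∈ S → Vw d w M x → x ∈ S := by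
  induction w using List.reverseRecOn with
  | nil =>
    intro _ M x _ _ hMS h
    unfold Vw at h; simp [Wo] at h; rwa [← h]
  | append_singleton u e ih =>
    intro hw M x hM hx hMS h
    have hu : ∀ a ∈ u, 1 ≤ a := fun a ha => hw a (by simp [ha])
    obtain ⟨M₁, hM₁, h1, h2⟩ := Vw_snoc hd hu hx h
    exact ih hu M₁ x hM₁ hx (hS M M₁ e (hw e (by simp)) hM hM₁ hMS h1) h2

theorem pow_two_unique {e e' : ℕ} {M M' : ℤ} (h : (2 : ℤ) ^ e * M = 2 ^ e' * M') (hM : Odd M)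
    (hM' : Odd M') : e = e' ∧ M = M' := by
  have key : ∀ {e e' : ℕ} {M M' : ℤ}, (2 : ℤ) ^ e * M = 2 ^ e' * M' → Odd M → Odd M' → e ≤ e' →
      e = e' ∧ M = M' := by
    intro e e' M M' h hM hM' hle
    obtain ⟨t, rfl⟩ := Nat.exists_eq_add_of_le hle
    rw [pow_add, mul_assoc] at h
    have h1 := mul_left_cancel₀ (by positivity : (2 : ℤ) ^ e ≠ 0) h
    rcases Nat.eq_zero_or_pos t with rfl | ht
    · simp at h1; exact ⟨rfl, h1⟩
    · exfalso
      have : Even M := by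
        rw [h1]; exact (even_two.pow_of_ne_zero (by omega)).mul_right _
      exact (Int.not_even_iff_odd.2 hM) this
  rcases le_total e e' with hle | hle
  · exact key h hM hM' hle
  · obtain ⟨h1, h2⟩ := key h.symm hM' hM hle
    exact ⟨h1.symm, h2.symm⟩

/-- the word is determined by the starting point and the length -/
theorem word_unique {d : ℤ} (hd : Odd d) (w : List ℕ) : (∀ a ∈ w, 1 ≤ a) → ∀ w' : List ℕ,
    (∀ a ∈ w', 1 ≤ a) → w.length = w'.length → ∀ M x x' : ℤ, Odd x → Odd x' → Vw d w M x →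
    Vw d w' M x' → w = w' := by
  induction w using List.reverseRecOn with
  | nil =>
    intro _ w' _ hl M x x' _ _ _ _
    exact (List.length_eq_zero_iff.1 hl.symm).symm
  | append_singleton u e ih =>
    intro hw w' hw' hl M x x' hx hx' h h'
    rcases List.eq_nil_or_concat' w' with rfl | ⟨u', e', rfl⟩
    · simp at hl
    have hu : ∀ a ∈ u, 1 ≤ a := fun a ha => hw a (by simp [ha])
    have hu' : ∀ a ∈ u', 1 ≤ a := fun a ha => hw' a (by simp [ha])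
    obtain ⟨M₁, hM₁, h1, h2⟩ := Vw_snoc hd hu hx h
    obtain ⟨M₁', hM₁', h1', h2'⟩ := Vw_snoc hd hu' hx' h'
    obtain ⟨he, hMe⟩ := pow_two_unique (h1.symm.trans h1') hM₁ hM₁'
    subst he hMe
    have hll : u.length = u'.length := by simp at hl; exact hl
    rw [ih hu u' hu' hll M₁ x x' hx hx' h2 h2']

theorem Vw_odd_left {d : ℤ} (hd : Odd d) {w : List ℕ} (hw : ∀ a ∈ w, 1 ≤ a) (hne : w ≠ []) {M x : ℤ}
    (h : Vw d w M x) : Odd M := by
  have hW : Odd (Wo w : ℤ) := by exact_mod_cast Wo_odd' hw hne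
  have hs : 1 ≤ w.sum := by
    obtain ⟨a, u', rfl⟩ := List.exists_cons_of_ne_nil hne
    have := hw a (by simp)
    simp only [List.sum_cons]; omega
  unfold Vw at h
  have heven : Even ((2 : ℤ) ^ w.sum * x) := by
    apply Even.mul_right
    exact (even_two.pow_of_ne_zero (by omega))
  have hodd : Odd ((3 : ℤ) ^ w.length * M) := by
    have : (3 : ℤ) ^ w.length * M = 2 ^ w.sum * x - d * Wo w := by linarith
    rw [this]
    exact heven.sub_odd (hd.mul hW)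
  exact (Int.odd_mul.1 hodd).2

/-- offsets are small: `Wo w ≤ 2^T (3/2)^n` -/
theorem Wo_le : ∀ {w : List ℕ}, (∀ e ∈ w, 1 ≤ e) →
    (Wo w : ℝ) ≤ 2 ^ w.sum * ((3 / 2 : ℝ) ^ w.length - 1)
  | [], _ => by simp [Wo]
  | e :: w, hw => by
    have ih := Wo_le (fun a ha => hw a (List.mem_cons_of_mem _ ha) : ∀ a ∈ w, 1 ≤ a)
    have he : 1 ≤ e := hw e (by simp)
    unfold Wo
    push_cast
    rw [List.sum_cons, List.length_cons, pow_add, pow_succ (3 / 2 : ℝ)]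
    have h2e : (2 : ℝ) ≤ 2 ^ e := by
      calc (2 : ℝ) = 2 ^ 1 := by norm_num
        _ ≤ 2 ^ e := pow_le_pow_right₀ (by norm_num) he
    have hp : (0 : ℝ) < 2 ^ w.sum := by positivity
    have hq : (1 : ℝ) ≤ (3 / 2 : ℝ) ^ w.length := one_le_pow₀ (by norm_num)
    have hpos : (0 : ℝ) ≤ 2 ^ w.sum * ((3 / 2 : ℝ) ^ w.length * (3 / 2) - 1) := by
      apply mul_nonneg hp.le; linarith
    calc (2 : ℝ) ^ w.sum + 3 * Wo w
        ≤ 2 ^ w.sum + 3 * (2 ^ w.sum * ((3 / 2 : ℝ) ^ w.length - 1)) := by linarith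
      _ = 2 * (2 ^ w.sum * ((3 / 2 : ℝ) ^ w.length * (3 / 2) - 1)) := by ring
      _ ≤ 2 ^ e * (2 ^ w.sum * ((3 / 2 : ℝ) ^ w.length * (3 / 2) - 1)) :=
          mul_le_mul_of_nonneg_right h2e hpos
      _ = _ := by ring

end Pool.Agent.H499R2.ND
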