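import Pool.Agent.H499R2.NDStep1

/-! Natural density: the one-stage inequality. -/

set_option autoImplicit false

namespace Pool.Agent.H499R2.ND

open Pool.Agent.H320R2.PD Finset

theorem cop_two_pow (T : ℕ) : IsCoprime ((2 : ℤ) ^ T) 3 := IsCoprime.pow_left ⟨-1, 1, by norm_num⟩

/-- a sum over a set all whose classes are small, of a periodic function -/
theorem sum_periodic_le {W : Finset ℤ} {n : ℕ} {e : ℤ → ℤ} {K : ℝ}
    (hW : ∀ r : ℤ, (((W.filter fun x => (3 : ℤ) ^ n ∣ e x - r)).card : ℝ) ≤ K)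
    {g : ℤ → ℝ} (hg : ∀ c, 0 ≤ g c) (hper : ∀ c c' : ℤ, (3 : ℤ) ^ n ∣ c - c' → g c = g c') :
    ∑ x ∈ W, g (e x) ≤ K * ∑ c ∈ range (3 ^ n), g (c : ℤ) := by
  have h3 : (0 : ℤ) < 3 ^ n := by positivity
  have hr : ∀ x : ℤ, 3 ^ n ∣ e x - (((e x % 3 ^ n).toNat : ℕ) : ℤ) := by
    intro x
    rw [Int.toNat_of_nonneg (Int.emod_nonneg _ h3.ne')]
    exact Int.dvd_self_sub_emod
  calc ∑ x ∈ W, g (e x) = ∑ x ∈ W, g (((e x % 3 ^ n).toNat : ℕ) : ℤ) :=
        sum_congr rfl fun x _ => hper _ _ (hr x)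
    _ = ∑ c ∈ range (3 ^ n), ∑ x ∈ W.filter (fun x => (e x % 3 ^ n).toNat = c),
          g (((e x % 3 ^ n).toNat : ℕ) : ℤ) := by
        rw [sum_fiberwise_of_maps_to]
        intro x _
        have h1 := Int.emod_nonneg (e x) h3.ne'
        have h2 := Int.emod_lt_of_pos (e x) h3
        rw [mem_range]
        have h4 : (((e x % 3 ^ n).toNat : ℕ) : ℤ) < ((3 ^ n : ℕ) : ℤ) := by
          rw [Int.toNat_of_nonneg h1]; push_cast; exact h2
        exact_mod_cast h4
    _ ≤ ∑ c ∈ range (3 ^ n), K * g (c : ℤ) := by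
        apply sum_le_sum
        intro c _
        calc ∑ x ∈ W.filter (fun x => (e x % 3 ^ n).toNat = c), g (((e x % 3 ^ n).toNat : ℕ) : ℤ)
            = ∑ x ∈ W.filter (fun x => (e x % 3 ^ n).toNat = c), g (c : ℤ) := by
              apply sum_congr rfl
              intro x hx
              rw [(mem_filter.1 hx).2]
          _ = ((W.filter (fun x => (e x % 3 ^ n).toNat = c)).card : ℝ) * g (c : ℤ) := by
              rw [sum_const, nsmul_eq_mul]
          _ ≤ K * g (c : ℤ) := by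
              apply mul_le_mul_of_nonneg_right _ (hg _)
              refine le_trans ?_ (hW (c : ℤ))
              have : W.filter (fun x => (e x % 3 ^ n).toNat = c)
                  ⊆ W.filter (fun x => (3 : ℤ) ^ n ∣ e x - (c : ℤ)) := by
                intro x hx
                rw [mem_filter] at hx ⊢
                refine ⟨hx.1, ?_⟩
                rw [← hx.2]; exact hr x
              exact_mod_cast card_le_card this
    _ = _ := by rw [mul_sum]

/-- mixing for a fixed size -/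
theorem mixT {d : ℤ} (hd3 : IsCoprime d 3) (S : Set ℤ) {L : ℝ} (hL : 0 ≤ L) (A k m m' T : ℕ)
    (hm' : m' ≤ k) (hk : 1 ≤ k) (c : ℤ) :
    ∑ w ∈ FWT A k T, ((cls S L (2 * L) (k + m) (2 ^ T) (d * Wo w + 3 ^ k * c)).card : ℝ)
      ≤ (∑ w ∈ FWT A k T, ((cls S L (2 * L) m' (2 ^ T) (d * Wo w)).card : ℝ)) / 3 ^ (k + m - m')
        + 2 ^ T * (L / (2 * 3 ^ (k + m)) + 1) * dev (FWT A k T) wwt (fun w => (Wo w : ℤ)) (k + m) m' := by
  classical
  obtain ⟨p, q, hpq⟩ : IsCoprime d ((3 : ℤ) ^ (k + m)) := hd3.pow_right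
  set W : Finset ℤ := cls S L (2 * L) 0 1 0 with hWdef
  set e : ℤ → ℤ := fun x => p * (2 ^ T * x - 3 ^ k * c) with he
  have hwt : ∀ w ∈ FWT A k T, wwt w = (1 / 2 : ℝ) ^ T := by
    intro w hw
    unfold FWT at hw
    unfold wwt
    rw [(mem_filter.1 hw).2]
  have hcls : ∀ (n : ℕ) (v : ℤ), cls S L (2 * L) n (2 ^ T) v
      = W.filter fun x => (3 : ℤ) ^ n ∣ 2 ^ T * x - v := by
    intro n v
    ext x
    rw [mem_filter, hWdef, mem_cls, mem_cls]
    simp only [pow_zero, isUnit_one, IsUnit.dvd, and_true]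
    tauto
  have hcntgen : ∀ (n : ℕ) (u : ℤ → ℤ) (r : ℤ → ℤ),
      (∀ x : ℤ, ∀ w ∈ FWT A k T, ((3 : ℤ) ^ n ∣ 2 ^ T * x - u (Wo w : ℤ) ↔ (3 : ℤ) ^ n ∣ (Wo w : ℤ) - r x)) →
      ∑ w ∈ FWT A k T, ((cls S L (2 * L) n (2 ^ T) (u (Wo w : ℤ))).card : ℝ)
        = ∑ x ∈ W, 2 ^ T * cnt (FWT A k T) wwt (fun w => (Wo w : ℤ)) n (r x) := by
    intro n u r hur
    calc ∑ w ∈ FWT A k T, ((cls S L (2 * L) n (2 ^ T) (u (Wo w : ℤ))).card : ℝ)
        = ∑ w ∈ FWT A k T, ∑ x ∈ W, (if (3 : ℤ) ^ n ∣ 2 ^ T * x - u (Wo w : ℤ) then (1 : ℝ) else 0) := by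
          apply sum_congr rfl
          intro w _
          rw [hcls, card_filter]
          push_cast
          rfl
      _ = ∑ x ∈ W, ∑ w ∈ FWT A k T, (if (3 : ℤ) ^ n ∣ 2 ^ T * x - u (Wo w : ℤ) then (1 : ℝ) else 0) :=
          sum_comm
      _ = _ := by
          apply sum_congr rfl
          intro x _
          unfold cnt
          rw [mul_sum]
          apply sum_congr rfl
          intro w hw
          rw [hwt w hw]
          by_cases h : (3 : ℤ) ^ n ∣ 2 ^ T * x - u (Wo w : ℤ)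
          · rw [if_pos h, if_pos ((hur x w hw).1 h), ← mul_pow]; norm_num
          · rw [if_neg h, if_neg (fun h' => h ((hur x w hw).2 h')), mul_zero]
  have hpcop : IsCoprime ((3 : ℤ) ^ (k + m)) p := ⟨q, d, by linarith⟩
  have hdcop : IsCoprime ((3 : ℤ) ^ (k + m)) d := ⟨q, p, by linarith⟩
  have hfull := hcntgen (k + m) (fun W => d * W + 3 ^ k * c) e (by
    intro x w _
    constructor
    · intro h
      apply hdcop.dvd_of_dvd_mul_left
      -- d (Wo - e x) = d Wo - (1 - q 3^n)(2^T x - 3^k c)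
      have h1 := dvd_sub (Dvd.intro (q * (2 ^ T * x - 3 ^ k * c)) rfl :
        (3 : ℤ) ^ (k + m) ∣ 3 ^ (k + m) * (q * (2 ^ T * x - 3 ^ k * c))) h
      have e1 : d * ((Wo w : ℤ) - e x) = 3 ^ (k + m) * (q * (2 ^ T * x - 3 ^ k * c))
          - (2 ^ T * x - (d * (Wo w : ℤ) + 3 ^ k * c)) := by
        rw [he]
        have : d * p = 1 - q * 3 ^ (k + m) := by linarith
        calc d * ((Wo w : ℤ) - p * (2 ^ T * x - 3 ^ k * c))
            = d * (Wo w : ℤ) - (d * p) * (2 ^ T * x - 3 ^ k * c) := by ring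
          _ = _ := by rw [this]; ring
      rw [e1]; exact h1
    · intro h
      have h1 := dvd_sub (Dvd.intro (q * (2 ^ T * x - 3 ^ k * c)) rfl :
        (3 : ℤ) ^ (k + m) ∣ 3 ^ (k + m) * (q * (2 ^ T * x - 3 ^ k * c))) (h.mul_left d)
      have e1 : (2 ^ T * x - (d * (Wo w : ℤ) + 3 ^ k * c)) = 3 ^ (k + m) * (q * (2 ^ T * x - 3 ^ k * c))
          - d * ((Wo w : ℤ) - e x) := by
        rw [he]
        have : d * p = 1 - q * 3 ^ (k + m) := by linarith
        have e2 : d * ((Wo w : ℤ) - p * (2 ^ T * x - 3 ^ k * c))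
            = d * (Wo w : ℤ) - (d * p) * (2 ^ T * x - 3 ^ k * c) := by ring
        rw [e2, this]; ring
      rw [e1]; exact h1)
  have hlow := hcntgen m' (fun W => d * W) e (by
    intro x w _
    have hdm : (3 : ℤ) ^ m' ∣ 3 ^ (k + m) := pow_dvd_pow 3 (by omega)
    have hdk : (3 : ℤ) ^ m' ∣ 3 ^ k := pow_dvd_pow 3 hm'
    have hdcop' : IsCoprime ((3 : ℤ) ^ m') d := hd3.symm.pow_left
    have key : (3 : ℤ) ^ m' ∣ (2 ^ T * x - d * (Wo w : ℤ)) + d * ((Wo w : ℤ) - e x) := by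
      have : (2 ^ T * x - d * (Wo w : ℤ)) + d * ((Wo w : ℤ) - e x)
          = 3 ^ k * c + 3 ^ (k + m) * (q * (2 ^ T * x - 3 ^ k * c)) := by
        rw [he]
        have h1 : d * p = 1 - q * 3 ^ (k + m) := by linarith
        calc (2 ^ T * x - d * (Wo w : ℤ)) + d * ((Wo w : ℤ) - p * (2 ^ T * x - 3 ^ k * c))
            = 2 ^ T * x - (d * p) * (2 ^ T * x - 3 ^ k * c) := by ring
          _ = _ := by rw [h1]; ring
      rw [this]
      exact dvd_add (hdk.mul_right _) (hdm.mul_right _)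
    constructor
    · intro h
      apply hdcop'.dvd_of_dvd_mul_left
      have := dvd_sub key h
      rwa [add_sub_cancel_left] at this
    · intro h
      have := dvd_sub key (h.mul_left d)
      rwa [add_sub_cancel_right] at this)
  rw [hfull, hlow]
  set n := k + m with hn
  have h3n : (0 : ℝ) < 3 ^ (n - m') := by positivity
  have hdiff : ∑ x ∈ W, |cnt (FWT A k T) wwt (fun w => (Wo w : ℤ)) n (e x)
        - cnt (FWT A k T) wwt (fun w => (Wo w : ℤ)) m' (e x) / 3 ^ (n - m')|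
      ≤ (L / (2 * 3 ^ n) + 1) * dev (FWT A k T) wwt (fun w => (Wo w : ℤ)) n m' := by
    unfold dev
    apply sum_periodic_le (g := fun c => |cnt (FWT A k T) wwt (fun w => (Wo w : ℤ)) n c
        - cnt (FWT A k T) wwt (fun w => (Wo w : ℤ)) m' c / 3 ^ (n - m')|)
    · intro r
      have hpc : IsCoprime (p * 2 ^ T) 3 := by
        apply IsCoprime.mul_left
        · have : IsCoprime p ((3 : ℤ) ^ (k + m)) := hpcop.symm
          exact this.of_isCoprime_of_dvd_right (dvd_pow_self 3 (by omega))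
        · exact cop_two_pow T
      have h1 := cls_card_le S (by linarith : L ≤ 2 * L) n hpc (p * 3 ^ k * c + r)
      have h2 : W.filter (fun x => (3 : ℤ) ^ n ∣ e x - r)
          ⊆ cls S L (2 * L) n (p * 2 ^ T) (p * 3 ^ k * c + r) := by
        intro x hx
        rw [mem_filter, hWdef, mem_cls] at hx
        rw [mem_cls]
        refine ⟨hx.1.1, hx.1.2.1, hx.1.2.2.1, ?_⟩
        have := hx.2
        rw [he] at this
        convert this using 1
        ring
      have h4 : ((W.filter (fun x => (3 : ℤ) ^ n ∣ e x - r)).card : ℝ)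
          ≤ (cls S L (2 * L) n (p * 2 ^ T) (p * 3 ^ k * c + r)).card := by
        exact_mod_cast card_le_card h2
      refine h4.trans (h1.trans (le_of_eq ?_))
      ring
    · intro c; exact abs_nonneg _
    · intro c c' hcc
      have h1 := cnt_congr (s := FWT A k T) (wt := wwt) (fun w => (Wo w : ℤ)) n hcc
      have h2 := cnt_congr (s := FWT A k T) (wt := wwt) (fun w => (Wo w : ℤ)) m'
        ((pow_dvd_pow 3 (by omega : m' ≤ n)).trans hcc)
      rw [h1, h2]
  have hT : (0 : ℝ) < 2 ^ T := by positivity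
  calc ∑ x ∈ W, 2 ^ T * cnt (FWT A k T) wwt (fun w => (Wo w : ℤ)) n (e x)
      ≤ ∑ x ∈ W, (2 ^ T * cnt (FWT A k T) wwt (fun w => (Wo w : ℤ)) m' (e x) / 3 ^ (n - m')
          + 2 ^ T * |cnt (FWT A k T) wwt (fun w => (Wo w : ℤ)) n (e x)
        - cnt (FWT A k T) wwt (fun w => (Wo w : ℤ)) m' (e x) / 3 ^ (n - m')|) := by
        apply sum_le_sum
        intro x _
        rw [mul_div_assoc, ← mul_add]
        apply mul_le_mul_of_nonneg_left _ hT.le
        linarith [le_abs_self (cnt (FWT A k T) wwt (fun w => (Wo w : ℤ)) n (e x)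
          - cnt (FWT A k T) wwt (fun w => (Wo w : ℤ)) m' (e x) / 3 ^ (n - m'))]
    _ = (∑ x ∈ W, 2 ^ T * cnt (FWT A k T) wwt (fun w => (Wo w : ℤ)) m' (e x)) / 3 ^ (n - m')
          + 2 ^ T * ∑ x ∈ W, |cnt (FWT A k T) wwt (fun w => (Wo w : ℤ)) n (e x)
        - cnt (FWT A k T) wwt (fun w => (Wo w : ℤ)) m' (e x) / 3 ^ (n - m')| := by
        rw [sum_add_distrib, sum_div, mul_sum]
    _ ≤ _ := by
        rw [mul_assoc (2 ^ T)]
        have := mul_le_mul_of_nonneg_left hdiff hT.le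
        linarith

end Pool.Agent.H499R2.ND
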