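import Pool.Agent.H499R2.NDIter

/-! Natural density: counting the integers whose orbit stays above `y`. -/

set_option autoImplicit false

namespace Pool.Agent.H499R2.ND

open Pool.Agent.H320R2.PD Finset

/-- the generalised map `x ↦ x/2` (even), `(3x+d)/2` (odd) -/
def Td (d : ℤ) (x : ℤ) : ℤ := if x % 2 = 0 then x / 2 else (3 * x + d) / 2

theorem odd_count {S : Set ℤ} {δ : ℝ} (hδ : 0 ≤ δ) (h : ∀ A : ℝ, 0 < A → PB S A 0 δ) :
    ∀ n : ℕ, ∀ X : ℝ, 0 ≤ X → X ≤ 2 ^ n → ((cls S 0 X 0 1 0).card : ℝ) ≤ δ * X / 2 := by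
  intro n
  induction n with
  | zero =>
    intro X hX hX1
    have : cls S 0 X 0 1 0 = ∅ := by
      rw [Finset.eq_empty_iff_forall_notMem]
      intro x hx
      rw [mem_cls] at hx
      have h1 : (x : ℝ) < 1 := lt_of_lt_of_le hx.1.2 (by simpa using hX1)
      have h2 : (0 : ℝ) ≤ x := hx.1.1
      have h3 : x < 1 := by exact_mod_cast h1
      have h4 : 0 ≤ x := by exact_mod_cast h2
      have h5 : x = 0 := by omega
      rw [h5] at hx
      exact absurd hx.2.1 (by decide)
    rw [this, card_empty, Nat.cast_zero]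
    positivity
  | succ n ih =>
    intro X hX hXn
    classical
    rcases hX.eq_or_lt with h0 | hpos
    · have := ih X hX (by rw [← h0]; positivity)
      exact this
    have hsub : cls S 0 X 0 1 0 ⊆ cls S 0 (X / 2) 0 1 0 ∪ cls S (X / 2) (2 * (X / 2)) 0 1 0 := by
      intro x hx
      rw [mem_cls] at hx
      rw [mem_union, mem_cls, mem_cls]
      rcases lt_or_ge (x : ℝ) (X / 2) with h1 | h1
      · exact Or.inl ⟨⟨hx.1.1, h1⟩, hx.2⟩
      · exact Or.inr ⟨⟨h1, by linarith [hx.1.2]⟩, hx.2⟩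
    have h1 : ((cls S 0 X 0 1 0).card : ℝ)
        ≤ (cls S 0 (X / 2) 0 1 0).card + (cls S (X / 2) (2 * (X / 2)) 0 1 0).card := by
      exact_mod_cast (card_le_card hsub).trans (card_union_le _ _)
    have h2 := ih (X / 2) (by linarith) (by rw [pow_succ] at hXn; linarith)
    have h3 := h (X / 2) (by linarith) 1 0 isCoprime_one_left
    rw [pow_zero, mul_one] at h3
    linarith

theorem odd_count' {S : Set ℤ} {δ : ℝ} (hδ : 0 ≤ δ) (h : ∀ A : ℝ, 0 < A → PB S A 0 δ) {X : ℝ}
    (hX : 0 ≤ X) : ((cls S 0 X 0 1 0).card : ℝ) ≤ δ * X / 2 := by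
  obtain ⟨n, hn⟩ := pow_unbounded_of_one_lt X (by norm_num : (1 : ℝ) < 2)
  exact odd_count hδ h n X hX hn.le

open scoped Classical in
/-- positive elements of `S` below `X` -/
noncomputable def pos (S : Set ℤ) (X : ℝ) : Finset ℤ := (Ico 1 ⌈X⌉).filter fun x => x ∈ S

theorem mem_pos {S : Set ℤ} {X : ℝ} {x : ℤ} : x ∈ pos S X ↔ (1 ≤ x ∧ (x : ℝ) < X) ∧ x ∈ S := by
  classical
  unfold pos; rw [mem_filter, mem_Ico, Int.lt_ceil]

theorem all_count {S : Set ℤ} {δ : ℝ} (hδ : 0 ≤ δ) (h : ∀ A : ℝ, 0 < A → PB S A 0 δ)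
    (h2 : ∀ x : ℤ, 2 * x ∈ S → x ∈ S) :
    ∀ n : ℕ, ∀ X : ℝ, 0 ≤ X → X ≤ 2 ^ n → ((pos S X).card : ℝ) ≤ δ * X := by
  intro n
  induction n with
  | zero =>
    intro X hX hX1
    have : pos S X = ∅ := by
      rw [Finset.eq_empty_iff_forall_notMem]
      intro x hx
      rw [mem_pos] at hx
      have h1 : (x : ℝ) < 1 := lt_of_lt_of_le hx.1.2 (by simpa using hX1)
      have h3 : x < 1 := by exact_mod_cast h1
      omega
    rw [this, card_empty, Nat.cast_zero]
    positivity
  | succ n ih =>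
    intro X hX hXn
    classical
    have hsub : pos S X ⊆ cls S 0 X 0 1 0 ∪ (pos S (X / 2)).image (fun x => 2 * x) := by
      intro x hx
      rw [mem_pos] at hx
      rw [mem_union, mem_cls, mem_image]
      rcases Int.even_or_odd x with he | ho
      · right
        obtain ⟨t, ht⟩ := he
        refine ⟨t, ?_, by omega⟩
        rw [mem_pos]
        have hxt : (x : ℝ) = 2 * t := by rw [ht]; push_cast; ring
        refine ⟨⟨by omega, by linarith [hx.1.2]⟩, h2 t ?_⟩
        rw [show 2 * t = x by omega]; exact hx.2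
      · left
        refine ⟨⟨?_, hx.1.2⟩, ho, hx.2, by simp⟩
        have : (1 : ℝ) ≤ x := by exact_mod_cast hx.1.1
        linarith
    have h1 : ((pos S X).card : ℝ) ≤ (cls S 0 X 0 1 0).card + (pos S (X / 2)).card := by
      have e1 := (card_le_card hsub).trans (card_union_le _ _)
      have e2 : ((pos S (X / 2)).image (fun x => 2 * x)).card ≤ (pos S (X / 2)).card := card_image_le
      exact_mod_cast e1.trans (Nat.add_le_add_left e2 _)
    have h3 := odd_count' hδ h hX
    have h4 := ih (X / 2) (by linarith) (by rw [pow_succ] at hXn; linarith)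
    linarith

theorem all_count' {S : Set ℤ} {δ : ℝ} (hδ : 0 ≤ δ) (h : ∀ A : ℝ, 0 < A → PB S A 0 δ)
    (h2 : ∀ x : ℤ, 2 * x ∈ S → x ∈ S) {X : ℝ} (hX : 0 ≤ X) : ((pos S X).card : ℝ) ≤ δ * X := by
  obtain ⟨n, hn⟩ := pow_unbounded_of_one_lt X (by norm_num : (1 : ℝ) < 2)
  exact all_count hδ h h2 n X hX hn.le

/-- the trivial bound -/
theorem pos_card_le (S : Set ℤ) {X : ℝ} (hX : 0 ≤ X) : ((pos S X).card : ℝ) ≤ X := by
  classical
  rcases lt_or_ge 0 ⌈X⌉ with h | h
  · have h1 : (pos S X).card ≤ (Ico (1 : ℤ) ⌈X⌉).card := card_le_card (filter_subset _ _)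
    rw [Int.card_Ico] at h1
    have h2 : ((⌈X⌉ - 1).toNat : ℤ) = ⌈X⌉ - 1 := Int.toNat_of_nonneg (by omega)
    have h3 : ((pos S X).card : ℝ) ≤ ((⌈X⌉ - 1).toNat : ℝ) := by exact_mod_cast h1
    have h4 : (((⌈X⌉ - 1).toNat : ℕ) : ℝ) = (⌈X⌉ : ℝ) - 1 := by exact_mod_cast congrArg (Int.cast : ℤ → ℝ) h2
    rw [h4] at h3
    linarith [Int.ceil_lt_add_one X]
  · have : pos S X = ∅ := by
      rw [Finset.eq_empty_iff_forall_notMem]
      intro x hx
      rw [mem_pos] at hx
      have : (x : ℝ) < X := hx.1.2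
      have h2 : X ≤ ⌈X⌉ := Int.le_ceil X
      have h3 : (x : ℝ) < (⌈X⌉ : ℝ) := by linarith
      have h4 : x < ⌈X⌉ := by exact_mod_cast h3
      omega
    rw [this, card_empty, Nat.cast_zero]; exact hX

/-- MAIN BOUND for forward invariant sets of integers -/
theorem main_pos (B : ℕ) {d : ℤ} (hd : Odd d) (hd3 : IsCoprime d 3) :
    ∃ K : ℝ, 0 < K ∧ ∀ y : ℝ, 2 ≤ y → ∀ S : Set ℤ, Fwd d S → (∀ x : ℤ, 2 * x ∈ S → x ∈ S) →
      (∀ x ∈ S, 0 < x → y < (x : ℝ)) → ∀ X : ℝ, 0 ≤ X →
        ((pos S X).card : ℝ) ≤ K * X / (Real.log y) ^ B := by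
  obtain ⟨K, hK, hall⟩ := all_scales (B + 1) (by omega) hd hd3
  -- for large y
  set Y : ℝ := 1002 with hY
  refine ⟨(2 * Y) ^ B + K * 2 ^ (B + 1), by positivity, ?_⟩
  intro y hy S hS h2 hSy X hX
  have hl2 := Real.log_two_gt_d9
  have hl2' := Real.log_two_lt_d9
  have hlogy : 0 < Real.log y := Real.log_pos (by linarith)
  rcases lt_or_ge (Real.log y) Y with hsm | hbig
  · -- trivial bound
    have h1 := pos_card_le S hX
    refine h1.trans ?_
    rw [mul_div_right_comm]
    have h3 : 1 ≤ ((2 * Y) ^ B + K * 2 ^ (B + 1)) / Real.log y ^ B := by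
      rw [le_div_iff₀ (by positivity), one_mul]
      calc Real.log y ^ B ≤ (2 * Y) ^ B := pow_le_pow_left₀ hlogy.le (by linarith) B
        _ ≤ _ := by
          have : 0 < K * 2 ^ (B + 1) := by positivity
          linarith
    nlinarith
  · have hlog2 : Real.log (y / 2) = Real.log y - Real.log 2 := Real.log_div (by linarith) (by norm_num)
    have ht0 : 1000 ≤ Real.log (y / 2) := by rw [hlog2]; linarith
    have h1 := hall y (by linarith) ht0 S hS hSy
    have hδ : 0 ≤ K / (Real.log (y / 2)) ^ (B + 1) := by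
      have : 0 < Real.log (y / 2) := by linarith
      positivity
    have h3 := all_count' hδ (fun A hA => h1 A hA 0 (fun hyA => by
      have : 0 ≤ Real.log A := by
        have := Real.log_lt_log (by linarith : 0 < y / 2) hyA
        linarith
      simpa using this)) h2 hX
    refine h3.trans ?_
    have h4 : K / (Real.log (y / 2)) ^ (B + 1) ≤ (K * 2 ^ (B + 1)) / Real.log y ^ B := by
      have e1 : Real.log y / 2 ≤ Real.log (y / 2) := by rw [hlog2]; linarith
      have e2 : (Real.log y / 2) ^ (B + 1) ≤ (Real.log (y / 2)) ^ (B + 1) :=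
        pow_le_pow_left₀ (by linarith) e1 _
      have e3 : (0 : ℝ) < (Real.log y / 2) ^ (B + 1) := by positivity
      calc K / (Real.log (y / 2)) ^ (B + 1) ≤ K / (Real.log y / 2) ^ (B + 1) :=
            div_le_div_of_nonneg_left hK.le e3 e2
        _ = K * 2 ^ (B + 1) / Real.log y ^ (B + 1) := by rw [div_pow]; field_simp
        _ ≤ K * 2 ^ (B + 1) / Real.log y ^ B := by
            apply div_le_div_of_nonneg_left (by positivity) (by positivity)
            exact pow_le_pow_right₀ (by linarith) (Nat.le_succ B)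
    calc K / (Real.log (y / 2)) ^ (B + 1) * X ≤ (K * 2 ^ (B + 1)) / Real.log y ^ B * X :=
          mul_le_mul_of_nonneg_right h4 hX
      _ ≤ ((2 * Y) ^ B + K * 2 ^ (B + 1)) / Real.log y ^ B * X := by
          apply mul_le_mul_of_nonneg_right _ hX
          apply div_le_div_of_nonneg_right _ (by positivity)
          have : 0 < (2 * Y) ^ B := by positivity
          linarith
      _ = _ := by ring

end Pool.Agent.H499R2.ND
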